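import Pool.Agent.V11321.ND.Lim2
import Pool.Agent.Y985.ME.Top

/-!
The modulus of non-differentiability.
-/

set_option autoImplicit false
set_option linter.unusedVariables false

namespace Pool.Agent.V11321.ND

open H974 Finset H342P H984P H984N MeasureTheory Filter Topology Pool.Agent.Y995.FS

/-- the gauge -/
noncomputable def gm (h : ℝ) : ℝ := h ^ (4/7 : ℝ) * Real.log (1 / h) ^ (-(1/14) : ℝ)

theorem gauge_inv {c r0 : ℝ} (hc : 0 < c) (hr0 : 0 < r0) : ∃ h0 : ℝ, 0 < h0 ∧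
    ∀ h : ℝ, 0 < h → h < h0 → 0 < c * gm h ∧ c * gm h < r0 ∧
      (1/2) ^ (1/8 : ℝ) * (c ^ (7/4 : ℝ) * h) ≤
        (c * gm h) ^ (7/4 : ℝ) * Real.log (1 / (c * gm h)) ^ (1/8 : ℝ) ∧
      (c * gm h) ^ (7/4 : ℝ) * Real.log (1 / (c * gm h)) ^ (1/8 : ℝ) ≤
        2 ^ (1/8 : ℝ) * (c ^ (7/4 : ℝ) * h) := by
  obtain ⟨A, hA⟩ : ∃ A : ℝ, A = 1 + 14 * |Real.log c| := ⟨_, rfl⟩
  refine ⟨min (Real.exp (-A)) ((r0 / c) ^ (7/4 : ℝ)), lt_min (Real.exp_pos _) (by positivity),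
    fun h hh hlt => ?_⟩
  have h1 : h < Real.exp (-A) := lt_of_lt_of_le hlt (min_le_left _ _)
  have h2 : h < (r0 / c) ^ (7/4 : ℝ) := lt_of_lt_of_le hlt (min_le_right _ _)
  obtain ⟨l, hl⟩ : ∃ l : ℝ, l = Real.log (1 / h) := ⟨_, rfl⟩
  have hlA : A ≤ l := by
    rw [hl, one_div, Real.log_inv]
    have h3 := Real.log_lt_log hh h1
    rw [Real.log_exp] at h3
    linarith
  have hc0 := abs_nonneg (Real.log c)
  have hl1 : 1 ≤ l := by linarith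
  have hl0 : 0 < l := by linarith
  have hg : gm h = h ^ (4/7 : ℝ) * l ^ (-(1/14) : ℝ) := by unfold gm; rw [hl]
  have hg0 : 0 < gm h := by rw [hg]; positivity
  have hr : 0 < c * gm h := by positivity
  have hlog : Real.log (1 / (c * gm h)) = -Real.log c + 4/7 * l + 1/14 * Real.log l := by
    rw [one_div, Real.log_inv, Real.log_mul hc.ne' hg0.ne', hg,
      Real.log_mul (by positivity) (by positivity), Real.log_rpow hh, Real.log_rpow hl0]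
    have h3 : Real.log h = -l := by rw [hl, one_div, Real.log_inv]; ring
    rw [h3]
    ring
  have hll0 : 0 ≤ Real.log l := Real.log_nonneg hl1
  have hll1 : Real.log l ≤ l := (Real.log_le_sub_one_of_pos hl0).trans (by linarith)
  have hc1 := neg_abs_le (Real.log c)
  have hc2 := le_abs_self (Real.log c)
  have hlow : l / 2 ≤ Real.log (1 / (c * gm h)) := by rw [hlog]; linarith
  have hup : Real.log (1 / (c * gm h)) ≤ 2 * l := by rw [hlog]; linarith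
  have hpow : (c * gm h) ^ (7/4 : ℝ) = c ^ (7/4 : ℝ) * h * l ^ (-(1/8) : ℝ) := by
    rw [Real.mul_rpow hc.le hg0.le, hg, Real.mul_rpow (by positivity) (by positivity),
      ← Real.rpow_mul hh.le, ← Real.rpow_mul hl0.le]
    norm_num
    ring
  have hli : l ^ (-(1/8) : ℝ) * l ^ (1/8 : ℝ) = 1 := by
    rw [← Real.rpow_add hl0]; norm_num
  have hpos : 0 ≤ c ^ (7/4 : ℝ) * h * l ^ (-(1/8) : ℝ) := by positivity
  refine ⟨hr, ?_, ?_, ?_⟩
  · have h3 : l ^ (-(1/14) : ℝ) ≤ 1 := Real.rpow_le_one_of_one_le_of_nonpos hl1 (by norm_num)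
    have h4 : h ^ (4/7 : ℝ) < r0 / c := by
      have h5 := Real.rpow_lt_rpow hh.le h2 (show (0:ℝ) < 4/7 by norm_num)
      rw [← Real.rpow_mul (by positivity)] at h5
      norm_num at h5
      norm_num
      exact h5
    rw [lt_div_iff₀ hc] at h4
    have h5 : gm h ≤ h ^ (4/7 : ℝ) := by
      rw [hg]
      have : 0 ≤ h ^ (4/7 : ℝ) := by positivity
      nlinarith
    nlinarith
  · rw [hpow]
    have h3 : (l / 2) ^ (1/8 : ℝ) ≤ Real.log (1 / (c * gm h)) ^ (1/8 : ℝ) :=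
      Real.rpow_le_rpow (by positivity) hlow (by norm_num)
    have h4 : (l / 2) ^ (1/8 : ℝ) = (1/2) ^ (1/8 : ℝ) * l ^ (1/8 : ℝ) := by
      rw [← Real.mul_rpow (by norm_num) hl0.le]; congr 1; ring
    calc (1/2) ^ (1/8 : ℝ) * (c ^ (7/4 : ℝ) * h)
        = (1/2) ^ (1/8 : ℝ) * (c ^ (7/4 : ℝ) * h) * (l ^ (-(1/8) : ℝ) * l ^ (1/8 : ℝ)) := by
          rw [hli, mul_one]
      _ = c ^ (7/4 : ℝ) * h * l ^ (-(1/8) : ℝ) * (l / 2) ^ (1/8 : ℝ) := by rw [h4]; ring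
      _ ≤ _ := mul_le_mul_of_nonneg_left h3 hpos
  · rw [hpow]
    have h3 : Real.log (1 / (c * gm h)) ^ (1/8 : ℝ) ≤ (2 * l) ^ (1/8 : ℝ) :=
      Real.rpow_le_rpow (by linarith) hup (by norm_num)
    have h4 : (2 * l) ^ (1/8 : ℝ) = 2 ^ (1/8 : ℝ) * l ^ (1/8 : ℝ) :=
      Real.mul_rpow (by norm_num) hl0.le
    calc c ^ (7/4 : ℝ) * h * l ^ (-(1/8) : ℝ) * Real.log (1 / (c * gm h)) ^ (1/8 : ℝ)
        ≤ c ^ (7/4 : ℝ) * h * l ^ (-(1/8) : ℝ) * (2 * l) ^ (1/8 : ℝ) :=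
          mul_le_mul_of_nonneg_left h3 hpos
      _ = 2 ^ (1/8 : ℝ) * (c ^ (7/4 : ℝ) * h) * (l ^ (-(1/8) : ℝ) * l ^ (1/8 : ℝ)) := by
          rw [h4]; ring
      _ = _ := by rw [hli, mul_one]

/-- a window has at least half of its length in the unit interval -/
theorem window_vol {T h : ℝ} (hT : 0 < T) (hh : 0 < h) (hh2 : h / T ≤ 1/2) (u : unitInterval)
    {E : Set unitInterval} (hE : ∀ v : unitInterval, T * |(v : ℝ) - u| ≤ h → v ∈ E) :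
    h ≤ T * (volume E).toReal := by
  obtain ⟨d, hd⟩ : ∃ d, d = h / T := ⟨_, rfl⟩
  have hd0 : 0 < d := by rw [hd]; positivity
  have hTd : T * d = h := by rw [hd]; field_simp
  rw [← hd] at hh2
  have u0 : (0:ℝ) ≤ u := u.2.1
  have u1 : (u:ℝ) ≤ 1 := u.2.2
  have key : ∀ a b : unitInterval, (b:ℝ) - a = d → (∀ v : unitInterval, a ≤ v → v ≤ b →
      |(v : ℝ) - u| ≤ d) → h ≤ T * (volume E).toReal := by
    intro a b hab hv
    have h1 : volume (Set.Icc a b) ≤ volume E := by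
      refine measure_mono fun v hv' => hE v ?_
      have := hv v hv'.1 hv'.2
      calc T * |(v : ℝ) - u| ≤ T * d := mul_le_mul_of_nonneg_left this hT.le
        _ = h := hTd
    have h2 := ENNReal.toReal_mono (measure_ne_top _ _) h1
    rw [unitInterval.volume_Icc, ENNReal.toReal_ofReal (by linarith), hab] at h2
    calc h = T * d := hTd.symm
      _ ≤ _ := mul_le_mul_of_nonneg_left h2 hT.le
  by_cases hu : (u:ℝ) ≤ 1/2
  · refine key u ⟨u + d, by linarith, by linarith⟩ (by simp) ?_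
    intro v hv1 hv2
    have a1 : (u:ℝ) ≤ v := hv1
    have a2 : (v:ℝ) ≤ u + d := hv2
    rw [abs_of_nonneg (by linarith)]
    linarith
  · refine key ⟨u - d, by linarith, by linarith⟩ u (by simp) ?_
    intro v hv1 hv2
    have a1 : (u:ℝ) - d ≤ v := hv1
    have a2 : (v:ℝ) ≤ u := hv2
    rw [abs_of_nonpos (by linarith)]
    linarith

/-- The modulus of non-differentiability. -/
theorem nondiff (R : Rect) : ∃ c C : ℝ, 0 < c ∧ 0 < C ∧
    ∀ δ : ℕ → ℝ, (∀ i, 0 < δ i) → Tendsto δ atTop (𝓝 0) → ∀ μ : ProbabilityMeasure X,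
      Tendsto (fun i => R.law (δ i)) atTop (𝓝 μ) → ∀ᵐ p ∂(μ : Measure X), 0 < p.2 ∧
        (∃ h0 : ℝ, 0 < h0 ∧ ∀ h : ℝ, 0 < h → h < h0 → ∀ u v : unitInterval,
          h ≤ p.2 * ((v : ℝ) - u) → ∀ z : ℂ, ∃ y : unitInterval, (u ≤ y ∧ y ≤ v) ∧
            c * gm h < dist (p.1 y) z) ∧
        ∀ a b : unitInterval, a < b → ∃ h0 : ℝ, 0 < h0 ∧ ∀ h : ℝ, 0 < h → h < h0 →
          ∃ (u v : unitInterval) (z : ℂ), (a ≤ u ∧ v ≤ b) ∧ p.2 * ((v : ℝ) - u) = h ∧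
            ∀ y : unitInterval, u ≤ y → y ≤ v → dist (p.1 y) z ≤ C * gm h := by
  obtain ⟨⟨c, hc, hL⟩, ⟨C, hC, hU⟩, C2, hC2, hA⟩ := Pool.Agent.Y985.ME.inputs
  obtain ⟨-, h2, h3⟩ := final_of hc hC hL hU hC2 hA R
  obtain ⟨c1, hc1, hlow⟩ := stay_low hc hC hL hU hC2 hA R
  obtain ⟨C1, hC1, hup⟩ := Pool.Agent.Y985.ME.occ_up R
  obtain ⟨ca, hca⟩ : ∃ ca : ℝ, ca = (1 / (4 * C1)) ^ (4/7 : ℝ) := ⟨_, rfl⟩
  have hca0 : 0 < ca := by rw [hca]; positivity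
  have hca1 : ca ^ (7/4 : ℝ) = 1 / (4 * C1) := by
    rw [hca, ← Real.rpow_mul (by positivity)]; norm_num
  obtain ⟨Ca, hCa⟩ : ∃ Ca : ℝ, Ca = (2 / c1) ^ (4/7 : ℝ) := ⟨_, rfl⟩
  have hCa0 : 0 < Ca := by rw [hCa]; positivity
  have hCa1 : Ca ^ (7/4 : ℝ) = 2 / c1 := by
    rw [hCa, ← Real.rpow_mul (by positivity)]; norm_num
  have two8 : (2:ℝ) ^ (1/8 : ℝ) ≤ 2 := by
    calc (2:ℝ) ^ (1/8 : ℝ) ≤ (2:ℝ) ^ (1 : ℝ) :=
          Real.rpow_le_rpow_of_exponent_le (by norm_num) (by norm_num)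
      _ = 2 := Real.rpow_one 2
  have half8 : (1/2:ℝ) ≤ (1/2) ^ (1/8 : ℝ) := by
    calc (1/2:ℝ) = (1/2) ^ (1 : ℝ) := (Real.rpow_one _).symm
      _ ≤ _ := Real.rpow_le_rpow_of_exponent_ge (by norm_num) (by norm_num) (by norm_num)
  refine ⟨ca, Ca, hca0, hCa0, fun δ hδ hlim μ hμ => ?_⟩
  filter_upwards [h3 δ hδ hlim μ hμ, hlow δ hδ hlim μ hμ, hup δ hδ hlim μ hμ] with p g1 g2 g3
  have hp := g1.1
  refine ⟨hp, ?_, fun a b hab => ?_⟩
  · obtain ⟨r0, hr0, k2⟩ := g3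
    obtain ⟨h0, hh0, hg⟩ := gauge_inv hca0 hr0
    refine ⟨h0, hh0, fun h hh hlt u v huv z => ?_⟩
    obtain ⟨e1, e2, -, e4⟩ := hg h hh hlt
    by_contra hcon
    push Not at hcon
    have h6 := k2 _ e1 e2 z
    have huv0 : 0 ≤ (v : ℝ) - u := by
      by_contra hneg
      push Not at hneg
      nlinarith
    have h5 : (v : ℝ) - u ≤
        (volume {s : unitInterval | dist (p.1 s) z ≤ ca * gm h}).toReal := by
      have h7 : volume (Set.Icc u v) ≤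
          volume {s : unitInterval | dist (p.1 s) z ≤ ca * gm h} :=
        measure_mono fun y hy => hcon y ⟨hy.1, hy.2⟩
      have h8 := ENNReal.toReal_mono (measure_ne_top _ _) h7
      rwa [unitInterval.volume_Icc, ENNReal.toReal_ofReal huv0] at h8
    have h5' := mul_le_mul_of_nonneg_left h5 hp.le
    have h7 := mul_le_mul_of_nonneg_left e4 hC1.le
    rw [hca1] at h7
    have h8 : C1 * (2 ^ (1/8 : ℝ) * (1 / (4 * C1) * h)) = 2 ^ (1/8 : ℝ) * (h / 4) := by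
      field_simp
    rw [h8] at h7
    have h9 : (2:ℝ) ^ (1/8 : ℝ) * (h / 4) ≤ 2 * (h / 4) :=
      mul_le_mul_of_nonneg_right two8 (by positivity)
    linarith
  · obtain ⟨r0, hr0, k2⟩ := g2 a b hab
    obtain ⟨h0, hh0, hg⟩ := gauge_inv hCa0 hr0
    refine ⟨h0, hh0, fun h hh hlt => ?_⟩
    obtain ⟨e1, e2, e3, -⟩ := hg h hh hlt
    obtain ⟨u, v, z, l1, l2, l3, l4, l5⟩ := k2 _ e1 e2
    have h7 := mul_le_mul_of_nonneg_left e3 hc1.le
    rw [hCa1] at h7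
    have h8 : c1 * ((1/2) ^ (1/8 : ℝ) * (2 / c1 * h)) = (1/2) ^ (1/8 : ℝ) * (2 * h) := by
      field_simp
    rw [h8] at h7
    have h9 : (1/2:ℝ) * (2 * h) ≤ (1/2) ^ (1/8 : ℝ) * (2 * h) :=
      mul_le_mul_of_nonneg_right half8 (by positivity)
    have h10 : h ≤ p.2 * ((v : ℝ) - u) := by linarith
    have b0 : (0:ℝ) ≤ u := u.2.1
    have b1 : (v:ℝ) ≤ 1 := v.2.2
    obtain ⟨d, hd⟩ : ∃ d, d = h / p.2 := ⟨_, rfl⟩
    have hd0 : 0 < d := by rw [hd]; positivity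
    have hTd : p.2 * d = h := by rw [hd]; field_simp
    have hd1 : d ≤ (v : ℝ) - u := by
      rw [hd, div_le_iff₀ hp]; linarith
    obtain ⟨x, hx⟩ : ∃ x : unitInterval, (x : ℝ) = (u:ℝ) + d :=
      ⟨⟨(u:ℝ) + d, by linarith, by linarith⟩, rfl⟩
    have hxv : x ≤ v := by
      show (x:ℝ) ≤ v
      rw [hx]; linarith
    refine ⟨u, x, z, ⟨l1, hxv.trans l3⟩, ?_, fun y hy1 hy2 => l4 y hy1 (hy2.trans hxv)⟩
    rw [hx, ← hTd]
    ring

end Pool.Agent.V11321.ND
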