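import Pool.Agent.V11321.ND.Typ
import Pool.Agent.V11321.ND.Mod

/-!
Chung's law of the iterated logarithm at typical times.
-/

set_option autoImplicit false
set_option linter.unusedVariables false

namespace Pool.Agent.V11321.ND

open H974 Finset H342P H984P H984N Pool.Agent.Y995.FS Pool.Agent.Y995.HG Pool.Agent.Y995.TP
open MeasureTheory Filter Topology
open scoped ENNReal NNReal

/-- the gauge of Chung's law -/
noncomputable def gc (h : ℝ) : ℝ := h ^ (4/7 : ℝ) * Real.log (Real.log (1 / h)) ^ (-(1/14) : ℝ)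

theorem gc_inv {c r0 : ℝ} (hc : 0 < c) (hr0 : 0 < r0) : ∃ h0 : ℝ, 0 < h0 ∧
    ∀ h : ℝ, 0 < h → h < h0 → 0 < c * gc h ∧ c * gc h < r0 ∧
      ga (c * gc h) ≤ 2 * (c ^ (7/4 : ℝ) * h) := by
  obtain ⟨A, hA⟩ : ∃ A : ℝ, A = 3 + 2 * |Real.log c| := ⟨_, rfl⟩
  refine ⟨min (Real.exp (-A)) ((r0 / c) ^ (7/4 : ℝ)), lt_min (Real.exp_pos _) (by positivity),
    fun h hh hlt => ?_⟩
  have h1 : h < Real.exp (-A) := lt_of_lt_of_le hlt (min_le_left _ _)
  have h2 : h < (r0 / c) ^ (7/4 : ℝ) := lt_of_lt_of_le hlt (min_le_right _ _)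
  obtain ⟨L, hL⟩ : ∃ L : ℝ, L = Real.log (1 / h) := ⟨_, rfl⟩
  have hLA : A ≤ L := by
    rw [hL, one_div, Real.log_inv]
    have h3 := Real.log_lt_log hh h1
    rw [Real.log_exp] at h3
    linarith
  have hc0 := abs_nonneg (Real.log c)
  have hL3 : 3 ≤ L := by linarith
  have hL0 : 0 < L := by linarith
  obtain ⟨l, hl⟩ : ∃ l : ℝ, l = Real.log L := ⟨_, rfl⟩
  have hl1 : 1 ≤ l := by
    rw [hl, Real.le_log_iff_exp_le hL0]
    have := Real.exp_one_lt_d9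
    linarith
  have hl0 : 0 < l := by linarith
  have hg : gc h = h ^ (4/7 : ℝ) * l ^ (-(1/14) : ℝ) := by unfold gc; rw [hl, hL]
  have hg0 : 0 < gc h := by rw [hg]; positivity
  have hr : 0 < c * gc h := by positivity
  have hlog : Real.log (1 / (c * gc h)) = -Real.log c + 4/7 * L + 1/14 * Real.log l := by
    rw [one_div, Real.log_inv, Real.log_mul hc.ne' hg0.ne', hg,
      Real.log_mul (by positivity) (by positivity), Real.log_rpow hh, Real.log_rpow hl0]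
    have h3 : Real.log h = -L := by rw [hL, one_div, Real.log_inv]; ring
    rw [h3]
    ring
  have hll0 : 0 ≤ Real.log l := Real.log_nonneg hl1
  have hlL : l ≤ L := by
    rw [hl]; exact (Real.log_le_sub_one_of_pos hL0).trans (by linarith)
  have hll1 : Real.log l ≤ L :=
    (Real.log_le_sub_one_of_pos hl0).trans (by linarith)
  have hc1 := neg_abs_le (Real.log c)
  have hc2 := le_abs_self (Real.log c)
  have hlow : 1 ≤ Real.log (1 / (c * gc h)) := by rw [hlog]; linarith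
  have hup : Real.log (1 / (c * gc h)) ≤ L ^ 2 := by rw [hlog]; nlinarith
  have hpow : (c * gc h) ^ (7/4 : ℝ) = c ^ (7/4 : ℝ) * h * l ^ (-(1/8) : ℝ) := by
    rw [Real.mul_rpow hc.le hg0.le, hg, Real.mul_rpow (by positivity) (by positivity),
      ← Real.rpow_mul hh.le, ← Real.rpow_mul hl0.le]
    norm_num
    ring
  have hli : l ^ (-(1/8) : ℝ) * l ^ (1/8 : ℝ) = 1 := by
    rw [← Real.rpow_add hl0]; norm_num
  have hpos : 0 ≤ c ^ (7/4 : ℝ) * h * l ^ (-(1/8) : ℝ) := by positivity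
  have two8 : (2:ℝ) ^ (1/8 : ℝ) ≤ 2 := by
    calc (2:ℝ) ^ (1/8 : ℝ) ≤ (2:ℝ) ^ (1 : ℝ) :=
          Real.rpow_le_rpow_of_exponent_le (by norm_num) (by norm_num)
      _ = 2 := Real.rpow_one 2
  refine ⟨hr, ?_, ?_⟩
  · have h3 : l ^ (-(1/14) : ℝ) ≤ 1 := Real.rpow_le_one_of_one_le_of_nonpos hl1 (by norm_num)
    have h4 : h ^ (4/7 : ℝ) < r0 / c := by
      have h5 := Real.rpow_lt_rpow hh.le h2 (show (0:ℝ) < 4/7 by norm_num)
      rw [← Real.rpow_mul (by positivity)] at h5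
      norm_num at h5
      norm_num
      exact h5
    rw [lt_div_iff₀ hc] at h4
    have h5 : gc h ≤ h ^ (4/7 : ℝ) := by
      rw [hg]
      have : 0 ≤ h ^ (4/7 : ℝ) := by positivity
      nlinarith
    nlinarith
  · unfold ga
    rw [hpow]
    have h6 : Real.log (Real.log (1 / (c * gc h))) ≤ 2 * l := by
      have h7 := Real.log_le_log (by linarith) hup
      rw [Real.log_pow] at h7
      push_cast at h7
      rw [hl]
      exact h7
    have h3 : Real.log (Real.log (1 / (c * gc h))) ^ (1/8 : ℝ) ≤ (2 * l) ^ (1/8 : ℝ) :=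
      Real.rpow_le_rpow (Real.log_nonneg hlow) h6 (by norm_num)
    have h4 : (2 * l) ^ (1/8 : ℝ) = 2 ^ (1/8 : ℝ) * l ^ (1/8 : ℝ) :=
      Real.mul_rpow (by norm_num) hl0.le
    calc c ^ (7/4 : ℝ) * h * l ^ (-(1/8) : ℝ) *
          Real.log (Real.log (1 / (c * gc h))) ^ (1/8 : ℝ)
        ≤ c ^ (7/4 : ℝ) * h * l ^ (-(1/8) : ℝ) * (2 * l) ^ (1/8 : ℝ) :=
          mul_le_mul_of_nonneg_left h3 hpos
      _ = 2 ^ (1/8 : ℝ) * (c ^ (7/4 : ℝ) * h) * (l ^ (-(1/8) : ℝ) * l ^ (1/8 : ℝ)) := by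
          rw [h4]; ring
      _ ≤ 2 * (c ^ (7/4 : ℝ) * h) := by
          rw [hli, mul_one]
          exact mul_le_mul_of_nonneg_right two8 (by positivity)

/-- lower bound at a time where the occupation times are small -/
theorem chung_low {l : ℝ} (hl : 0 < l) {p : X} (hp : 0 < p.2) {t : unitInterval}
    (h : ∀ᶠ j : ℕ in atTop, p.2 *
      (volume {u : unitInterval | dist (p.1 u) (p.1 t) ≤ ((1:ℝ)/2) ^ j}).toReal < 2 * av l j) :
    ∀ᶠ h : ℝ in 𝓝[>] 0, ∃ y : unitInterval, p.2 * |(y : ℝ) - t| ≤ h ∧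
      (1 / (2 * Cl l)) ^ (4/7 : ℝ) * gc h < dist (p.1 y) (p.1 t) := by
  have hCl := Cl_pos hl
  obtain ⟨c, hc⟩ : ∃ c : ℝ, c = (1 / (2 * Cl l)) ^ (4/7 : ℝ) := ⟨_, rfl⟩
  have hc0 : 0 < c := by rw [hc]; positivity
  have hc1 : c ^ (7/4 : ℝ) = 1 / (2 * Cl l) := by
    rw [hc, ← Real.rpow_mul (by positivity)]; norm_num
  obtain ⟨j0, hj0⟩ := eventually_atTop.1 h
  obtain ⟨h0, hh0, hg⟩ := gc_inv hc0 (r0 := (1/2) ^ (max j0 3)) (by positivity)
  have hmin : 0 < min h0 (p.2 / 2) := lt_min hh0 (by positivity)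
  filter_upwards [Ioo_mem_nhdsGT hmin] with x hx
  obtain ⟨hx0, hx1⟩ := hx
  have hx2 : x < h0 := lt_of_lt_of_le hx1 (min_le_left _ _)
  have hx3 : x < p.2 / 2 := lt_of_lt_of_le hx1 (min_le_right _ _)
  obtain ⟨e1, e2, e3⟩ := hg x hx0 hx2
  rw [← hc]
  by_contra hcon
  push Not at hcon
  have h4 := window_vol hp hx0 (by rw [div_le_iff₀ hp]; linarith) t
    (E := {v : unitInterval | dist (p.1 v) (p.1 t) ≤ c * gc x}) hcon
  have hle1 : c * gc x ≤ 1 := by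
    refine e2.le.trans (pow_le_one₀ (by norm_num) (by norm_num))
  obtain ⟨n, hn1, hn2⟩ := exists_nat_pow_near_of_lt_one e1 hle1
    (show (0:ℝ) < 1/2 by norm_num) (by norm_num)
  have hn3 : max j0 3 ≤ n := by
    have h5 : ((1:ℝ)/2) ^ (n + 1) < (1/2) ^ (max j0 3) := hn1.trans e2
    have h6 := (pow_lt_pow_iff_right_of_lt_one₀ (show (0:ℝ) < 1/2 by norm_num)
      (by norm_num)).1 h5
    omega
  have h5 := hj0 n ((le_max_left _ _).trans hn3)
  have h6 := av_ga hl (n := n) ((le_max_right _ _).trans hn3) hn1 hn2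
  have h7 : (volume {v : unitInterval | dist (p.1 v) (p.1 t) ≤ c * gc x}).toReal ≤
      (volume {u : unitInterval | dist (p.1 u) (p.1 t) ≤ ((1:ℝ)/2) ^ n}).toReal :=
    ENNReal.toReal_mono (measure_ne_top _ _) (measure_mono fun v hv => le_trans hv hn2)
  have h8 := mul_le_mul_of_nonneg_left h7 hp.le
  rw [hc1] at e3
  have h9 := mul_le_mul_of_nonneg_left e3 hCl.le
  have h10 : Cl l * (2 * (1 / (2 * Cl l) * x)) = x := by field_simp
  rw [h10] at h9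
  linarith

/-- upper bound at a time which is slow at infinitely many stages -/
theorem chung_up {κ K3 : ℝ} (hκ : 0 < κ) (hK : 1 ≤ K3) {p : X} {u : unitInterval}
    (h : ∃ᶠ i in atTop, u ∈ Ss κ K3 p i) :
    ∃ᶠ h : ℝ in 𝓝[>] 0, ∀ y : unitInterval, p.2 * |(y : ℝ) - u| ≤ h →
      dist (p.1 y) (p.1 u) ≤ 8 / ((κ / 4) ^ (4/7 : ℝ) * (168 * K3) ^ (-(1/14) : ℝ)) * gc h := by
  obtain ⟨H, hH⟩ : ∃ H : ℕ → ℝ, H = fun i => ts κ K3 i / 4 := ⟨_, rfl⟩
  have hHv : ∀ i, H i = ts κ K3 i / 4 := by intro i; rw [hH]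
  have hge : ∀ᶠ i : ℕ in atTop, 1 ≤ kq K3 i ∧ 2 ≤ i :=
    ((kq_tend hK).eventually (eventually_ge_atTop 1)).and (eventually_ge_atTop 2)
  have hpos : ∀ i, 1 ≤ kq K3 i → 0 < H i := by
    intro i hi
    rw [hHv]
    have h1 := ts_ge (K3 := K3) hκ hi
    have h2 : (0:ℝ) < κ * (1/2) ^ (7 * i ^ 2) := by positivity
    linarith
  have hupb : ∀ i, 1 ≤ kq K3 i → 2 ≤ i → H i ≤ κ * (1/2) ^ i := by
    intro i hi hi2
    rw [hHv]
    unfold ts
    rw [ww_pow]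
    have k1 : (1:ℝ) ≤ ((kq K3 i : ℕ) : ℝ) := by exact_mod_cast hi
    have hi1 : (1:ℝ) ≤ i := by
      have : 1 ≤ i := by omega
      exact_mod_cast this
    have k2 : ((kq K3 i : ℕ) : ℝ) ≤ i := by
      have h1 := kq_sq hK (i := i) (by omega)
      have h2 : Real.log i ≤ i := (Real.log_le_sub_one_of_pos (by linarith)).trans (by linarith)
      nlinarith
    have k3 : ((kq K3 i : ℕ) : ℝ) ^ (1/4 : ℝ) ≤ i := by
      calc ((kq K3 i : ℕ) : ℝ) ^ (1/4 : ℝ) ≤ ((kq K3 i : ℕ) : ℝ) ^ (1 : ℝ) :=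
            Real.rpow_le_rpow_of_exponent_le k1 (by norm_num)
        _ = ((kq K3 i : ℕ) : ℝ) := Real.rpow_one _
        _ ≤ i := k2
    have k4 : ((1:ℝ)/2) ^ (7 * i ^ 2) ≤ (1/2) ^ (2 * i) :=
      pow_le_pow_of_le_one (by norm_num) (by norm_num) (by nlinarith)
    have k5 := i_half i
    have k6 : ((1:ℝ)/2) ^ (2 * i) = (1/2) ^ i * (1/2) ^ i := by rw [two_mul, pow_add]
    have k7 : (0:ℝ) < (1/2) ^ i := by positivity
    calc κ * (((kq K3 i : ℕ) : ℝ) ^ (1/4 : ℝ) * (1/2) ^ (7 * i ^ 2)) / 4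
        ≤ κ * ((i : ℝ) * ((1/2) ^ i * (1/2) ^ i)) / 4 := by
          rw [← k6]; gcongr
      _ = κ * (((i : ℝ) * (1/2) ^ i) * (1/2) ^ i) / 4 := by ring
      _ ≤ κ * (1 * (1/2) ^ i) / 4 := by gcongr
      _ ≤ κ * (1/2) ^ i := by
          have : 0 < κ * (1/2) ^ i := by positivity
          linarith
  have hlim0 : Tendsto H atTop (𝓝 0) := by
    have h1 : Tendsto (fun i : ℕ => κ * ((1:ℝ)/2) ^ i) atTop (𝓝 0) := by
      have := half_tend.const_mul κ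
      rwa [mul_zero] at this
    refine squeeze_zero' ?_ ?_ h1
    · filter_upwards [hge] with i hi
      exact (hpos i hi.1).le
    · filter_upwards [hge] with i hi
      exact hupb i hi.1 hi.2
  have hlim : Tendsto H atTop (𝓝[>] 0) := by
    rw [tendsto_nhdsWithin_iff]
    refine ⟨hlim0, ?_⟩
    filter_upwards [hge] with i hi
    exact hpos i hi.1
  have hsm : ∀ᶠ i in atTop, H i < Real.exp (-3) :=
    hlim0.eventually (gt_mem_nhds (Real.exp_pos _))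
  obtain ⟨n0, hn0⟩ := exists_nat_gt (|Real.log (κ / 4)| + 7)
  refine hlim.frequently ?_
  refine (h.and_eventually (hge.and (hsm.and (eventually_ge_atTop n0)))).mono ?_
  rintro i ⟨h1, ⟨hk, hi2⟩, hs, hi3⟩ y hy
  have hHp := hpos i hk
  have h2 : dist (p.1 y) (p.1 u) ≤ 2 * (4 * ww i) := h1 y (by rw [← hHv]; exact hy)
  refine h2.trans ?_
  have hiR : (2:ℝ) ≤ i := by exact_mod_cast hi2
  have hi0 : (0:ℝ) < i := by linarith
  have hw := ww_pos i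
  -- logarithms
  obtain ⟨L, hL⟩ : ∃ L : ℝ, L = Real.log (1 / H i) := ⟨_, rfl⟩
  have hL3 : 3 ≤ L := by
    rw [hL, one_div, Real.log_inv]
    have h3 := Real.log_lt_log hHp hs
    rw [Real.log_exp] at h3
    linarith
  have hLup : L ≤ (i : ℝ) ^ 3 := by
    have h3 : κ / 4 * (1/2) ^ (7 * i ^ 2) ≤ H i := by
      rw [hHv]
      have := ts_ge (K3 := K3) hκ hk
      linarith
    have h4 := Real.log_le_log (by positivity) h3
    rw [Real.log_mul (by positivity) (by positivity), Real.log_pow] at h4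
    have h5 : Real.log ((1:ℝ)/2) = -Real.log 2 := by rw [one_div, Real.log_inv]
    rw [h5] at h4
    have h6 := neg_abs_le (Real.log (κ / 4))
    have h7 := Real.log_two_lt_d9
    have h7' := Real.log_two_gt_d9
    have h8 : |Real.log (κ / 4)| + 7 ≤ i :=
      hn0.le.trans (by exact_mod_cast hi3)
    rw [hL, one_div, Real.log_inv]
    push_cast at h4
    have h9 : (i:ℝ) ^ 2 * (|Real.log (κ / 4)| + 7) ≤ (i:ℝ) ^ 2 * i :=
      mul_le_mul_of_nonneg_left h8 (by positivity)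
    have h11 : (1:ℝ) ≤ (i:ℝ) ^ 2 := by nlinarith
    have h10 : |Real.log (κ / 4)| ≤ (i:ℝ) ^ 2 * |Real.log (κ / 4)| :=
      le_mul_of_one_le_left (abs_nonneg _) h11
    have h12 : (i:ℝ) ^ 2 * Real.log 2 ≤ (i:ℝ) ^ 2 * 1 :=
      mul_le_mul_of_nonneg_left (by linarith) (by positivity)
    have h13 : (i:ℝ) ^ 3 = (i:ℝ) ^ 2 * i := by ring
    have h14 : (i:ℝ) ^ 2 * (|Real.log (κ / 4)| + 7) =
        (i:ℝ) ^ 2 * |Real.log (κ / 4)| + 7 * (i:ℝ) ^ 2 := by ring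
    rw [h13]
    linarith
  obtain ⟨l, hl⟩ : ∃ l : ℝ, l = Real.log L := ⟨_, rfl⟩
  have hl1 : 1 ≤ l := by
    rw [hl, Real.le_log_iff_exp_le (by linarith)]
    have := Real.exp_one_lt_d9
    linarith
  have hk0 : (0:ℝ) < ((kq K3 i : ℕ) : ℝ) := by exact_mod_cast (by omega : 0 < kq K3 i)
  have hlup : l ≤ 168 * K3 * ((kq K3 i : ℕ) : ℝ) ^ 2 := by
    have h3 := Real.log_le_log (by linarith) hLup
    rw [Real.log_pow] at h3
    push_cast at h3
    have h4 := log_le_kq hK hk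
    rw [hl]
    linarith
  have h5 : (168 * K3 * ((kq K3 i : ℕ) : ℝ) ^ 2) ^ (-(1/14) : ℝ) ≤ l ^ (-(1/14) : ℝ) :=
    Real.rpow_le_rpow_of_nonpos (by linarith) hlup (by norm_num)
  have h6 : (168 * K3 * ((kq K3 i : ℕ) : ℝ) ^ 2) ^ (-(1/14) : ℝ) =
      (168 * K3) ^ (-(1/14) : ℝ) * ((kq K3 i : ℕ) : ℝ) ^ (-(1/7) : ℝ) := by
    rw [Real.mul_rpow (by positivity) (by positivity), ← Real.rpow_natCast, ← Real.rpow_mul hk0.le]
    norm_num
  have h7 : H i ^ (4/7 : ℝ) = (κ / 4) ^ (4/7 : ℝ) * (((kq K3 i : ℕ) : ℝ) ^ (1/7 : ℝ) * ww i) := by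
    have e : H i = κ / 4 * (((kq K3 i : ℕ) : ℝ) ^ (1/4 : ℝ) * ww i ^ (7/4 : ℝ)) := by
      rw [hHv]; unfold ts; ring
    rw [e, Real.mul_rpow (by positivity) (by positivity),
      Real.mul_rpow (by positivity) (by positivity), ← Real.rpow_mul hk0.le,
      ← Real.rpow_mul hw.le]
    norm_num
  have h8 : ((kq K3 i : ℕ) : ℝ) ^ (1/7 : ℝ) * ((kq K3 i : ℕ) : ℝ) ^ (-(1/7) : ℝ) = 1 := by
    rw [← Real.rpow_add hk0]; norm_num
  obtain ⟨D, hD⟩ : ∃ D : ℝ, D = (κ / 4) ^ (4/7 : ℝ) * (168 * K3) ^ (-(1/14) : ℝ) := ⟨_, rfl⟩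
  have hD0 : 0 < D := by rw [hD]; positivity
  have h9 : D * ww i ≤ gc (H i) := by
    unfold gc
    rw [← hL, ← hl, h7]
    calc D * ww i = (κ / 4) ^ (4/7 : ℝ) * (((kq K3 i : ℕ) : ℝ) ^ (1/7 : ℝ) * ww i) *
          ((168 * K3) ^ (-(1/14) : ℝ) * ((kq K3 i : ℕ) : ℝ) ^ (-(1/7) : ℝ)) := by
          rw [hD]
          calc _ = (κ / 4) ^ (4/7 : ℝ) * (168 * K3) ^ (-(1/14) : ℝ) * ww i *
                (((kq K3 i : ℕ) : ℝ) ^ (1/7 : ℝ) * ((kq K3 i : ℕ) : ℝ) ^ (-(1/7) : ℝ)) := by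
                rw [h8, mul_one]
            _ = _ := by ring
      _ ≤ _ := by
          rw [← h6]
          exact mul_le_mul_of_nonneg_left h5 (by positivity)
  rw [← hD]
  calc 2 * (4 * ww i) = 8 / D * (D * ww i) := by field_simp; norm_num
    _ ≤ 8 / D * gc (H i) := mul_le_mul_of_nonneg_left h9 (by positivity)

/-- Chung's law of the iterated logarithm at almost every time. -/
theorem chung : ∃ c C : ℝ, 0 < c ∧ 0 < C ∧ ∀ R : Rect,
    (∀ δ : ℕ → ℝ, (∀ i, 0 < δ i) → Tendsto δ atTop (𝓝 0) →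
      ∃ φ : ℕ → ℕ, StrictMono φ ∧ ∃ μ : ProbabilityMeasure X,
        Tendsto (fun i => R.law (δ (φ i))) atTop (𝓝 μ)) ∧
    ∀ δ : ℕ → ℝ, (∀ i, 0 < δ i) → Tendsto δ atTop (𝓝 0) → ∀ μ : ProbabilityMeasure X,
      Tendsto (fun i => R.law (δ i)) atTop (𝓝 μ) →
      ∀ᵐ p ∂(μ : Measure X), 0 < p.2 ∧ ∀ᵐ u : unitInterval,
        (∀ᶠ h : ℝ in 𝓝[>] 0, ∃ y : unitInterval, p.2 * |(y : ℝ) - u| ≤ h ∧
          c * gc h < dist (p.1 y) (p.1 u)) ∧
        ∃ᶠ h : ℝ in 𝓝[>] 0, ∀ y : unitInterval, p.2 * |(y : ℝ) - u| ≤ h →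
          dist (p.1 y) (p.1 u) ≤ C * gc h := by
  obtain ⟨⟨c, hc, hL⟩, ⟨C, hC, hU⟩, C2, hC2, hA⟩ := Pool.Agent.Y985.ME.inputs
  obtain ⟨κ, K3, hκ, hK3, htyp⟩ := typ_slow hc hC hL hU hC2 hA
  obtain ⟨l, hl, hlow⟩ := occ_lat hC hU
  obtain ⟨cg, Cg, hcg, hCg, hgs⟩ := gauge_sets
  have hCl := Cl_pos hl
  refine ⟨(1 / (2 * Cl l)) ^ (4/7 : ℝ), 8 / ((κ / 4) ^ (4/7 : ℝ) * (168 * K3) ^ (-(1/14) : ℝ)),
    by positivity, by positivity, fun R => ?_⟩
  obtain ⟨-, h2, h3⟩ := final_of hc hC hL hU hC2 hA R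
  obtain ⟨A, w0, hA1, hw0, hlat⟩ := hlow R
  refine ⟨h2, fun δ hδ hlim μ hμ => ?_⟩
  filter_upwards [h3 δ hδ hlim μ hμ, htyp R δ hδ hlim μ hμ, go_ae hl hA1 hw0 hlat hδ hlim hμ,
    (hgs R).2 δ hδ hlim μ hμ] with p g1 g2 g3 g4
  have hp := g1.1
  have hcl := g1.2.2.2.1
  refine ⟨hp, ?_⟩
  have hbd : ∀ᵐ u : unitInterval, 0 < dep R (p.1 u) := by
    rw [ae_iff]
    obtain ⟨E, hE⟩ : ∃ E : Set unitInterval, E = {u | ¬ 0 < dep R (p.1 u)} := ⟨_, rfl⟩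
    rw [← hE]
    have h5 := (g4.2 E).1
    have h6 : Measure.mkMetric Pool.Agent.Y995.HG.gm (p.1 '' E) ≤ 0 := by
      refine (measure_mono ?_).trans (le_of_eq (mk_bdry R))
      rintro _ ⟨u, hu, rfl⟩
      rw [hE] at hu
      exact ⟨hcl u, not_lt.1 hu⟩
    have h7 : ENNReal.ofReal (cg * p.2) * volume E = 0 := le_antisymm (h5.trans h6) bot_le
    rcases mul_eq_zero.1 h7 with h8 | h8
    · rw [ENNReal.ofReal_eq_zero] at h8
      have : 0 < cg * p.2 := by positivity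
      linarith
    · exact h8
  filter_upwards [g2, hbd, times_ae hl hp g3] with u k1 k2 k3
  exact ⟨chung_low hl hp k3, chung_up hκ hK3 (k1 k2)⟩

end Pool.Agent.V11321.ND
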