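import Pool.Agent.V11321.ND.Trial

/-!
A long stay of the interface in a box: deterministic part.
-/

set_option autoImplicit false

namespace Pool.Agent.V11321.ND

open H974 Finset H342P H984P H984N TH992.T Pool.Agent.Y995.FS

/-- a strand contains a strand to each column in between -/
theorem strand_mid {F : Set Edg} {A y0 X' Y' X1 : ℤ} {T' : ℕ} (h : Strand F A y0 X' Y' T')
    (h1 : A < X1) (h2 : X1 ≤ X') : ∃ (Y1 : ℤ) (T1 : ℕ), T1 ≤ T' ∧ Strand F A y0 X1 Y1 T1 := by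
  classical
  have hex : ∃ t, X1 ≤ (orb F (st0 A y0) t).1.1 := ⟨T', by rw [h.tip]; exact h2⟩
  obtain ⟨t, ht⟩ : ∃ t, t = Nat.find hex := ⟨_, rfl⟩
  have htm : X1 ≤ (orb F (st0 A y0) t).1.1 := by rw [ht]; exact Nat.find_spec hex
  have hlt : ∀ s < t, (orb F (st0 A y0) s).1.1 < X1 := by
    intro s hs
    rw [ht] at hs
    exact not_le.1 (Nat.find_min hex hs)
  have hle : t ≤ T' := by
    rw [ht]
    exact Nat.find_min' hex (by rw [h.tip]; exact h2)
  have ht0 : t ≠ 0 := by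
    intro h0
    rw [h0] at htm
    simp only [orb_zero, st0] at htm
    omega
  have htx : (orb F (st0 A y0) t).1.1 = X1 := by
    obtain ⟨t', ht'⟩ : ∃ t', t = t' + 1 := ⟨t - 1, by omega⟩
    have h3 := hlt t' (by omega)
    have h4 := (nxt_fst F (orb F (st0 A y0) t')).1
    rw [← orb_succ, ← ht'] at h4
    rw [abs_le] at h4
    omega
  have hstay : ∀ s < t, A ≤ (orb F (st0 A y0) s).1.1 ∧ (orb F (st0 A y0) s).1.1 < X1 :=
    fun s hs' => ⟨(h.stay s (by omega)).1, hlt s hs'⟩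
  obtain ⟨Y, hY⟩ := tip_of_first h1 hstay htx
  exact ⟨Y, t, hle, h1, h.ent, hstay, hY⟩

/-- the last part of a strand is a strand -/
theorem strand_last {F : Set Edg} {A y0 X' Y' A2 : ℤ} {T' : ℕ} (h : Strand F A y0 X' Y' T')
    (h1 : A < A2) (h2 : A2 < X') : ∃ (ya : ℤ) (s0 : ℕ), s0 ≤ T' ∧
      orb F (st0 A y0) s0 = st0 A2 ya ∧ Strand F A2 ya X' Y' (T' - s0) := by
  classical
  obtain ⟨p, hp⟩ : ∃ p, p = Nat.findGreatest (fun s => (orb F (st0 A y0) s).1.1 < A2) T' :=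
    ⟨_, rfl⟩
  have h0 : (orb F (st0 A y0) 0).1.1 < A2 := by simpa only [orb_zero, st0] using h1
  have hpm : (orb F (st0 A y0) p).1.1 < A2 := by
    rw [hp]
    exact Nat.findGreatest_spec (P := fun s => (orb F (st0 A y0) s).1.1 < A2) (Nat.zero_le _) h0
  have hpT : p ≤ T' := by rw [hp]; exact Nat.findGreatest_le _
  have hpT2 : p < T' := by
    rcases hpT.lt_or_eq with h3 | h3
    · exact h3
    · rw [h3, h.tip] at hpm
      simp only at hpm
      omega
  have hgr : ∀ s, p < s → s ≤ T' → A2 ≤ (orb F (st0 A y0) s).1.1 := by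
    intro s hs hs2
    rw [hp] at hs
    exact not_lt.1 (Nat.findGreatest_is_greatest hs hs2)
  have h3 := hgr (p + 1) (by omega) (by omega)
  have key : ∃ y, orb F (st0 A y0) p = ((A2 - 1, y), .ne) ∧ ((A2 - 1, y, true) : Edg) ∈ F := by
    rw [orb_succ] at h3
    generalize orb F (st0 A y0) p = σ at h3 hpm
    obtain ⟨⟨x, y⟩, k⟩ := σ
    by_cases hop : ae ((x, y), k) ∈ F
    · rw [nxt_open hop] at h3
      cases k
      · simp only [mv_ne] at h3 hpm
        obtain rfl : x = A2 - 1 := by omega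
        exact ⟨y, rfl, by simpa using hop⟩
      · simp only [mv_nw] at h3 hpm; omega
      · simp only [mv_sw] at h3 hpm; omega
      · simp only [mv_se] at h3 hpm; omega
    · rw [nxt_closed hop] at h3
      cases k <;> simp at h3 hpm <;> omega
  obtain ⟨y, hy1, hy2⟩ := key
  have e1 : orb F (st0 A y0) (p + 1) = st0 A2 y := by
    rw [orb_succ, hy1, nxt_open (by simpa using hy2), mv_ne]
    unfold st0
    simp
  have e2 : ∀ s, orb F (st0 A2 y) s = orb F (st0 A y0) (s + (p + 1)) := by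
    intro s
    rw [orb_add, e1]
  refine ⟨y, p + 1, by omega, e1, h2, hy2, ?_, ?_⟩
  · intro s hs
    rw [e2]
    exact ⟨hgr _ (by omega) (by omega), (h.stay _ (by omega)).2⟩
  · rw [e2, Nat.sub_add_cancel (by omega), h.tip]

/-- an open path stays below a closed dual crossing -/
theorem conf_upr {F : Set Edg} {P Q c d yc yb : ℤ} {u w : Vtx} (hPQ : P + 1 ≤ Q)
    (hcd : c ≤ d) (hyc : c ≤ yc ∧ yc ≤ d)
    (hU : DReach (dE (LRE P Q c d) \ F) (P, yc) (Q, yb))
    (hr : Reach (F ∩ {e | (P + 1 ≤ (src e).1 ∧ (src e).1 ≤ Q) ∧ P + 1 ≤ (tgt e).1 ∧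
      (tgt e).1 ≤ Q}) u w)
    (h0 : u.2 ≤ c) : w.2 ≤ d := by
  by_contra hcon
  obtain ⟨x1, x2, hx1, hx2, h3, -⟩ := sub_TB (a := P + 1) (b := Q) (c := c) (d := d + 1)
    (by omega) (by
      rintro x y ⟨-, h⟩ _ _
      simp only [Set.mem_ofPred_eq, src_mk, tgt_false] at h
      omega) (by
      rintro x y ⟨-, h⟩ _ _
      simp only [Set.mem_ofPred_eq, src_mk, tgt_true] at h
      omega) hr h0 (by omega)
  refine no_both_TB (F := F) (a := P + 1) (b := Q) (c := c) (d := d + 1) (y := yc) (y' := yb)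
    hPQ hx2 (by omega) (h3.mono ?_) ?_
  · rintro e ⟨h, h'⟩
    exact ⟨h.1, h'⟩
  · have e1 : P + 1 - 1 = P := by ring
    rw [e1]
    refine hU.mono ?_
    rintro ⟨x, y, _ | _⟩ ⟨h, h'⟩
    · refine ⟨h', ?_⟩
      simp only [dE, Set.mem_ofPred_eq, dl_f, mem_LRE_true] at h
      simp only [mem_coe, mem_TBE_false]
      omega
    · refine ⟨h', ?_⟩
      simp only [dE, Set.mem_ofPred_eq, dl_t, mem_LRE_false] at h
      simp only [mem_coe, mem_TBE_true]
      omega

/-- a closed dual path stays above an open crossing -/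
theorem conf_lowr {F : Set Edg} {P Q c d yc yb : ℤ} {u w : Vtx}
    (hcd : c ≤ d) (hyb : c ≤ yb ∧ yb ≤ d)
    (hL : Reach (F ∩ ↑(LRE P Q c d)) (P, yc) (Q, yb))
    (hr : DReach ({e | (P ≤ (dsrc e).1 ∧ (dsrc e).1 ≤ Q - 1) ∧ P ≤ (dtgt e).1 ∧
      (dtgt e).1 ≤ Q - 1} \ F) u w)
    (h0 : d ≤ u.2) : c ≤ w.2 := by
  by_contra hcon
  have hr' := reach_dl.2 hr.symm
  obtain ⟨x1, x2, hx1, hx2, h3, -⟩ := sub_TB (a := P) (b := Q - 1) (c := c - 1) (d := d)
    (by omega) (by
      rintro x y ⟨e, ⟨h, -⟩, he⟩ _ _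
      have he' : e = dl.symm (x, y, false) := by rw [← he]; simp
      rw [dls_f] at he'
      subst he'
      simp only [Set.mem_ofPred_eq, dsrc_true, dtgt_mk] at h
      omega) (by
      rintro x y ⟨e, ⟨h, -⟩, he⟩ _ _
      have he' : e = dl.symm (x, y, true) := by rw [← he]; simp
      rw [dls_t] at he'
      subst he'
      simp only [Set.mem_ofPred_eq, dsrc_false, dtgt_mk] at h
      omega) hr' (by omega) h0
  have h4 : DReach (Fᶜ ∩ ↑(LRE P Q c d)) (x1, c - 1) (x2, d) := by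
    rw [← reach_dl]
    refine h3.mono ?_
    rintro e' ⟨⟨e, ⟨-, hF⟩, he⟩, h'⟩
    refine ⟨e, ⟨hF, ?_⟩, he⟩
    rw [← he] at h'
    obtain ⟨x, y, _ | _⟩ := e
    · simp only [mem_coe, dl_f, mem_TBE_true] at h'
      simp only [mem_coe, mem_LRE_false]
      omega
    · simp only [mem_coe, dl_t, mem_TBE_false] at h'
      simp only [mem_coe, mem_LRE_true]
      omega
  exact no_both (F := F) hcd hyb (by omega) hL h4

end Pool.Agent.V11321.ND
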