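import Pool.Agent.V11321.ND.Det
import Pool.Agent.Y995.FS.SlowTr

/-!
A long stay of the interface in a box: the pass through the comb.
-/

set_option autoImplicit false

namespace Pool.Agent.V11321.ND

open H974 Finset H342P H984P H984N TH992.T Pool.Agent.Y995.FS

/-- open part of the comb -/
noncomputable def VA (X Y : ℤ) (m : ℕ) : Finset Edg :=
  RE (X + 20 * m) (X + 24 * m) (Y - 12 * m) (Y + 3 * m) ∪
    RE (X + 20 * m) (X + 38 * m) (Y - 3 * m) (Y + 3 * m)

/-- dual part of the comb, in the lattice of faces -/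
noncomputable def VB (X Y : ℤ) (m : ℕ) : Finset Edg :=
  RE (X + 40 * m) (X + 44 * m) (Y - 3 * m) (Y + 12 * m) ∪
    RE (X + 26 * m) (X + 44 * m) (Y - 3 * m) (Y + 3 * m)

/-- `v` is connected inside the comb to the lower strip by open edges, its north-east face to the
upper strip by closed edges. -/
def CSeen (X Y : ℤ) (m : ℕ) (F : Set Edg) (v : Vtx) : Prop :=
  (∃ w : Vtx, w.2 ≤ Y - 8 * m ∧ Reach (F ∩ ↑(VA X Y m)) w v) ∧
    ∃ g : Vtx, Y + 8 * m ≤ g.2 ∧ DReach (dE (VB X Y m) \ F) v g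

/-- the left side of an upper strip face column -/
theorem hf_col {F : Set Edg} {A y0 X2 Y2 : ℤ} {T2 : ℕ} {hv hf : Vtx → ZMod 2}
    (hst : Strand F A y0 X2 Y2 T2) (hS : Side F A y0 X2 Y2 T2 hv hf) {y : ℤ} :
    hf (X2 - 1, y) = 1 ↔ Y2 ≤ y := by
  have h0 := hst.lt
  by_cases hy : y = Y2
  · subst hy
    refine ⟨fun _ => le_rfl, fun _ => ?_⟩
    have h1 := (hS.strand T2 le_rfl).2
    rw [hst.tip, face_nw] at h1
    exact h1
  · have h1 := (hS.free (X2, y, false) (fun h => by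
      have := (exm_loc hst h).2.1
      simp only at this
      omega) (by simp only; omega) (fun h => hy h.2)).2.1
    simp only [dsrc_false, dtgt_mk] at h1
    rw [h1]
    exact hS.rightf X2 y le_rfl

/-- The pass through the comb. -/
theorem pass_det {F : Set Edg} {A y0 X Y X' Y' : ℤ} {T T' m : ℕ} (hm : 1 ≤ m)
    (hst : Strand F A y0 X Y T) (hst' : Strand F A y0 X' Y' T') (hX' : X + 60 * m < X')
    (hA : A + 60 * m ≤ X) (hL : BaseLr A y0 X Y T m m F) (hU : BaseUr A y0 X Y T m m F) :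
    ∃ (s0 T2 : ℕ), s0 ≤ T2 ∧ T2 ≤ T' ∧
      (∀ v : Vtx, CSeen X Y m F v → (X + 28 * m ≤ v.1 ∧ v.1 ≤ X + 36 * m) →
        (Y - 3 * m ≤ v.2 ∧ v.2 ≤ Y + 3 * m) →
        ∃ t, s0 ≤ t ∧ t < T2 ∧ ae (orb F (st0 A y0) t) = (v.1, v.2, true)) ∧
      ((∃ v : Vtx, CSeen X Y m F v ∧ (X + 28 * m ≤ v.1 ∧ v.1 ≤ X + 36 * m) ∧
        (Y - 3 * m ≤ v.2 ∧ v.2 ≤ Y + 3 * m)) →
        ∀ s, s0 ≤ s → s < T2 → sd (X + 32 * m, Y) (orb F (st0 A y0) s).1 ≤ 18 * m) := by
  have hm1 : (1 : ℤ) ≤ m := by exact_mod_cast hm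
  -- the strand to the column `X + 50 m`
  obtain ⟨Y2, T2, hT2, hst2⟩ := strand_mid hst' (X1 := X + 50 * m) (by omega) (by omega)
  have hTT2 : T ≤ T2 := by
    by_contra h
    have h1 := (hst.stay T2 (by omega)).2
    rw [hst2.tip] at h1
    simp only at h1
    omega
  obtain ⟨hv2, hf2, hS2⟩ := side_exists hst2
  -- the last part, from the column `X + 19 m`
  obtain ⟨ya, s0, hs0, he0, hst3⟩ := strand_last hst2 (A2 := X + 19 * m) (by omega) (by omega)
  obtain ⟨hv3, hf3, hS3⟩ := side_exists hst3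
  obtain ⟨T3, hT3⟩ : ∃ T3, T3 = T2 - s0 := ⟨_, rfl⟩
  rw [← hT3] at hst3 hS3
  have horb : ∀ s, orb F (st0 (X + 19 * m) ya) s = orb F (st0 A y0) (s + s0) := by
    intro s
    rw [orb_add, he0]
  -- the lower strip
  obtain ⟨yb, yc, hyb, hyc, hR1, c, ⟨s, hs, rfl⟩, hR2⟩ := hL
  have hWL : (↑(HRL X Y m m) : Set Edg) ⊆ Adm F A y0 (X + 50 * m) Y2 T2 := by
    intro e he
    obtain ⟨h1, h2⟩ := HRL_mem he
    have h3 := HL_ge h1
    exact ⟨Or.inl (by omega), fun h => by omega⟩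
  have a1 : hv2 (X + 8 * m, yc) = 0 := by
    rw [hv_reach hS2 hWL hR2]
    exact (hS2.strand s (hs.trans hTT2)).1
  -- sub-crossings of the lower strip
  have subL : ∀ P : ℤ, X + 8 * m ≤ P → P < X + 50 * m → ∃ y1 y2 : ℤ,
      (Y - 8 * m ≤ y2 ∧ y2 ≤ Y - 4 * m) ∧
      Reach (F ∩ ↑(LRE P (X + 50 * m) (Y - 8 * m) (Y - 4 * m))) (P, y1) (X + 50 * m, y2) ∧
      y2 ≤ Y2 := by
    intro P hP1 hP2
    obtain ⟨y1, y2, k1, k2, k3, k4⟩ := sub_LR (a := P) (b := X + 50 * m) (c := Y - 8 * m)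
      (d := Y - 4 * m) hP2
      (by rintro x y ⟨-, h⟩ _ _; simp only [LSr, mem_coe, mem_LRE_true] at h; omega)
      (by rintro x y ⟨-, h⟩ _ _; simp only [LSr, mem_coe, mem_LRE_false] at h; omega) hR1
      (by simp only; omega) le_rfl
    refine ⟨y1, y2, k2, k3.mono ?_, ?_⟩
    · rintro e ⟨⟨h1, -⟩, h2⟩; exact ⟨h1, h2⟩
    · have h1 : hv2 (X + 8 * m, yc) = hv2 (X + 50 * m, y2) := by
        have h3 : (↑(LSr X Y m m) : Set Edg) ⊆ Adm F A y0 (X + 50 * m) Y2 T2 :=
          fun e he => hWL (LSr_sub he)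
        rw [hv_reach hS2 h3 k4]
        refine hv_reach hS2 h3 (k3.mono ?_)
        rintro e ⟨⟨h1, h2⟩, -⟩; exact ⟨h1, h2⟩
      rw [a1] at h1
      exact (hS2.rightv _ _ le_rfl).1 h1.symm
  -- the upper strip
  obtain ⟨zb, zc, hzb, hzc, hQ1, c, ⟨s', hs', rfl⟩, hQ2⟩ := hU
  have hWU : dE (HRU X Y m m) ⊆ Adm F A y0 (X + 50 * m) Y2 T2 := by
    intro e he
    obtain ⟨h1, h2⟩ := HRU_mem he
    have h3 := (hkm_pos' (A := A) hm le_rfl (by omega) h1).1
    exact ⟨Or.inl h3, fun h => by omega⟩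
  have a2 : hf2 (X + 8 * m, zc) = 1 := by
    rw [hf_reach hS2 hWU hQ2]
    exact (hS2.strand s' (hs'.trans hTT2)).2
  obtain ⟨H, hH⟩ : ∃ H : Set Edg, H = dl '' Fᶜ := ⟨_, rfl⟩
  have conv : ∀ V : Finset Edg, dl '' (dE V \ F) ⊆ H ∩ ↑V := by
    rintro V _ ⟨e, ⟨he1, he2⟩, rfl⟩
    rw [hH]
    exact ⟨⟨e, he2, rfl⟩, he1⟩
  have back : ∀ (V : Finset Edg) (u w : Vtx), Reach (H ∩ ↑V) u w → DReach (dE V \ F) u w := by
    intro V u w h
    rw [← reach_dl]
    refine h.mono ?_
    rintro _ ⟨he, he2⟩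
    rw [hH] at he
    obtain ⟨e, he, rfl⟩ := he
    exact ⟨e, ⟨he2, he⟩, rfl⟩
  have subU : ∀ P : ℤ, X + 8 * m ≤ P → P < X + 50 * m - 1 → ∃ y1 y2 : ℤ,
      (Y + 4 * m ≤ y1 ∧ y1 ≤ Y + 8 * m) ∧
      Reach (H ∩ ↑(LRE P (X + 50 * m - 1) (Y + 4 * m) (Y + 8 * m))) (P, y1)
        (X + 50 * m - 1, y2) ∧ Y2 ≤ y2 := by
    intro P hP1 hP2
    have hQ1' : Reach (H ∩ ↑(USr X Y m m)) (X + 8 * m, zc) (X + 50 * m - 1, zb) :=
      (reach_dl.mpr hQ1).mono (conv _)
    obtain ⟨y1, y2, k1, k2, k3, k4⟩ := sub_LR (a := P) (b := X + 50 * m - 1) (c := Y + 4 * m)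
      (d := Y + 8 * m) hP2
      (by rintro x y ⟨-, h⟩ _ _; simp only [USr, mem_coe, mem_LRE_true] at h; omega)
      (by rintro x y ⟨-, h⟩ _ _; simp only [USr, mem_coe, mem_LRE_false] at h; omega) hQ1'
      (by simp only; omega) le_rfl
    refine ⟨y1, y2, k1, k3.mono ?_, ?_⟩
    · rintro e ⟨⟨h1, -⟩, h2⟩; exact ⟨h1, h2⟩
    · have h3 : dE (USr X Y m m) ⊆ Adm F A y0 (X + 50 * m) Y2 T2 :=
        fun e he => hWU (USr_sub he)
      have h4 : Reach (H ∩ ↑(USr X Y m m)) (X + 8 * m, zc) (X + 50 * m - 1, y2) :=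
        k4.trans (k3.mono (by rintro e ⟨h1, -⟩; exact h1))
      have h1 := hf_reach hS2 h3 (back _ _ _ h4)
      rw [a2] at h1
      exact (hf_col hst2 hS2).1 h1.symm
  -- the comb
  obtain ⟨l1, l2, hl2, hl3, hl4⟩ := subL (X + 19 * m) (by omega) (by omega)
  obtain ⟨u1, u2, hu1, hu3, hu4⟩ := subU (X + 19 * m) (by omega) (by omega)
  have b1 : hv3 (X + 19 * m, l1) = 0 := by
    have h3 : (↑(LRE (X + 19 * m) (X + 50 * m) (Y - 8 * m) (Y - 4 * m)) : Set Edg) ⊆
        Adm F (X + 19 * m) ya (X + 50 * m) Y2 T3 := by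
      rintro ⟨x, y, _ | _⟩ he
      · simp only [mem_coe, mem_LRE_false] at he
        exact ⟨Or.inl (by simp only; omega), fun h => by simp only at h; omega⟩
      · simp only [mem_coe, mem_LRE_true] at he
        exact ⟨Or.inl (by simp only; omega), fun h => by simp only at h; omega⟩
    rw [hv_reach hS3 h3 hl3]
    exact (hS3.rightv _ _ le_rfl).2 hl4
  have b2 : hf3 (X + 19 * m, u1) = 1 := by
    have h3 : dE (LRE (X + 19 * m) (X + 50 * m - 1) (Y + 4 * m) (Y + 8 * m)) ⊆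
        Adm F (X + 19 * m) ya (X + 50 * m) Y2 T3 := by
      rintro ⟨x, y, _ | _⟩ he
      · simp only [dE, Set.mem_ofPred_eq, dl_f, mem_LRE_true] at he
        exact ⟨Or.inl (by simp only; omega), fun h => by simp only at h; omega⟩
      · simp only [dE, Set.mem_ofPred_eq, dl_t, mem_LRE_false] at he
        exact ⟨Or.inl (by simp only; omega), fun h => by simp only at h; omega⟩
    rw [hf_reach hS3 h3 (back _ _ _ hu3)]
    exact (hf_col hst3 hS3).2 hu4
  have key : ∀ v : Vtx, CSeen X Y m F v → (X + 28 * m ≤ v.1 ∧ v.1 ≤ X + 36 * m) →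
      (Y - 3 * m ≤ v.2 ∧ v.2 ≤ Y + 3 * m) →
      ∃ t < T3, ae (orb F (st0 (X + 19 * m) ya) t) = (v.1, v.2, true) := by
    rintro v ⟨⟨w, hw, hRw⟩, g, hg, hDg⟩ hv1 hv2'
    have c1 : hv3 v = 0 := by
      obtain ⟨S, hS⟩ : ∃ S : Finset Edg, S = (VA X Y m ∪
        LRE (X + 19 * m) (X + 50 * m) (Y - 8 * m) (Y - 4 * m)) ∪
        RE (X + 20 * m) (X + 24 * m) (Y - 8 * m) (Y - 4 * m) := ⟨_, rfl⟩
      have h3 : (↑S : Set Edg) ⊆ Adm F (X + 19 * m) ya (X + 50 * m) Y2 T3 := by
        rintro ⟨x, y, _ | _⟩ he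
        · simp only [hS, VA, mem_coe, mem_union, mem_LRE_false, mem_RE_false] at he
          exact ⟨Or.inl (by simp only; omega), fun h => by simp only at h; omega⟩
        · simp only [hS, VA, mem_coe, mem_union, mem_LRE_true, mem_RE_true] at he
          exact ⟨Or.inl (by simp only; omega), fun h => by simp only at h; omega⟩
      have e1 : Reach (F ∩ ↑S) w (X + 19 * m, l1) := by
        refine meet_gen (p := X + 20 * m) (q := X + 24 * m) (c := Y - 8 * m) (d := Y - 4 * m)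
          (by omega) (by omega) (V := VA X Y m)
          (Hh := LRE (X + 19 * m) (X + 50 * m) (Y - 8 * m) (Y - 4 * m)) ?_ ?_ ?_ ?_ ?_ ?_ ?_
          hRw hw (by omega) hl3 (by simp only; omega) (by simp only; omega)
        · rw [hS]; intro e he; simp only [mem_union]; exact Or.inl (Or.inl he)
        · rw [hS]; intro e he; simp only [mem_union]; exact Or.inl (Or.inr he)
        · rw [hS]; intro e he; simp only [mem_union]; exact Or.inr he
        · intro x y h _ _; simp only [VA, mem_union, mem_RE_false] at h; omega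
        · intro x y h _ _; simp only [VA, mem_union, mem_RE_true] at h; omega
        · intro x y h; simp only [mem_LRE_true] at h; omega
        · intro x y h; simp only [mem_LRE_false] at h; omega
      have e2 : Reach (F ∩ ↑S) w v := hRw.mono (by
        rintro e ⟨h0, h⟩
        refine ⟨h0, ?_⟩
        rw [hS, mem_coe, mem_union, mem_union]
        exact Or.inl (Or.inl h))
      rw [← hv_reach hS3 h3 e2, hv_reach hS3 h3 e1, b1]
    have c2 : hf3 v = 1 := by
      obtain ⟨S, hS⟩ : ∃ S : Finset Edg, S = (VB X Y m ∪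
        LRE (X + 19 * m) (X + 50 * m - 1) (Y + 4 * m) (Y + 8 * m)) ∪
        RE (X + 40 * m) (X + 44 * m) (Y + 4 * m) (Y + 8 * m) := ⟨_, rfl⟩
      have h3 : dE S ⊆ Adm F (X + 19 * m) ya (X + 50 * m) Y2 T3 := by
        rintro ⟨x, y, _ | _⟩ he
        · simp only [hS, VB, dE, Set.mem_ofPred_eq, dl_f, mem_union, mem_LRE_true,
            mem_RE_true] at he
          exact ⟨Or.inl (by simp only; omega), fun h => by simp only at h; omega⟩
        · simp only [hS, VB, dE, Set.mem_ofPred_eq, dl_t, mem_union, mem_LRE_false,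
            mem_RE_false] at he
          exact ⟨Or.inl (by simp only; omega), fun h => by simp only at h; omega⟩
      have hRg : Reach (H ∩ ↑(VB X Y m)) v g := (reach_dl.mpr hDg).mono (conv _)
      have e1 : Reach (H ∩ ↑S) v (X + 19 * m, u1) := by
        refine meet_gen (p := X + 40 * m) (q := X + 44 * m) (c := Y + 4 * m) (d := Y + 8 * m)
          (by omega) (by omega) (V := VB X Y m)
          (Hh := LRE (X + 19 * m) (X + 50 * m - 1) (Y + 4 * m) (Y + 8 * m)) ?_ ?_ ?_ ?_ ?_ ?_ ?_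
          hRg (by omega) hg hu3 (by simp only; omega) (by simp only; omega)
        · rw [hS]; intro e he; simp only [mem_union]; exact Or.inl (Or.inl he)
        · rw [hS]; intro e he; simp only [mem_union]; exact Or.inl (Or.inr he)
        · rw [hS]; intro e he; simp only [mem_union]; exact Or.inr he
        · intro x y h _ _; simp only [VB, mem_union, mem_RE_false] at h; omega
        · intro x y h _ _; simp only [VB, mem_union, mem_RE_true] at h; omega
        · intro x y h; simp only [mem_LRE_true] at h; omega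
        · intro x y h; simp only [mem_LRE_false] at h; omega
      rw [hf_reach hS3 h3 (back _ _ _ e1), b2]
    have hex : ((v.1, v.2, true) : Edg) ∈ Exm F (st0 (X + 19 * m) ya) T3 := by
      by_contra hne
      have h3 := (hS3.free (v.1, v.2, true) hne (by simp only; omega) (fun h4 => by
        have := h4.1
        simp only at this
        omega)).2.2
      simp only [src_mk, dtgt_mk] at h3
      have e3 : ((v.1, v.2) : Vtx) = v := rfl
      rw [e3, c1, c2] at h3
      exact absurd h3 (by decide)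
    rw [mem_Exm] at hex
    exact hex
  refine ⟨s0, T2, hs0, hT2, ?_, ?_⟩
  · intro v h1 h2 h3
    obtain ⟨t, ht, hae⟩ := key v h1 h2 h3
    rw [horb] at hae
    exact ⟨t + s0, by omega, by omega, hae⟩
  · rintro ⟨v, h1, h2, h3⟩ s hs1 hs2
    obtain ⟨t, ht, hae⟩ := key v h1 h2 h3
    -- position of the state at `v`
    have hpos := ae_at hae
    have hcol : ∀ s < T3, X + 19 * m ≤ (orb F (st0 (X + 19 * m) ya) s).1.1 ∧
        (orb F (st0 (X + 19 * m) ya) s).1.1 < X + 50 * m := hst3.stay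
    have hrow : (orb F (st0 (X + 19 * m) ya) t).1.2 ≤ Y + 4 * m ∧
        Y - 4 * m ≤ (face (orb F (st0 (X + 19 * m) ya) t)).2 := by
      rcases hpos with ⟨h5, h6⟩ | ⟨h5, h6⟩
      · rw [h5, h6]; omega
      · rw [h5, h6]; simp only; omega
    obtain ⟨i, hi⟩ : ∃ i, s = i + s0 := ⟨s - s0, by omega⟩
    have hi3 : i < T3 := by omega
    rw [hi, ← horb]
    -- the reach between the two times
    have r1 : ∀ i j : ℕ, i ≤ j → j < T3 →
        Reach (F ∩ {e | (X + 19 * m - 1 + 1 ≤ (src e).1 ∧ (src e).1 ≤ X + 50 * m - 1) ∧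
          X + 19 * m - 1 + 1 ≤ (tgt e).1 ∧ (tgt e).1 ≤ X + 50 * m - 1})
          (orb F (st0 (X + 19 * m) ya) i).1 (orb F (st0 (X + 19 * m) ya) j).1 := by
      intro i j hij hj
      have h5 := orb_reachB (F := F) (σ := orb F (st0 (X + 19 * m) ya) i) (t := j - i)
        (B := fun v => X + 19 * m - 1 + 1 ≤ v.1 ∧ v.1 ≤ X + 50 * m - 1) (fun s hs => by
          rw [← orb_add]
          have := hcol (s + i) (by omega)
          omega)
      rw [← orb_add, Nat.sub_add_cancel hij] at h5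
      exact h5
    have r2 : ∀ i j : ℕ, i ≤ j → j < T3 →
        DReach ({e | (X + 19 * m - 1 ≤ (dsrc e).1 ∧ (dsrc e).1 ≤ X + 50 * m - 1) ∧
          X + 19 * m - 1 ≤ (dtgt e).1 ∧ (dtgt e).1 ≤ X + 50 * m - 1} \ F)
          (face (orb F (st0 (X + 19 * m) ya) i)) (face (orb F (st0 (X + 19 * m) ya) j)) := by
      intro i j hij hj
      have h5 := orb_dreachB (F := F) (σ := orb F (st0 (X + 19 * m) ya) i) (t := j - i)
        (B := fun v => X + 19 * m - 1 ≤ v.1 ∧ v.1 ≤ X + 50 * m - 1) (fun s hs => by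
          rw [← orb_add]
          have := hcol (s + i) (by omega)
          have := face_col (orb F (st0 (X + 19 * m) ya) (s + i))
          omega)
      rw [← orb_add, Nat.sub_add_cancel hij] at h5
      exact h5
    obtain ⟨p1, p2, hp2, hp3, -⟩ := subL (X + 19 * m - 1) (by omega) (by omega)
    obtain ⟨q1, q2, hq1, hq3, -⟩ := subU (X + 19 * m - 1) (by omega) (by omega)
    have up : (orb F (st0 (X + 19 * m) ya) i).1.2 ≤ Y + 8 * m := by
      refine conf_upr (P := X + 19 * m - 1) (Q := X + 50 * m - 1) (c := Y + 4 * m) (by omega)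
        (by omega) hq1 (back _ _ _ hq3) ?_ hrow.1
      rcases le_total t i with h5 | h5
      · exact r1 t i h5 hi3
      · exact (r1 i t h5 ht).symm
    have low : Y - 8 * m ≤ (face (orb F (st0 (X + 19 * m) ya) i)).2 := by
      refine conf_lowr (P := X + 19 * m - 1) (Q := X + 50 * m) (d := Y - 4 * m) (by omega)
        hp2 hp3 ?_ hrow.2
      rcases le_total t i with h5 | h5
      · exact r2 t i h5 hi3
      · exact (r2 i t h5 ht).symm
    have h6 := hcol i hi3
    have h7 := face_col (orb F (st0 (X + 19 * m) ya) i)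
    rw [det_sd_eq]
    simp only
    omega

end Pool.Agent.V11321.ND
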