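import Pool.Agent.V11321.ND.Det2

/-!
Long stays: definition and the trial event.
-/

set_option autoImplicit false

namespace Pool.Agent.V11321.ND

open H974 Finset H342P H984P H984N TH992.T Pool.Agent.Y995.FS

/-- A long stay: at least `M` consecutive steps in a square of radius `r`. -/
def gC (r : ℤ) (M : ℝ) (x : ℕ → Vtx) (t : ℕ) : Prop :=
  ∃ (z : Vtx) (t1 t2 : ℕ), t1 ≤ t2 ∧ t2 ≤ t ∧ (∀ s, t1 ≤ s → s < t2 → sd z (x s) ≤ r) ∧
    M ≤ ((t2 - t1 : ℕ) : ℝ)

theorem gC_good (r : ℤ) (M : ℝ) : PGood (gC r M) where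
  congr x x' t h := by
    rintro ⟨z, t1, t2, h1, h2, h3, h4⟩
    refine ⟨z, t1, t2, h1, h2, fun s hs1 hs2 => ?_, h4⟩
    rw [← h s (by omega)]
    exact h3 s hs1 hs2
  mono x s0 t' t h := by
    rintro ⟨z, t1, t2, h1, h2, h3, h4⟩
    refine ⟨z, t1 + s0, t2 + s0, by omega, by omega, fun s hs1 hs2 => ?_, ?_⟩
    · have h5 := h3 (s - s0) (by omega) (by omega)
      simp only at h5
      rwa [Nat.sub_add_cancel (by omega)] at h5
    · have e : t2 + s0 - (t1 + s0) = t2 - t1 := by omega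
      rw [e]; exact h4
  rot x t := by
    rintro ⟨z, t1, t2, h1, h2, h3, h4⟩
    refine ⟨rV.symm z, t1, t2, h1, h2, fun s hs1 hs2 => ?_, h4⟩
    rw [← sd_rV (rV.symm z) (x s), Equiv.apply_symm_apply]
    exact h3 s hs1 hs2
  trl x t b c := by
    rintro ⟨z, t1, t2, h1, h2, h3, h4⟩
    refine ⟨(z.1 - b, z.2 - c), t1, t2, h1, h2, fun s hs1 hs2 => ?_, h4⟩
    rw [← sd_trl (z.1 - b, z.2 - c) (x s) b c]
    simpa using h3 s hs1 hs2

open Classical in
/-- The trial event: the strips are crossed and connected to the strand, and the comb has many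
vertices. -/
def Qc (m : ℕ) (M : ℝ) : TEv := fun A y0 X Y T F =>
  (BaseLr A y0 X Y T m m F ∧ BaseUr A y0 X Y T m m F) ∧
    M ≤ (((Wv X Y m).filter (CSeen X Y m F)).card : ℝ)

theorem VA_Bl {X Y : ℤ} {m : ℕ} : VA X Y m ⊆ Bl X Y m := by
  rintro ⟨x, y, _ | _⟩ h
  · simp only [VA, mem_union, mem_RE_false] at h
    simp only [Bl, mem_RE_false]
    omega
  · simp only [VA, mem_union, mem_RE_true] at h
    simp only [Bl, mem_RE_true]
    omega

theorem VB_Bl {X Y : ℤ} {m : ℕ} {e : Edg} (h : e ∈ dE (VB X Y m)) :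
    e ∈ Bl X Y m := by
  obtain ⟨x, y, _ | _⟩ := e
  · simp only [VB, dE, Set.mem_ofPred_eq, dl_f, mem_union, mem_RE_true] at h
    simp only [Bl, mem_RE_false]
    omega
  · simp only [VB, dE, Set.mem_ofPred_eq, dl_t, mem_union, mem_RE_false] at h
    simp only [Bl, mem_RE_true]
    omega

theorem cseen_congr {X Y : ℤ} {m : ℕ} {F G : Set Edg}
    (h2 : ∀ e ∈ Bl X Y m, (e ∈ F ↔ e ∈ G)) {v : Vtx} (h : CSeen X Y m F v) :
    CSeen X Y m G v := by
  obtain ⟨⟨w, hw, h3⟩, g, hg, h4⟩ := h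
  refine ⟨⟨w, hw, h3.mono ?_⟩, g, hg, h4.mono ?_⟩
  · rintro e ⟨he, he'⟩
    exact ⟨(h2 e (VA_Bl he')).1 he, he'⟩
  · rintro e ⟨he, he'⟩
    exact ⟨he, fun h => he' ((h2 e (VB_Bl he)).2 h)⟩

theorem Qc_loc {m : ℕ} (hm : 1 ≤ m) {M : ℝ} : LocQ m (Qc m M) := by
  classical
  rintro A y0 X Y T F G h1 h2 ⟨⟨hL, hU⟩, h⟩
  have hLs : {v | ∃ s ≤ T, (orb G (st0 A y0) s).1 = v} =
      {v | ∃ s ≤ T, (orb F (st0 A y0) s).1 = v} := by
    ext v
    constructor
    · rintro ⟨s, hs, h⟩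
      exact ⟨s, hs, by rw [← orb_congr h1 hs]; exact h⟩
    · rintro ⟨s, hs, h⟩
      exact ⟨s, hs, by rw [orb_congr h1 hs]; exact h⟩
  have hRs : {v | ∃ s ≤ T, face (orb G (st0 A y0) s) = v} =
      {v | ∃ s ≤ T, face (orb F (st0 A y0) s) = v} := by
    ext v
    constructor
    · rintro ⟨s, hs, h⟩
      exact ⟨s, hs, by rw [← orb_congr h1 hs]; exact h⟩
    · rintro ⟨s, hs, h⟩
      exact ⟨s, hs, by rw [orb_congr h1 hs]; exact h⟩
  refine ⟨⟨?_, ?_⟩, ?_⟩
  · unfold BaseLr at hL ⊢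
    rw [hLs]
    refine LEr_mono ?_ ?_ hL
    · intro e he heF
      exact (h2 e (HL_sub hm le_rfl (HRL_mem (LSr_sub he)).1)).1 heF
    · intro e he heF
      exact ⟨(h2 e (HL_sub hm le_rfl (HRL_mem he).1)).1 heF, he⟩
  · unfold BaseUr at hU ⊢
    rw [hRs]
    refine UEr_mono ?_ ?_ (subset_refl _) hU
    · intro e he heG
      exact (h2 e (dHL_sub hm le_rfl (HRU_mem (USr_sub he)).1)).2 heG
    · intro e he heG
      exact (h2 e (dHL_sub hm le_rfl (HRU_mem he).1)).2 heG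
  · refine h.trans ?_
    have : ((Wv X Y m).filter (CSeen X Y m F)).card ≤
        ((Wv X Y m).filter (CSeen X Y m G)).card := by
      refine Finset.card_le_card fun v hv => ?_
      rw [mem_filter] at hv ⊢
      exact ⟨hv.1, cseen_congr h2 hv.2⟩
    exact_mod_cast this

theorem Qc_det {m K : ℕ} {M : ℝ} (hm : 1 ≤ m) : DetQ (Qc m M) m K (gC (18 * m) M) := by
  classical
  intro F A y0 Y T j Yj Tj hst hj hjK hstj hTj hQ
  have hm1 : (1 : ℤ) ≤ m := by exact_mod_cast hm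
  have hj' : (1 : ℤ) ≤ j := by exact_mod_cast hj
  have hjK' : (j : ℤ) + 1 ≤ K := by exact_mod_cast hjK
  have e1 : 121 * (m : ℤ) ≤ 121 * m * j := by nlinarith
  have e2 : 121 * (m : ℤ) * j + 121 * m ≤ 121 * m * K := by nlinarith
  obtain ⟨X, hX⟩ : ∃ X : ℤ, X = A + 121 * m * j := ⟨_, rfl⟩
  rw [← hX] at hstj hQ
  obtain ⟨⟨hL, hU⟩, hQ⟩ := hQ
  obtain ⟨V, hV⟩ : ∃ V, V = (Wv X Yj m).filter (CSeen X Yj m F) := ⟨_, rfl⟩
  rw [← hV] at hQ
  obtain ⟨s0, T2, hs0, hT2, h1, h2⟩ := pass_det hm hstj hst (by omega) (by omega) hL hU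
  have hbox : ∀ v ∈ V, CSeen X Yj m F v ∧ (X + 28 * m ≤ v.1 ∧ v.1 ≤ X + 36 * m) ∧
      (Yj - 3 * m ≤ v.2 ∧ v.2 ≤ Yj + 3 * m) := by
    intro v hv
    rw [hV, mem_filter] at hv
    have h3 := hv.1
    unfold Wv at h3
    rw [mem_product, mem_Icc, mem_Icc] at h3
    exact ⟨hv.2, h3.1, h3.2⟩
  rcases V.eq_empty_or_nonempty with hV0 | ⟨v0, hv0⟩
  · rw [hV0] at hQ
    refine ⟨(0, 0), 0, 0, le_rfl, Nat.zero_le _, fun s _ hs => by omega, ?_⟩
    simpa using hQ
  · refine ⟨(X + 32 * m, Yj), s0, T2, hs0, hT2, h2 ⟨v0, hbox v0 hv0⟩, hQ.trans ?_⟩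
    have key : ∀ v ∈ V, ∃ t, s0 ≤ t ∧ t < T2 ∧ ae (orb F (st0 A y0) t) = (v.1, v.2, true) := by
      intro v hv
      obtain ⟨h3, h4, h5⟩ := hbox v hv
      exact h1 v h3 h4 h5
    choose! τ hτ1 hτ2 hτ3 using key
    have h3 : V.image τ ⊆ Finset.Ico s0 T2 := by
      intro s hs
      rw [mem_image] at hs
      obtain ⟨v, hv, rfl⟩ := hs
      rw [mem_Ico]
      exact ⟨hτ1 v hv, hτ2 v hv⟩
    have h4 := Finset.card_le_card h3
    rw [Finset.card_image_of_injOn, Nat.card_Ico] at h4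
    · exact_mod_cast h4
    · intro u hu v hv huv
      have h5 := hτ3 u hu
      have h6 := hτ3 v hv
      rw [huv, h6] at h5
      simp only [Prod.mk.injEq, and_true] at h5
      exact Prod.ext h5.1.symm h5.2.symm

/-- vertices of the comb with arms are seen -/
theorem cseen_comb {F : Finset Edg} {G : Set Edg} {X Y : ℤ} {m b I : ℕ} (hb : 1 ≤ b)
    (hbm : 12 * b ≤ m) (hH : HgtC m b I)
    (hFG : ∀ e ∈ Y995.FS.RB X Y m, (e ∈ F ↔ e ∈ G)) (hA : CA X Y m b I F)
    (hB : CB X Y m b I F) {v : Vtx} (hv : MidC X Y m b I v) (hR : RA v b ↑F) :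
    CSeen X Y m G v := by
  have hb' : (1 : ℤ) ≤ b := by exact_mod_cast hb
  have hbm' : 12 * (b : ℤ) ≤ m := by exact_mod_cast hbm
  have hm : 1 ≤ m := by omega
  obtain ⟨⟨hv1, hv2⟩, i, hi, hr1, hr2⟩ := hv
  obtain ⟨hy1, hy2⟩ := yt_bd (Y := Y) hH hi
  obtain ⟨⟨w, hw, hRw⟩, g, hg, hDg⟩ := hR
  obtain ⟨v1, v2⟩ := v
  simp only at hv1 hv2 hr1 hr2 hw hg
  obtain ⟨y, hy⟩ : ∃ y, y = yt Y m b i := ⟨_, rfl⟩
  rw [← hy] at hy1 hy2 hr1 hr2
  constructor
  · obtain ⟨V, hV⟩ : ∃ V : Finset Edg, V = RE (X + 20 * m) (X + 24 * m) (Y - 12 * m) (Y + 3 * m) ∪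
      RE (X + 20 * m) (X + 38 * m) (Y - 3 * m) (Y + 3 * m) := ⟨_, rfl⟩
    obtain ⟨y1, y2, hy1', hy2', hc⟩ := hA.1 i hi
    obtain ⟨x1, x2, hx1, hx2, hs⟩ := hA.2
    rw [← hy] at hy1' hy2' hc
    have e1 : Reach ((↑F : Set Edg) ∩ ↑V) w (X + 20 * m, y1) := by
      refine meet_gen (p := v1 - 12 * b) (q := v1 + 12 * b) (c := y) (d := y + 4 * b)
        (by omega) (by omega) (V := PR (v1, v2) b)
        (Hh := LRE (X + 20 * m) (X + 38 * m) y (y + 4 * b)) ?_ ?_ ?_ ?_ ?_ ?_ ?_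
        hRw.symm (by omega) (by simp only; omega) hc (by simp only; omega) (by simp only; omega)
      · rintro ⟨x, y, _ | _⟩ h
        · simp only [PR, hV, mem_union, mem_RE_false] at h ⊢; omega
        · simp only [PR, hV, mem_union, mem_RE_true] at h ⊢; omega
      · rintro ⟨x, y, _ | _⟩ h
        · simp only [hV, mem_union, mem_RE_false, mem_LRE_false] at h ⊢; omega
        · simp only [hV, mem_union, mem_RE_true, mem_LRE_true] at h ⊢; omega
      · rintro ⟨x, y, _ | _⟩ h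
        · simp only [hV, mem_union, mem_RE_false] at h ⊢; omega
        · simp only [hV, mem_union, mem_RE_true] at h ⊢; omega
      · intro x y h; simp only [PR, mem_RE_false] at h; omega
      · intro x y h; simp only [PR, mem_RE_true] at h; omega
      · intro x y h; simp only [mem_LRE_true] at h; omega
      · intro x y h; simp only [mem_LRE_false] at h; omega
    have e2 : Reach ((↑F : Set Edg) ∩ ↑V) (x1, Y - 12 * m) (X + 20 * m, y1) := by
      refine meet_gen (p := X + 20 * m) (q := X + 24 * m) (c := y) (d := y + 4 * b)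
        (by omega) (by omega)
        (V := TBE (X + 20 * m) (X + 24 * m) (Y - 12 * m) (Y + 3 * m))
        (Hh := LRE (X + 20 * m) (X + 38 * m) y (y + 4 * b)) ?_ ?_ ?_ ?_ ?_ ?_ ?_
        hs (by simp only; omega) (by simp only; omega) hc (by simp only; omega)
        (by simp only; omega)
      · rintro ⟨x, y, _ | _⟩ h
        · simp only [hV, mem_union, mem_RE_false, mem_TBE_false] at h ⊢; omega
        · simp only [hV, mem_union, mem_RE_true, mem_TBE_true] at h ⊢; omega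
      · rintro ⟨x, y, _ | _⟩ h
        · simp only [hV, mem_union, mem_RE_false, mem_LRE_false] at h ⊢; omega
        · simp only [hV, mem_union, mem_RE_true, mem_LRE_true] at h ⊢; omega
      · rintro ⟨x, y, _ | _⟩ h
        · simp only [hV, mem_union, mem_RE_false] at h ⊢; omega
        · simp only [hV, mem_union, mem_RE_true] at h ⊢; omega
      · intro x y h; simp only [mem_TBE_false] at h; omega
      · intro x y h; simp only [mem_TBE_true] at h; omega
      · intro x y h; simp only [mem_LRE_true] at h; omega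
      · intro x y h; simp only [mem_LRE_false] at h; omega
    have e3 : Reach ((↑F : Set Edg) ∩ ↑V) w (v1, v2) := hRw.symm.mono (by
      rintro ⟨x, y, _ | _⟩ ⟨h0, h⟩
      · refine ⟨h0, ?_⟩
        simp only [PR, hV, mem_coe, mem_union, mem_RE_false] at h ⊢; omega
      · refine ⟨h0, ?_⟩
        simp only [PR, hV, mem_coe, mem_union, mem_RE_true] at h ⊢; omega)
    have hVR : V ⊆ Y995.FS.RB X Y m := by
      rintro ⟨x, y, _ | _⟩ h
      · simp only [hV, Y995.FS.RB, mem_union, mem_RE_false] at h ⊢; omega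
      · simp only [hV, Y995.FS.RB, mem_union, mem_RE_true] at h ⊢; omega
    have e4 : Reach (G ∩ ↑V) (x1, Y - 12 * m) (v1, v2) :=
      ((e2.trans e1.symm).trans e3).mono (by
        rintro e ⟨h0, h⟩
        exact ⟨(hFG e (hVR (Finset.mem_coe.1 h))).1 (Finset.mem_coe.1 h0), h⟩)
    refine ⟨(x1, Y - 12 * m), by simp only; omega, ?_⟩
    unfold VA
    rw [← hV]
    exact e4
  · obtain ⟨V, hV⟩ : ∃ V : Finset Edg, V = RE (X + 40 * m) (X + 44 * m) (Y - 3 * m) (Y + 12 * m) ∪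
      RE (X + 26 * m) (X + 44 * m) (Y - 3 * m) (Y + 3 * m) := ⟨_, rfl⟩
    obtain ⟨y1, y2, hy1', hy2', hc⟩ := hB.1 i hi
    obtain ⟨x1, x2, hx1, hx2, hs⟩ := hB.2
    rw [← hy] at hy1' hy2' hc
    obtain ⟨F', hF'⟩ : ∃ F' : Finset Edg, F' = dmp (Y995.FS.RB X Y m \ F) := ⟨_, rfl⟩
    rw [← hF'] at hc hs
    have a1 : Reach ((↑F' : Set Edg) ∩ ↑(DR (v1, v2) b)) (v1, v2) g := by
      refine (reach_dl.mpr hDg).mono ?_
      rintro _ ⟨e, ⟨he1, he2⟩, rfl⟩
      refine ⟨?_, he1⟩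
      rw [hF', mem_coe, mem_dmp, Equiv.symm_apply_apply, mem_sdiff]
      refine ⟨?_, he2⟩
      obtain ⟨x, y, _ | _⟩ := e
      · simp only [dE, DR, Set.mem_ofPred_eq, dl_f, mem_RE_true] at he1
        simp only [Y995.FS.RB, mem_RE_false]; omega
      · simp only [dE, DR, Set.mem_ofPred_eq, dl_t, mem_RE_false] at he1
        simp only [Y995.FS.RB, mem_RE_true]; omega
    have e1 : Reach ((↑F' : Set Edg) ∩ ↑V) (v1, v2) (X + 26 * m, y1) := by
      refine meet_gen (p := v1 - 12 * b) (q := v1 + 12 * b) (c := y + 16 * b)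
        (d := y + 16 * b + 4 * b) (by omega) (by omega) (V := DR (v1, v2) b)
        (Hh := LRE (X + 26 * m) (X + 44 * m) (y + 16 * b) (y + 16 * b + 4 * b))
        ?_ ?_ ?_ ?_ ?_ ?_ ?_
        a1 (by simp only; omega) (by omega) hc (by simp only; omega) (by simp only; omega)
      · rintro ⟨x, y, _ | _⟩ h
        · simp only [DR, hV, mem_union, mem_RE_false] at h ⊢; omega
        · simp only [DR, hV, mem_union, mem_RE_true] at h ⊢; omega
      · rintro ⟨x, y, _ | _⟩ h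
        · simp only [hV, mem_union, mem_RE_false, mem_LRE_false] at h ⊢; omega
        · simp only [hV, mem_union, mem_RE_true, mem_LRE_true] at h ⊢; omega
      · rintro ⟨x, y, _ | _⟩ h
        · simp only [hV, mem_union, mem_RE_false] at h ⊢; omega
        · simp only [hV, mem_union, mem_RE_true] at h ⊢; omega
      · intro x y h; simp only [DR, mem_RE_false] at h; omega
      · intro x y h; simp only [DR, mem_RE_true] at h; omega
      · intro x y h; simp only [mem_LRE_true] at h; omega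
      · intro x y h; simp only [mem_LRE_false] at h; omega
    have e2 : Reach ((↑F' : Set Edg) ∩ ↑V) (x1, Y - 3 * m) (X + 26 * m, y1) := by
      refine meet_gen (p := X + 40 * m) (q := X + 44 * m) (c := y + 16 * b)
        (d := y + 16 * b + 4 * b) (by omega) (by omega)
        (V := TBE (X + 40 * m) (X + 44 * m) (Y - 3 * m) (Y + 12 * m))
        (Hh := LRE (X + 26 * m) (X + 44 * m) (y + 16 * b) (y + 16 * b + 4 * b))
        ?_ ?_ ?_ ?_ ?_ ?_ ?_
        hs (by simp only; omega) (by simp only; omega) hc (by simp only; omega)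
        (by simp only; omega)
      · rintro ⟨x, y, _ | _⟩ h
        · simp only [hV, mem_union, mem_RE_false, mem_TBE_false] at h ⊢; omega
        · simp only [hV, mem_union, mem_RE_true, mem_TBE_true] at h ⊢; omega
      · rintro ⟨x, y, _ | _⟩ h
        · simp only [hV, mem_union, mem_RE_false, mem_LRE_false] at h ⊢; omega
        · simp only [hV, mem_union, mem_RE_true, mem_LRE_true] at h ⊢; omega
      · rintro ⟨x, y, _ | _⟩ h
        · simp only [hV, mem_union, mem_RE_false] at h ⊢; omega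
        · simp only [hV, mem_union, mem_RE_true] at h ⊢; omega
      · intro x y h; simp only [mem_TBE_false] at h; omega
      · intro x y h; simp only [mem_TBE_true] at h; omega
      · intro x y h; simp only [mem_LRE_true] at h; omega
      · intro x y h; simp only [mem_LRE_false] at h; omega
    have e3 : Reach ((↑F' : Set Edg) ∩ ↑V) (x1, Y - 3 * m) (x2, Y + 12 * m) := hs.mono (by
      rintro ⟨x, y, _ | _⟩ ⟨h0, h⟩
      · refine ⟨h0, ?_⟩
        simp only [hV, mem_coe, mem_union, mem_RE_false, mem_TBE_false] at h ⊢; omega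
      · refine ⟨h0, ?_⟩
        simp only [hV, mem_coe, mem_union, mem_RE_true, mem_TBE_true] at h ⊢; omega)
    have e4 : DReach (dE V \ G) (v1, v2) (x2, Y + 12 * m) := by
      rw [← reach_dl]
      refine ((e1.trans e2.symm).trans e3).mono ?_
      rintro e ⟨h1, h2⟩
      rw [hF', mem_coe, mem_dmp, mem_sdiff] at h1
      refine ⟨dl.symm e, ⟨?_, ?_⟩, by simp⟩
      · simp only [dE, Set.mem_ofPred_eq, Equiv.apply_symm_apply]
        exact Finset.mem_coe.1 h2
      · intro h3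
        exact h1.2 ((hFG _ h1.1).2 h3)
    refine ⟨(x2, Y + 12 * m), by simp only; omega, ?_⟩
    unfold VB
    rw [← hV]
    exact e4

end Pool.Agent.V11321.ND
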