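import Pool.Agent.V11321.ND.Tr
import Pool.Agent.Y995.FS.LimS2

/-!
Passage to the limit: long stays.
-/

set_option autoImplicit false
set_option linter.unusedVariables false

namespace Pool.Agent.V11321.ND

open H974 Finset H342P H984P H984N MeasureTheory Filter Topology Pool.Agent.Y995.FS

/-- Curves with a piece in the bulk without a long stay in a disc. -/
def BadC (R : Rect) (ρ w τ : ℝ) : Set X :=
  {p | ∃ s t : unitInterval, s < t ∧ 5 * ρ < dep R (p.1 s) ∧ ρ < dist (p.1 s) (p.1 t) ∧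
    ∀ (u v : unitInterval) (z : ℂ), ‖z‖ ≤ rad R → (s ≤ u ∧ u ≤ v ∧ v ≤ t) →
      (∀ y : unitInterval, dist (p.1 (max u (min y v))) z ≤ w) →
      p.2 * ((v : ℝ) - (u : ℝ)) < τ}

theorem badC_open (R : Rect) (ρ w τ : ℝ) : IsOpen (BadC R ρ w τ) := by
  obtain ⟨BB, hBB⟩ : ∃ BB : Set ℂ, BB = Metric.closedBall 0 (rad R) := ⟨_, rfl⟩
  have hBc : IsCompact BB := by rw [hBB]; exact isCompact_closedBall _ _
  have : CompactSpace BB := isCompact_iff_compactSpace.1 hBc
  have hmem : ∀ z : ℂ, z ∈ BB ↔ ‖z‖ ≤ rad R := by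
    intro z; rw [hBB, mem_closedBall_zero_iff]
  have e : BadC R ρ w τ = ⋃ s : unitInterval, ⋃ t : unitInterval, ⋃ _ : s < t,
      (({p : X | 5 * ρ < dep R (p.1 s)} ∩ {p : X | ρ < dist (p.1 s) (p.1 t)}) ∩
        (Prod.fst '' {x : X × (unitInterval × unitInterval × BB) |
          ((s ≤ x.2.1 ∧ x.2.1 ≤ x.2.2.1 ∧ x.2.2.1 ≤ t) ∧
          (∀ y : unitInterval, dist (x.1.1 (max x.2.1 (min y x.2.2.1))) x.2.2.2 ≤ w)) ∧
          τ ≤ x.1.2 * ((x.2.2.1 : ℝ) - (x.2.1 : ℝ))})ᶜ) := by
    ext p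
    simp only [BadC, Set.mem_ofPred_eq, Set.mem_iUnion, Set.mem_inter_iff, Set.mem_compl_iff,
      Set.mem_image, exists_prop]
    constructor
    · rintro ⟨s, t, h1, h2, h3, h4⟩
      refine ⟨s, t, h1, ⟨h2, h3⟩, ?_⟩
      rintro ⟨⟨p', u, v, z, hz⟩, ⟨⟨a1, a2⟩, a3⟩, rfl⟩
      exact absurd a3 (not_le.2 (h4 u v z ((hmem z).1 hz) a1 a2))
    · rintro ⟨s, t, h1, ⟨h2, h3⟩, h4⟩
      refine ⟨s, t, h1, h2, h3, fun u v z hz a1 a2 => ?_⟩
      by_contra hcon
      push Not at hcon
      exact h4 ⟨(p, (u, v, ⟨z, (hmem z).2 hz⟩)), ⟨⟨a1, a2⟩, hcon⟩, rfl⟩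
  rw [e]
  refine isOpen_iUnion fun s => isOpen_iUnion fun t => isOpen_iUnion fun _ => ?_
  refine IsOpen.inter (IsOpen.inter ?_ ?_) ?_
  · have c0 : Continuous (fun p : X => p.1 s) := by fun_prop
    exact isOpen_lt continuous_const ((dep_cont R).comp c0)
  · have c0 : Continuous (fun p : X => p.1 s) := by fun_prop
    have c1 : Continuous (fun p : X => p.1 t) := by fun_prop
    exact isOpen_lt continuous_const (c0.dist c1)
  · rw [isOpen_compl_iff]
    refine isClosedMap_fst_of_compactSpace _ ?_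
    have cu : Continuous (fun x : X × (unitInterval × unitInterval × BB) => x.2.1) := by fun_prop
    have cv : Continuous (fun x : X × (unitInterval × unitInterval × BB) => x.2.2.1) := by
      fun_prop
    have cz : Continuous (fun x : X × (unitInterval × unitInterval × BB) => (x.2.2.2 : ℂ)) := by
      fun_prop
    have cT : Continuous (fun x : X × (unitInterval × unitInterval × BB) => x.1.2) := by
      fun_prop
    have cf : Continuous (fun x : X × (unitInterval × unitInterval × BB) => x.1.1) := by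
      fun_prop
    have k1 : IsClosed {x : X × (unitInterval × unitInterval × BB) | s ≤ x.2.1} :=
      isClosed_le continuous_const cu
    have k2 : IsClosed {x : X × (unitInterval × unitInterval × BB) | x.2.1 ≤ x.2.2.1} :=
      isClosed_le cu cv
    have k3 : IsClosed {x : X × (unitInterval × unitInterval × BB) | x.2.2.1 ≤ t} :=
      isClosed_le cv continuous_const
    have k4 : IsClosed {x : X × (unitInterval × unitInterval × BB) |
          ∀ y : unitInterval, dist (x.1.1 (max x.2.1 (min y x.2.2.1))) x.2.2.2 ≤ w} := by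
      rw [Set.ofPred_forall]
      refine isClosed_iInter fun y => ?_
      have c1 : Continuous (fun x : X × (unitInterval × unitInterval × BB) =>
          max x.2.1 (min y x.2.2.1)) := cu.max (continuous_const.min cv)
      have c2 : Continuous (fun x : X × (unitInterval × unitInterval × BB) =>
          x.1.1 (max x.2.1 (min y x.2.2.1))) := ContinuousEval.continuous_eval.comp (cf.prodMk c1)
      exact isClosed_le (c2.dist cz) continuous_const
    have k5 : IsClosed {x : X × (unitInterval × unitInterval × BB) |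
        τ ≤ x.1.2 * ((x.2.2.1 : ℝ) - (x.2.1 : ℝ))} := by
      have c3 : Continuous (fun x : X × (unitInterval × unitInterval × BB) =>
          x.1.2 * ((x.2.2.1 : ℝ) - (x.2.1 : ℝ))) :=
        cT.mul ((continuous_subtype_val.comp cv).sub (continuous_subtype_val.comp cu))
      exact isClosed_le continuous_const c3
    exact ((k1.inter (k2.inter k3)).inter k4).inter k5

/-- Bad curves at mesh `δ` come from bad pieces of the path. -/
theorem badC_mesh {R : Rect} {δ ρ w τ M : ℝ} {m : ℕ} (hδ : 0 < δ) (hρ : δ ≤ ρ) (hδ2 : δ ≤ 1/2)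
    (hw2 : w ≤ 1/2) (hm : 2 ≤ m) (hw : 37 * (m * δ) ≤ w) (hM : 1 < M)
    (hτ : τ ≤ (M - 1) * δ ^ (7/4 : ℝ)) {F : Finset Edg} (hok : (R.dm δ).Ok)
    (hF : F ⊆ (R.dm δ).edges)
    (h : (R.curve δ F, R.time δ F) ∈ BadC R ρ w τ) : GBad (gC (18 * m) M) R δ ρ F := by
  classical
  obtain ⟨s, t, hst, h1, h2, h3⟩ := h
  obtain ⟨n, hn⟩ : ∃ n, n = (R.dm δ).len F := ⟨_, rfl⟩
  obtain ⟨p, hp⟩ : ∃ p : ℕ → ℂ, p = fun k => pos δ ((R.dm δ).walk F k) := ⟨_, rfl⟩
  have hc : R.curve δ F = pl n p := by unfold Rect.curve; rw [hn, hp]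
  simp only [hc] at h1 h2 h3
  have hstep : ∀ k < n, dist (p k) (p (k + 1)) ≤ δ / 2 := fun k _ => by
    have := pos_nxt hδ.le ((R.dm δ).cfg F) ((R.dm δ).walk F k)
    rw [hp]
    rwa [← walk_succ] at this
  obtain ⟨hn0, k, l, hkl, hl, hsk, hlt, d1, d2⟩ := nodes (by positivity) hstep hst
    (by linarith)
  have hn' : (0 : ℝ) < n := by exact_mod_cast hn0
  have hm' : (2 : ℝ) ≤ m := by exact_mod_cast hm
  have hw0 : 0 < w := by nlinarith
  refine ⟨k, l, hkl, by rw [← hn]; exact hl, ?_, ?_, ?_⟩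
  · have h4 := dep_lip R (pl n p s) (p k)
    have h5 : p k = pos δ ((R.dm δ).walk F k) := by rw [hp]
    rw [← h5]
    linarith
  · have h4 : dist (pl n p s) (pl n p t) ≤ dist (pl n p s) (p k) + dist (p k) (p l) +
        dist (p l) (pl n p t) := dist_triangle4 _ _ _ _
    rw [dist_comm (p l)] at h4
    have h5 : p k = pos δ ((R.dm δ).walk F k) := by rw [hp]
    have h6 : p l = pos δ ((R.dm δ).walk F l) := by rw [hp]
    rw [← h5, ← h6]
    linarith
  · rintro ⟨z, t1, t2, ht12, ht2, hz, hMt⟩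
    have ht : t1 + 1 ≤ t2 := by
      by_contra hcon
      have e : t2 - t1 = 0 := by omega
      rw [e] at hMt
      simp at hMt
      linarith
    obtain ⟨z', hz'2⟩ : ∃ z' : ℂ, z' = pos δ (z, Q4.ne) := ⟨_, rfl⟩
    have hGG : ∀ i, t1 ≤ i → i < t2 → dist (p (k + i)) z' + δ / 2 ≤ w := by
      intro i hi1 hi2
      have h4 := dist_pos_le hδ.le (z, Q4.ne) ((R.dm δ).walk F (k + i))
      rw [dist_comm, ← hz'2] at h4
      have h5 : ((sd (z, Q4.ne).1 ((R.dm δ).walk F (k + i)).1 : ℤ) : ℝ) ≤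
          ((18 * m : ℤ) : ℝ) := by
        exact_mod_cast hz i hi1 hi2
      push_cast at h5
      have h6 : p (k + i) = pos δ ((R.dm δ).walk F (k + i)) := by rw [hp]
      rw [h6]
      have h7 : δ * (2 * ((sd (z, Q4.ne).1 ((R.dm δ).walk F (k + i)).1 : ℤ) : ℝ) + 1) ≤
          δ * (2 * (18 * m) + 1) := mul_le_mul_of_nonneg_left (by linarith) hδ.le
      nlinarith
    have hzball : ‖z'‖ ≤ rad R := by
      have h4 := hGG t1 le_rfl ht
      obtain ⟨y, hy, hy2⟩ := R.pos_near hδ (walk_in hok hF (k + t1))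
      have h5 : p (k + t1) = pos δ ((R.dm δ).walk F (k + t1)) := by rw [hp]
      rw [← h5] at hy2
      have h6 := norm_D hy
      have h7 : ‖z'‖ ≤ dist (p (k + t1)) z' + (dist (p (k + t1)) y + ‖y‖) := by
        have e1 : ‖z'‖ = dist z' 0 := (dist_zero_right z').symm
        have e2 : ‖y‖ = dist y 0 := (dist_zero_right y).symm
        rw [e1, e2]
        have a1 := dist_triangle z' (p (k + t1)) 0
        have a2 := dist_triangle (p (k + t1)) y 0
        rw [dist_comm z' (p (k + t1))] at a1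
        linarith
      unfold rad
      linarith
    obtain ⟨a, ha⟩ : ∃ a, a = k + t1 := ⟨_, rfl⟩
    obtain ⟨b, hb⟩ : ∃ b, b = k + (t2 - 1) := ⟨_, rfl⟩
    have hab : a ≤ b := by omega
    have hbl : b < l := by omega
    have hbn : b < n := by omega
    have hu : ((nodeT n a (by omega) : unitInterval) : ℝ) = (a : ℝ) / n := rfl
    have hv : ((nodeT n b (by omega) : unitInterval) : ℝ) = (b : ℝ) / n := rfl
    have habR : (a : ℝ) ≤ b := by exact_mod_cast hab
    have hkaR : (k : ℝ) ≤ a := by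
      have : k ≤ a := by omega
      exact_mod_cast this
    have hblR : (b : ℝ) ≤ l := by exact_mod_cast hbl.le
    have huv : nodeT n a (by omega) ≤ nodeT n b (by omega) := by
      change (a : ℝ) / n ≤ (b : ℝ) / n
      gcongr
    have h8 := h3 (nodeT n a (by omega)) (nodeT n b (by omega)) z' hzball ⟨by
        change (s : ℝ) ≤ (a : ℝ) / n
        rw [le_div_iff₀ hn']
        linarith, huv, by
        change (b : ℝ) / n ≤ (t : ℝ)
        rw [div_le_iff₀ hn']
        linarith⟩ (by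
      intro y
      obtain ⟨x, hx⟩ : ∃ x : unitInterval,
        x = max (nodeT n a (by omega)) (min y (nodeT n b (by omega))) := ⟨_, rfl⟩
      rw [← hx]
      have hx1 : (a : ℝ) / n ≤ (x : ℝ) := by
        have : nodeT n a (by omega) ≤ x := by rw [hx]; exact le_max_left _ _
        exact this
      have hx2 : (x : ℝ) ≤ (b : ℝ) / n := by
        have : x ≤ nodeT n b (by omega) := by
          rw [hx]; exact max_le huv (min_le_right _ _)
        exact this
      rw [div_le_iff₀ hn'] at hx1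
      rw [le_div_iff₀ hn'] at hx2
      obtain ⟨i, hi⟩ : ∃ i : ℕ, i = ⌊(x : ℝ) * n⌋₊ := ⟨_, rfl⟩
      have hx0 : 0 ≤ (x : ℝ) * n := mul_nonneg x.2.1 hn'.le
      have hi1 : (i : ℝ) ≤ (x : ℝ) * n := by rw [hi]; exact Nat.floor_le hx0
      have hi2 : (x : ℝ) * n < i + 1 := by rw [hi]; exact Nat.lt_floor_add_one _
      have hai : a ≤ i := by
        rw [hi]; exact Nat.le_floor hx1
      have hib : i ≤ b := by
        have : (i : ℝ) ≤ b := hi1.trans hx2
        exact_mod_cast this
      have h7 : dist (pl n p x) (p i) ≤ δ / 2 := by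
        rw [pl_seg (by omega : i < n) hi1 hi2.le, dist_eq_norm]
        have e : p i + (((x : ℝ) * n - (i : ℝ) : ℝ) : ℂ) * (p (i + 1) - p i) -
            p i = (((x : ℝ) * n - (i : ℝ) : ℝ) : ℂ) * (p (i + 1) - p i) := by
          ring
        rw [e, norm_mul, Complex.norm_real, Real.norm_eq_abs, abs_of_nonneg (by linarith),
          ← dist_eq_norm, dist_comm]
        have h8 : ((x : ℝ) * n - (i : ℝ)) * dist (p i) (p (i + 1)) ≤ 1 * (δ / 2) :=
          mul_le_mul (by linarith) (hstep _ (by omega)) dist_nonneg (by norm_num)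
        linarith
      have h9 := hGG (i - k) (by omega) (by omega)
      have e9 : k + (i - k) = i := by omega
      rw [e9] at h9
      have h10 := dist_triangle (pl n p x) (p i) z'
      linarith)
    rw [hu, hv] at h8
    have h10 : R.time δ F = δ ^ (7/4 : ℝ) * n := by unfold Rect.time; rw [hn]
    rw [h10] at h8
    have hδ7 : 0 < δ ^ (7/4 : ℝ) := Real.rpow_pos_of_pos hδ _
    have e11 : δ ^ (7/4 : ℝ) * n * ((b : ℝ) / n - (a : ℝ) / n) =
        δ ^ (7/4 : ℝ) * ((b : ℝ) - a) := by field_simp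
    rw [e11] at h8
    have e12 : (b : ℝ) - a = ((t2 - t1 : ℕ) : ℝ) - 1 := by
      have : b + 1 = (t2 - t1) + a := by omega
      have h13 : (b : ℝ) + 1 = ((t2 - t1 : ℕ) : ℝ) + a := by exact_mod_cast this
      linarith
    rw [e12] at h8
    have h14 : (M - 1) * δ ^ (7/4 : ℝ) ≤ δ ^ (7/4 : ℝ) * (((t2 - t1 : ℕ) : ℝ) - 1) := by
      rw [mul_comm]
      exact mul_le_mul_of_nonneg_left (by linarith) hδ7.le
    linarith

end Pool.Agent.V11321.ND
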