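import Pool.Agent.V11321.ND.Many2
import Pool.Agent.V11321.ND.LimM

/-!
Passage to the limit: long pieces contain many long stays.
-/

set_option autoImplicit false
set_option linter.unusedVariables false

namespace Pool.Agent.V11321.ND

open H974 Finset H342P H984P H984N MeasureTheory Filter Topology Pool.Agent.Y995.FS
open Pool.Agent.Y995.HG TH992.L Y994.MC

/-- Curves with a long piece in the bulk with few long stays in discs. -/
def BadJ (R : Rect) (ρ w τ h : ℝ) (N : ℕ) : Set X :=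
  {p | ∃ s t : unitInterval, (∀ u : unitInterval, s ≤ u → u ≤ t → ρ < dep R (p.1 u)) ∧
    h < p.2 * ((t : ℝ) - s) ∧
    ¬ ∃ (u v : Fin N → unitInterval) (z : Fin N → ℂ), (∀ a, ‖z a‖ ≤ rad R) ∧
      (∀ a b, a ≠ b → 3 * w ≤ dist (z a) (z b)) ∧
      ∀ a, (s ≤ u a ∧ u a ≤ v a ∧ v a ≤ t) ∧
        (∀ y : unitInterval, dist (p.1 (max (u a) (min y (v a)))) (z a) ≤ w) ∧
        τ ≤ p.2 * ((v a : ℝ) - (u a : ℝ))}

theorem badJ_open (R : Rect) (ρ w τ h : ℝ) (N : ℕ) : IsOpen (BadJ R ρ w τ h N) := by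
  obtain ⟨BB, hBB⟩ : ∃ BB : Set ℂ, BB = Metric.closedBall 0 (rad R) := ⟨_, rfl⟩
  have hBc : IsCompact BB := by rw [hBB]; exact isCompact_closedBall _ _
  have : CompactSpace BB := isCompact_iff_compactSpace.1 hBc
  have hmem : ∀ z : ℂ, z ∈ BB ↔ ‖z‖ ≤ rad R := by
    intro z; rw [hBB, mem_closedBall_zero_iff]
  have e : BadJ R ρ w τ h N = ⋃ s : unitInterval, ⋃ t : unitInterval,
      (((Prod.fst '' {x : X × unitInterval | (s ≤ x.2 ∧ x.2 ≤ t) ∧ dep R (x.1.1 x.2) ≤ ρ})ᶜ ∩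
        {p : X | h < p.2 * ((t : ℝ) - s)}) ∩
        (Prod.fst '' {x : X × ((Fin N → unitInterval) × (Fin N → unitInterval) × (Fin N → BB)) |
          (∀ a b, a ≠ b → 3 * w ≤ dist (x.2.2.2 a : ℂ) (x.2.2.2 b)) ∧
          ∀ a, (s ≤ x.2.1 a ∧ x.2.1 a ≤ x.2.2.1 a ∧ x.2.2.1 a ≤ t) ∧
            (∀ y : unitInterval, dist (x.1.1 (max (x.2.1 a) (min y (x.2.2.1 a))))
              (x.2.2.2 a : ℂ) ≤ w) ∧
            τ ≤ x.1.2 * ((x.2.2.1 a : ℝ) - (x.2.1 a : ℝ))})ᶜ) := by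
    ext p
    simp only [BadJ, Set.mem_ofPred_eq, Set.mem_iUnion, Set.mem_inter_iff, Set.mem_compl_iff,
      Set.mem_image]
    constructor
    · rintro ⟨s, t, h1, h2, h4⟩
      refine ⟨s, t, ⟨?_, h2⟩, ?_⟩
      · rintro ⟨⟨p', u⟩, ⟨⟨a1, a2⟩, a3⟩, rfl⟩
        exact absurd a3 (not_le.2 (h1 u a1 a2))
      · rintro ⟨⟨p', u, v, z⟩, ⟨a1, a2⟩, rfl⟩
        exact h4 ⟨u, v, fun a => (z a : ℂ), fun a => (hmem _).1 (z a).2, a1, a2⟩
    · rintro ⟨s, t, ⟨h1, h2⟩, h4⟩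
      refine ⟨s, t, ?_, h2, ?_⟩
      · intro u a1 a2
        by_contra hcon
        push Not at hcon
        exact h1 ⟨(p, u), ⟨⟨a1, a2⟩, hcon⟩, rfl⟩
      · rintro ⟨u, v, z, z1, z2, z3⟩
        exact h4 ⟨(p, (u, v, fun a => ⟨z a, (hmem _).2 (z1 a)⟩)), ⟨z2, z3⟩, rfl⟩
  rw [e]
  refine isOpen_iUnion fun s => isOpen_iUnion fun t => ?_
  refine IsOpen.inter (IsOpen.inter ?_ ?_) ?_
  · rw [isOpen_compl_iff]
    refine isClosedMap_fst_of_compactSpace _ ?_
    have c0 : Continuous (fun x : X × unitInterval => x.1.1 x.2) := by fun_prop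
    have c1 : Continuous (fun x : X × unitInterval => x.2) := by fun_prop
    exact ((isClosed_le continuous_const c1).inter (isClosed_le c1 continuous_const)).inter
      (isClosed_le ((dep_cont R).comp c0) continuous_const)
  · have c0 : Continuous (fun p : X => p.2 * ((t : ℝ) - s)) := by fun_prop
    exact isOpen_lt continuous_const c0
  · rw [isOpen_compl_iff]
    refine isClosedMap_fst_of_compactSpace _ ?_
    obtain ⟨Z, hZ⟩ : ∃ Z : Type, Z = (X × ((Fin N → unitInterval) × (Fin N → unitInterval) ×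
      (Fin N → BB))) := ⟨_, rfl⟩
    have cu : ∀ a, Continuous (fun x : X × ((Fin N → unitInterval) × (Fin N → unitInterval) ×
      (Fin N → BB)) => x.2.1 a) := by intro a; fun_prop
    have cv : ∀ a, Continuous (fun x : X × ((Fin N → unitInterval) × (Fin N → unitInterval) ×
      (Fin N → BB)) => x.2.2.1 a) := by intro a; fun_prop
    have cz : ∀ a, Continuous (fun x : X × ((Fin N → unitInterval) × (Fin N → unitInterval) ×
      (Fin N → BB)) => (x.2.2.2 a : ℂ)) := by intro a; fun_prop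
    have cT : Continuous (fun x : X × ((Fin N → unitInterval) × (Fin N → unitInterval) ×
      (Fin N → BB)) => x.1.2) := by fun_prop
    have cf : Continuous (fun x : X × ((Fin N → unitInterval) × (Fin N → unitInterval) ×
      (Fin N → BB)) => x.1.1) := by fun_prop
    have k0 : IsClosed {x : X × ((Fin N → unitInterval) × (Fin N → unitInterval) ×
        (Fin N → BB)) | ∀ a b, a ≠ b → 3 * w ≤ dist (x.2.2.2 a : ℂ) (x.2.2.2 b)} := by
      have e2 : {x : X × ((Fin N → unitInterval) × (Fin N → unitInterval) ×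
          (Fin N → BB)) | ∀ a b, a ≠ b → 3 * w ≤ dist (x.2.2.2 a : ℂ) (x.2.2.2 b)} =
          ⋂ a : Fin N, ⋂ b : Fin N, ⋂ _ : a ≠ b,
            {x | 3 * w ≤ dist (x.2.2.2 a : ℂ) (x.2.2.2 b)} := by
        ext x
        simp only [Set.mem_iInter, Set.mem_ofPred_eq]
      rw [e2]
      refine isClosed_iInter fun a => isClosed_iInter fun b => isClosed_iInter fun _ => ?_
      exact isClosed_le continuous_const ((cz a).dist (cz b))
    have k6 : IsClosed {x : X × ((Fin N → unitInterval) × (Fin N → unitInterval) ×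
        (Fin N → BB)) | ∀ a, (s ≤ x.2.1 a ∧ x.2.1 a ≤ x.2.2.1 a ∧ x.2.2.1 a ≤ t) ∧
            (∀ y : unitInterval, dist (x.1.1 (max (x.2.1 a) (min y (x.2.2.1 a))))
              (x.2.2.2 a : ℂ) ≤ w) ∧
            τ ≤ x.1.2 * ((x.2.2.1 a : ℝ) - (x.2.1 a : ℝ))} := by
      rw [Set.ofPred_forall]
      refine isClosed_iInter fun a => ?_
      have k1 : IsClosed {x : X × ((Fin N → unitInterval) × (Fin N → unitInterval) ×
        (Fin N → BB)) | s ≤ x.2.1 a} := isClosed_le continuous_const (cu a)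
      have k2 : IsClosed {x : X × ((Fin N → unitInterval) × (Fin N → unitInterval) ×
        (Fin N → BB)) | x.2.1 a ≤ x.2.2.1 a} := isClosed_le (cu a) (cv a)
      have k3 : IsClosed {x : X × ((Fin N → unitInterval) × (Fin N → unitInterval) ×
        (Fin N → BB)) | x.2.2.1 a ≤ t} := isClosed_le (cv a) continuous_const
      have k4 : IsClosed {x : X × ((Fin N → unitInterval) × (Fin N → unitInterval) ×
          (Fin N → BB)) | ∀ y : unitInterval,
            dist (x.1.1 (max (x.2.1 a) (min y (x.2.2.1 a)))) (x.2.2.2 a : ℂ) ≤ w} := by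
        rw [Set.ofPred_forall]
        refine isClosed_iInter fun y => ?_
        have c1 : Continuous (fun x : X × ((Fin N → unitInterval) × (Fin N → unitInterval) ×
          (Fin N → BB)) => max (x.2.1 a) (min y (x.2.2.1 a))) :=
          (cu a).max (continuous_const.min (cv a))
        have c2 : Continuous (fun x : X × ((Fin N → unitInterval) × (Fin N → unitInterval) ×
          (Fin N → BB)) => x.1.1 (max (x.2.1 a) (min y (x.2.2.1 a)))) :=
          ContinuousEval.continuous_eval.comp (cf.prodMk c1)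
        exact isClosed_le (c2.dist (cz a)) continuous_const
      have k5 : IsClosed {x : X × ((Fin N → unitInterval) × (Fin N → unitInterval) ×
          (Fin N → BB)) | τ ≤ x.1.2 * ((x.2.2.1 a : ℝ) - (x.2.1 a : ℝ))} := by
        have c3 : Continuous (fun x : X × ((Fin N → unitInterval) × (Fin N → unitInterval) ×
          (Fin N → BB)) => x.1.2 * ((x.2.2.1 a : ℝ) - (x.2.1 a : ℝ))) :=
          cT.mul ((continuous_subtype_val.comp (cv a)).sub (continuous_subtype_val.comp (cu a)))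
        exact isClosed_le continuous_const c3
      exact (k1.inter (k2.inter k3)).inter (k4.inter k5)
    exact k0.inter k6

/-- Bad curves at mesh `δ` come from bad pieces of the path. -/
theorem badJ_mesh {R : Rect} {δ ρ w τ h M K1 : ℝ} {m N W : ℕ} {L : ℤ} (hδ : 0 < δ)
    (hδ2 : δ ≤ 1/2) (hw2 : w ≤ 1/2) (hm : 2 ≤ m) (hw : 37 * (m * δ) ≤ w)
    (hw' : w ≤ 96 * (m * δ)) (hWm : 120 * m ≤ W) (hM : 1 < M)
    (hτ : τ ≤ (M - 1) * δ ^ (7/4 : ℝ)) (hK1 : 0 < K1)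
    (hL : δ * (4 * (L : ℝ)) + 2 * δ ≤ ρ)
    (hh : ((W : ℝ) ^ (7/4 : ℝ) * (K1 * (98 * N)) + 2) * δ ^ (7/4 : ℝ) ≤ h)
    {F : Finset Edg} (hok : (R.dm δ).Ok) (hF : F ⊆ (R.dm δ).edges)
    (hbad : (R.curve δ F, R.time δ F) ∈ BadJ R ρ w τ h N) : FewN (R.dm δ) L W m N K1 M F := by
  classical
  obtain ⟨s, t, h1, h2, h3⟩ := hbad
  obtain ⟨n, hn⟩ : ∃ n, n = (R.dm δ).len F := ⟨_, rfl⟩
  obtain ⟨p, hp⟩ : ∃ p : ℕ → ℂ, p = fun k => pos δ ((R.dm δ).walk F k) := ⟨_, rfl⟩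
  have hc : R.curve δ F = pl n p := by unfold Rect.curve; rw [hn, hp]
  have h10 : R.time δ F = δ ^ (7/4 : ℝ) * n := by unfold Rect.time; rw [hn]
  simp only [hc, h10] at h1 h2 h3
  have hδ7 : 0 < δ ^ (7/4 : ℝ) := Real.rpow_pos_of_pos hδ _
  have hstep : ∀ k < n, dist (p k) (p (k + 1)) ≤ δ / 2 := fun k _ => by
    have := pos_nxt hδ.le ((R.dm δ).cfg F) ((R.dm δ).walk F k)
    rw [hp]
    rwa [← walk_succ] at this
  have hm' : (2 : ℝ) ≤ m := by exact_mod_cast hm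
  have hw0 : 0 < w := by nlinarith
  have hWp : 0 ≤ (W : ℝ) ^ (7/4 : ℝ) * (K1 * (98 * N)) := by positivity
  -- the nodes
  have hlong : (W : ℝ) ^ (7/4 : ℝ) * (K1 * (98 * N)) + 2 < (n : ℝ) * ((t : ℝ) - s) := by
    have h4 : ((W : ℝ) ^ (7/4 : ℝ) * (K1 * (98 * N)) + 2) * δ ^ (7/4 : ℝ) <
        (n * ((t : ℝ) - s)) * δ ^ (7/4 : ℝ) := by
      refine lt_of_le_of_lt hh (h2.trans_le (le_of_eq ?_))
      ring
    exact lt_of_mul_lt_mul_right h4 hδ7.le
  have ht1 : (t : ℝ) ≤ 1 := t.2.2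
  have ht0 : 0 ≤ (t : ℝ) := t.2.1
  have hs0 : 0 ≤ (s : ℝ) := s.2.1
  have hn0 : 0 < n := by
    rcases Nat.eq_zero_or_pos n with h | h
    · rw [h] at hlong
      simp only [CharP.cast_eq_zero, zero_mul] at hlong
      linarith
    · exact h
  have hn' : (0 : ℝ) < n := by exact_mod_cast hn0
  obtain ⟨k, hk⟩ : ∃ k, k = ⌈(s : ℝ) * n⌉₊ := ⟨_, rfl⟩
  obtain ⟨l, hl⟩ : ∃ l, l = ⌊(t : ℝ) * n⌋₊ := ⟨_, rfl⟩
  have hk1 : (s : ℝ) * n ≤ k := by rw [hk]; exact Nat.le_ceil _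
  have hk2 : (k : ℝ) < s * n + 1 := by rw [hk]; exact Nat.ceil_lt_add_one (by positivity)
  have hl1 : (l : ℝ) ≤ t * n := by rw [hl]; exact Nat.floor_le (by positivity)
  have hl2 : (t : ℝ) * n < l + 1 := by rw [hl]; exact Nat.lt_floor_add_one _
  have hkl : k ≤ l := by
    have : (k : ℝ) < l + 1 := by linarith
    have h5 : k < l + 1 := by exact_mod_cast this
    omega
  have hln : l ≤ n := by
    have : (l : ℝ) ≤ n := hl1.trans (by nlinarith)
    exact_mod_cast this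
  have hnode : ∀ i, k ≤ i → i ≤ l → ρ < dep R (p i) := by
    intro i hi1 hi2
    have hin : i ≤ n := by omega
    have h5 := h1 (nodeT n i hin) ?_ ?_
    · rwa [pl_nodeT hin hn0] at h5
    · change (s : ℝ) ≤ (i : ℝ) / n
      rw [le_div_iff₀ hn']
      have : (k : ℝ) ≤ i := by exact_mod_cast hi1
      linarith
    · change (i : ℝ) / n ≤ (t : ℝ)
      rw [div_le_iff₀ hn']
      have : (i : ℝ) ≤ l := by exact_mod_cast hi2
      linarith
  refine ⟨k, l, hkl, by rw [← hn]; exact hln, ?_, ?_, ?_⟩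
  · intro i hi1 hi2
    have h5 := hnode i hi1 hi2
    have h6 := bd_ge (R := R) hδ ((R.dm δ).walk F i)
    have h7 : p i = pos δ ((R.dm δ).walk F i) := by rw [hp]
    rw [h7] at h5
    have h8 : δ * ((4 * L : ℤ) : ℝ) ≤ δ * (((R.dm δ).bd ((R.dm δ).walk F i).1 : ℤ) : ℝ) := by
      push_cast
      linarith
    exact_mod_cast le_of_mul_le_mul_left h8 hδ
  · rw [Nat.cast_add, Nat.cast_sub hkl]
    push_cast
    have : (n : ℝ) * ((t : ℝ) - s) = t * n - s * n := by ring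
    linarith
  · rintro ⟨Z, z1, z2, z3⟩
    apply h3
    obtain ⟨Z', hZ', hZc⟩ := Finset.exists_subset_card_eq z1
    have eqv := Z'.equivFinOfCardEq hZc
    have hne : ∀ a b : Fin N, a ≠ b → (eqv.symm a : Vtx) ≠ (eqv.symm b : Vtx) := by
      intro a b hab h
      exact hab (eqv.symm.injective (Subtype.ext h))
    have hocc : ∀ v ∈ Z, ‖pos δ (v, Q4.ne)‖ ≤ rad R ∧ ∃ u v' : unitInterval,
        (s ≤ u ∧ u ≤ v' ∧ v' ≤ t) ∧
        (∀ y : unitInterval, dist (pl n p (max u (min y v'))) (pos δ (v, Q4.ne)) ≤ w) ∧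
        τ ≤ δ ^ (7/4 : ℝ) * n * ((v' : ℝ) - u) := by
      intro z hzZ
      obtain ⟨i1, i2, hki1, hi12, hi2l, hz, hMt⟩ := z3 z hzZ
      obtain ⟨t1, ht1'⟩ : ∃ t1, t1 = i1 - k := ⟨_, rfl⟩
      obtain ⟨t2, ht2'⟩ : ∃ t2, t2 = i2 - k := ⟨_, rfl⟩
      have ht12 : t1 ≤ t2 := by omega
      have ht2 : t2 ≤ l - k := by omega
      rw [show i2 - i1 = t2 - t1 by omega] at hMt
      have ht : t1 + 1 ≤ t2 := by
        by_contra hcon
        have e : t2 - t1 = 0 := by omega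
        rw [e] at hMt
        simp only [Nat.cast_zero] at hMt
        linarith
      obtain ⟨z', hz'2⟩ : ∃ z' : ℂ, z' = pos δ (z, Q4.ne) := ⟨_, rfl⟩
      rw [← hz'2]
      have hGG : ∀ i, t1 ≤ i → i < t2 → dist (p (k + i)) z' + δ / 2 ≤ w := by
        intro i hi1 hi2
        have h4 := dist_pos_le hδ.le (z, Q4.ne) ((R.dm δ).walk F (k + i))
        rw [dist_comm, ← hz'2] at h4
        have h5 : ((sd (z, Q4.ne).1 ((R.dm δ).walk F (k + i)).1 : ℤ) : ℝ) ≤
            ((18 * m : ℤ) : ℝ) := by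
          exact_mod_cast hz (k + i) (by omega) (by omega)
        push_cast at h5
        have h6 : p (k + i) = pos δ ((R.dm δ).walk F (k + i)) := by rw [hp]
        rw [h6]
        have h7 : δ * (2 * ((sd (z, Q4.ne).1 ((R.dm δ).walk F (k + i)).1 : ℤ) : ℝ) + 1) ≤
            δ * (2 * (18 * m) + 1) := mul_le_mul_of_nonneg_left (by linarith) hδ.le
        nlinarith
      have hzball : ‖z'‖ ≤ rad R := by
        have h4 := hGG t1 le_rfl ht
        obtain ⟨y, hy, hy2⟩ := R.pos_near hδ (walk_in hok hF (k + t1))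
        have h5 : p (k + t1) = pos δ ((R.dm δ).walk F (k + t1)) := by rw [hp]
        rw [← h5] at hy2
        have h6 := norm_D hy
        have h7 : ‖z'‖ ≤ dist (p (k + t1)) z' + (dist (p (k + t1)) y + ‖y‖) := by
          have e1 : ‖z'‖ = dist z' 0 := (dist_zero_right z').symm
          have e2 : ‖y‖ = dist y 0 := (dist_zero_right y).symm
          rw [e1, e2]
          have a1 := dist_triangle z' (p (k + t1)) 0
          have a2 := dist_triangle (p (k + t1)) y 0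
          rw [dist_comm z' (p (k + t1))] at a1
          linarith
        unfold rad
        linarith
      refine ⟨hzball, ?_⟩
      obtain ⟨a, ha⟩ : ∃ a, a = k + t1 := ⟨_, rfl⟩
      obtain ⟨b, hb⟩ : ∃ b, b = k + (t2 - 1) := ⟨_, rfl⟩
      have hab : a ≤ b := by omega
      have hbl : b < l := by omega
      have hbn : b < n := by omega
      have hu : ((nodeT n a (by omega) : unitInterval) : ℝ) = (a : ℝ) / n := rfl
      have hv : ((nodeT n b (by omega) : unitInterval) : ℝ) = (b : ℝ) / n := rfl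
      have habR : (a : ℝ) ≤ b := by exact_mod_cast hab
      have hkaR : (k : ℝ) ≤ a := by
        have : k ≤ a := by omega
        exact_mod_cast this
      have hblR : (b : ℝ) ≤ l := by exact_mod_cast hbl.le
      have huv : nodeT n a (by omega) ≤ nodeT n b (by omega) := by
        change (a : ℝ) / n ≤ (b : ℝ) / n
        gcongr
      refine ⟨nodeT n a (by omega), nodeT n b (by omega), ⟨by
          change (s : ℝ) ≤ (a : ℝ) / n
          rw [le_div_iff₀ hn']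
          linarith, huv, by
          change (b : ℝ) / n ≤ (t : ℝ)
          rw [div_le_iff₀ hn']
          linarith⟩, ?_, ?_⟩
      · intro y
        obtain ⟨x, hx⟩ : ∃ x : unitInterval,
          x = max (nodeT n a (by omega)) (min y (nodeT n b (by omega))) := ⟨_, rfl⟩
        rw [← hx]
        have hx1 : (a : ℝ) / n ≤ (x : ℝ) := by
          have : nodeT n a (by omega) ≤ x := by rw [hx]; exact le_max_left _ _
          exact this
        have hx2 : (x : ℝ) ≤ (b : ℝ) / n := by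
          have : x ≤ nodeT n b (by omega) := by
            rw [hx]; exact max_le huv (min_le_right _ _)
          exact this
        rw [div_le_iff₀ hn'] at hx1
        rw [le_div_iff₀ hn'] at hx2
        obtain ⟨i, hi⟩ : ∃ i : ℕ, i = ⌊(x : ℝ) * n⌋₊ := ⟨_, rfl⟩
        have hx0 : 0 ≤ (x : ℝ) * n := mul_nonneg x.2.1 hn'.le
        have hi1 : (i : ℝ) ≤ (x : ℝ) * n := by rw [hi]; exact Nat.floor_le hx0
        have hi2 : (x : ℝ) * n < i + 1 := by rw [hi]; exact Nat.lt_floor_add_one _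
        have hai : a ≤ i := by
          rw [hi]; exact Nat.le_floor hx1
        have hib : i ≤ b := by
          have : (i : ℝ) ≤ b := hi1.trans hx2
          exact_mod_cast this
        have h7 : dist (pl n p x) (p i) ≤ δ / 2 := by
          rw [pl_seg (by omega : i < n) hi1 hi2.le, dist_eq_norm]
          have e : p i + (((x : ℝ) * n - (i : ℝ) : ℝ) : ℂ) * (p (i + 1) - p i) -
              p i = (((x : ℝ) * n - (i : ℝ) : ℝ) : ℂ) * (p (i + 1) - p i) := by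
            ring
          rw [e, norm_mul, Complex.norm_real, Real.norm_eq_abs, abs_of_nonneg (by linarith),
            ← dist_eq_norm, dist_comm]
          have h8 : ((x : ℝ) * n - (i : ℝ)) * dist (p i) (p (i + 1)) ≤ 1 * (δ / 2) :=
            mul_le_mul (by linarith) (hstep _ (by omega)) dist_nonneg (by norm_num)
          linarith
        have h9 := hGG (i - k) (by omega) (by omega)
        have e9 : k + (i - k) = i := by omega
        rw [e9] at h9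
        have h10 := dist_triangle (pl n p x) (p i) z'
        linarith
      · rw [hu, hv]
        have e11 : δ ^ (7/4 : ℝ) * n * ((b : ℝ) / n - (a : ℝ) / n) =
            δ ^ (7/4 : ℝ) * ((b : ℝ) - a) := by field_simp
        rw [e11]
        have e12 : (b : ℝ) - a = ((t2 - t1 : ℕ) : ℝ) - 1 := by
          have : b + 1 = (t2 - t1) + a := by omega
          have h13 : (b : ℝ) + 1 = ((t2 - t1 : ℕ) : ℝ) + a := by exact_mod_cast this
          linarith
        rw [e12]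
        have h14 : (M - 1) * δ ^ (7/4 : ℝ) ≤ δ ^ (7/4 : ℝ) * (((t2 - t1 : ℕ) : ℝ) - 1) := by
          rw [mul_comm]
          exact mul_le_mul_of_nonneg_left (by linarith) hδ7.le
        linarith
    have hch : ∀ a : Fin N, ∃ uv : unitInterval × unitInterval,
        (s ≤ uv.1 ∧ uv.1 ≤ uv.2 ∧ uv.2 ≤ t) ∧
        (∀ y : unitInterval, dist (pl n p (max uv.1 (min y uv.2)))
          (pos δ ((eqv.symm a : Vtx), Q4.ne)) ≤ w) ∧
        τ ≤ δ ^ (7/4 : ℝ) * n * ((uv.2 : ℝ) - uv.1) := by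
      intro a
      obtain ⟨-, u, v, h4, h5, h6⟩ := hocc _ (hZ' (eqv.symm a).2)
      exact ⟨(u, v), h4, h5, h6⟩
    choose uv huv1 huv2 huv3 using hch
    refine ⟨fun a => (uv a).1, fun a => (uv a).2, fun a => pos δ ((eqv.symm a : Vtx), Q4.ne),
      ?_, ?_, fun a => ⟨huv1 a, huv2 a, huv3 a⟩⟩
    · intro a
      exact (hocc _ (hZ' (eqv.symm a).2)).1
    · intro a b hab
      have h4 := z2 _ (hZ' (eqv.symm a).2) _ (hZ' (eqv.symm b).2) (hne a b hab)
      have h5 := pos_far hδ (eqv.symm a : Vtx) (eqv.symm b : Vtx)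
      have h6 : 4 * (W : ℝ) ≤ ((sd (eqv.symm a : Vtx) (eqv.symm b : Vtx) : ℤ) : ℝ) := by
        exact_mod_cast h4
      have h7 : 120 * (m : ℝ) ≤ W := by exact_mod_cast hWm
      have h8 : δ * (4 * (W : ℝ)) ≤
          δ * ((sd (eqv.symm a : Vtx) (eqv.symm b : Vtx) : ℤ) : ℝ) :=
        mul_le_mul_of_nonneg_left h6 hδ.le
      have h9 : δ * (120 * (m : ℝ)) ≤ δ * W := mul_le_mul_of_nonneg_left h7 hδ.le
      refine le_trans ?_ h5
      linarith

theorem many_latN {c C : ℝ} (hc : 0 < c) (hC : 0 < C) (hL : LowA c (1/4)) (hU : TwoUp C (1/4)) :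
    ∃ κ K3 A0 : ℝ, 0 < κ ∧ 1 ≤ K3 ∧ 1 ≤ A0 ∧ ∀ R : Rect, ∃ A : ℝ, 0 < A ∧
      ∀ (kk N : ℕ) (w ρ : ℝ), 20 ≤ kk → 36 ≤ N → 0 < w → 4 * w ≤ 1/2 →
        A0 * (w * Real.exp (2 * (K3 * (kk:ℝ) ^ 2))) ≤ ρ → ∃ δ1 : ℝ, 0 < δ1 ∧
        ∀ δ : ℝ, 0 < δ → δ ≤ δ1 →
          R.prob δ (fun F => (R.curve δ F, R.time δ F) ∈ BadJ R ρ (4 * w)
            (κ * ((kk : ℝ) ^ (1/4 : ℝ) * w ^ (7/4 : ℝ)))
            (A0 * ((w * Real.exp (2 * (K3 * (kk:ℝ) ^ 2))) ^ (7/4 : ℝ) * N)) N) ≤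
            A / w ^ 2 * (1/2) ^ N := by
  obtain ⟨K3, A1, K1, hK3, hA1, hK1, hpr⟩ := many_prN hc hC hL hU
  obtain ⟨κ, hκ⟩ : ∃ κ : ℝ, κ = c / 5 * (1 / 24) ^ (7/4 : ℝ) := ⟨_, rfl⟩
  have hκ0 : 0 < κ := by rw [hκ]; positivity
  obtain ⟨A0, hA0⟩ : ∃ A0 : ℝ, A0 = max A1 (A1 ^ (7/4 : ℝ) * K1 * 98 + 2) := ⟨_, rfl⟩
  have hA01 : A1 ≤ A0 := by rw [hA0]; exact le_max_left _ _
  have hA02 : A1 ^ (7/4 : ℝ) * K1 * 98 + 2 ≤ A0 := by rw [hA0]; exact le_max_right _ _
  refine ⟨κ, K3, A0, hκ0, hK3, hA1.trans hA01, fun R => ?_⟩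
  obtain ⟨κs, S, δs, -, hS, hδs, -, hsh⟩ := R.shape
  refine ⟨20 * (S + 1) ^ 2, by positivity, ?_⟩
  intro kk N w ρ hkk20 hN hw0 hw1 hρ
  obtain ⟨EE, hEE⟩ : ∃ EE : ℝ, EE = Real.exp (2 * (K3 * (kk:ℝ) ^ 2)) := ⟨_, rfl⟩
  have hEE1 : 1 ≤ EE := by rw [hEE]; exact Real.one_le_exp (by positivity)
  have hEE0 : 0 < EE := by linarith
  rw [← hEE] at hρ ⊢
  have hkR : (20 : ℝ) ≤ kk := by exact_mod_cast hkk20
  have hk0 : (0 : ℝ) < kk := by linarith
  have hNR : (36 : ℝ) ≤ N := by exact_mod_cast hN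
  obtain ⟨η, hη⟩ : ∃ η : ℝ, η = c / 5 * (w / 24) ^ (7/4 : ℝ) := ⟨_, rfl⟩
  have hη0 : 0 < η := by rw [hη]; positivity
  obtain ⟨δ2, hδ2, hδ2'⟩ : ∃ δ2 : ℝ, 0 < δ2 ∧ ∀ δ : ℝ, 0 < δ → δ ≤ δ2 → δ ^ (7/4 : ℝ) ≤ η := by
    refine ⟨η ^ (4/7 : ℝ), by positivity, fun δ hδ hle => ?_⟩
    have h2 := Real.rpow_le_rpow hδ.le hle (show (0 : ℝ) ≤ 7/4 by norm_num)
    rw [← Real.rpow_mul hη0.le] at h2
    norm_num at h2
    exact h2
  refine ⟨min (min δs δ2) (w / (240 * kk)), lt_min (lt_min hδs hδ2) (by positivity),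
    fun δ hδ hδ' => ?_⟩
  have hδa : δ ≤ δs := hδ'.trans ((min_le_left _ _).trans (min_le_left _ _))
  have hδb : δ ≤ δ2 := hδ'.trans ((min_le_left _ _).trans (min_le_right _ _))
  have hδc : δ ≤ w / (240 * kk) := hδ'.trans (min_le_right _ _)
  have hδ3 : 240 * kk * δ ≤ w := by
    rw [le_div_iff₀ (by positivity)] at hδc
    linarith
  have hδ4 : 4800 * δ ≤ w := by nlinarith
  have hη2 := hδ2' δ hδ hδb
  obtain ⟨b, hb⟩ : ∃ b : ℕ, b = ⌊w / (12 * δ * kk)⌋₊ := ⟨_, rfl⟩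
  have hb1 : (b : ℝ) ≤ w / (12 * δ * kk) := by rw [hb]; exact Nat.floor_le (by positivity)
  have hb2 : w / (12 * δ * kk) < b + 1 := by rw [hb]; exact Nat.lt_floor_add_one _
  have hb3 : 20 ≤ w / (12 * δ * kk) := by rw [le_div_iff₀ (by positivity)]; linarith
  have hb4 : (19 : ℝ) < b := by linarith
  have hb5 : 1 ≤ b := by
    have : (1 : ℝ) ≤ b := by linarith
    exact_mod_cast this
  rw [le_div_iff₀ (by positivity)] at hb1
  rw [div_lt_iff₀ (by positivity)] at hb2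
  obtain ⟨m, hm⟩ : ∃ m : ℕ, m = b * kk := ⟨_, rfl⟩
  have hmR : (m : ℝ) = b * kk := by rw [hm]; push_cast; ring
  have hm1 : 12 * (m * δ) ≤ w := by rw [hmR]; linarith
  have hm2 : w ≤ 24 * (m * δ) := by
    rw [hmR]
    have : (b : ℝ) + 1 ≤ 2 * b := by linarith
    have h2 : ((b : ℝ) + 1) * (12 * δ * kk) ≤ (2 * b) * (12 * δ * kk) :=
      mul_le_mul_of_nonneg_right this (by positivity)
    linarith
  have hm5 : 5 ≤ m := by
    rw [hm]
    calc 5 ≤ 1 * 20 := by norm_num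
      _ ≤ b * kk := Nat.mul_le_mul hb5 hkk20
  have hm0 : (0 : ℝ) < m := by
    have : 0 < m := by omega
    exact_mod_cast this
  have hmb1 : b * kk ≤ m := by rw [hm]
  have hmb2 : m ≤ 2 * b * kk := by
    rw [hm, mul_assoc]
    omega
  obtain ⟨M, hM⟩ : ∃ M : ℝ, M = 2 * c / 5 * (kk : ℝ) ^ (1/4 : ℝ) * (m : ℝ) ^ (7/4 : ℝ) := ⟨_, rfl⟩
  have hkk4 : 1 ≤ (kk : ℝ) ^ (1/4 : ℝ) := Real.one_le_rpow (by linarith) (by norm_num)
  have hδ7 : 0 < δ ^ (7/4 : ℝ) := Real.rpow_pos_of_pos hδ _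
  have hMδ : 2 * ((kk : ℝ) ^ (1/4 : ℝ) * η) ≤ M * δ ^ (7/4 : ℝ) := by
    have h2 : (w / 24) ^ (7/4 : ℝ) ≤ (m : ℝ) ^ (7/4 : ℝ) * δ ^ (7/4 : ℝ) := by
      rw [← Real.mul_rpow hm0.le hδ.le]
      exact Real.rpow_le_rpow (by positivity) (by linarith) (by norm_num)
    rw [hM, hη]
    have h3 : 0 ≤ 2 * c / 5 * (kk : ℝ) ^ (1/4 : ℝ) := by positivity
    calc 2 * ((kk : ℝ) ^ (1/4 : ℝ) * (c / 5 * (w / 24) ^ (7/4 : ℝ)))
        = (2 * c / 5 * (kk : ℝ) ^ (1/4 : ℝ)) * (w / 24) ^ (7/4 : ℝ) := by ring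
      _ ≤ (2 * c / 5 * (kk : ℝ) ^ (1/4 : ℝ)) * ((m : ℝ) ^ (7/4 : ℝ) * δ ^ (7/4 : ℝ)) :=
          mul_le_mul_of_nonneg_left h2 h3
      _ = _ := by ring
  have hkη : η ≤ (kk : ℝ) ^ (1/4 : ℝ) * η := by nlinarith
  have hM1 : 1 < M := by
    have h2 : 1 * δ ^ (7/4 : ℝ) < M * δ ^ (7/4 : ℝ) := by linarith
    exact lt_of_mul_lt_mul_right h2 hδ7.le
  have hτ : κ * ((kk : ℝ) ^ (1/4 : ℝ) * w ^ (7/4 : ℝ)) ≤ (M - 1) * δ ^ (7/4 : ℝ) := by
    have e : κ * ((kk : ℝ) ^ (1/4 : ℝ) * w ^ (7/4 : ℝ)) = (kk : ℝ) ^ (1/4 : ℝ) * η := by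
      rw [hκ, hη, show w / 24 = 1 / 24 * w by ring, Real.mul_rpow (by norm_num) hw0.le]
      ring
    rw [e]
    linarith
  obtain ⟨W, L, hW, hLm, hWA, hpr2⟩ := hpr m b kk hb5 hmb1 hmb2 hkk20 hm5
  have hWm : 120 * m ≤ W := by
    have h2 : (120 : ℤ) * m ≤ W := by omega
    exact_mod_cast h2
  have hW1 : 1 ≤ W := by omega
  have hW0 : (0 : ℝ) < W := by exact_mod_cast hW1
  have hWL : (W : ℝ) = 2 * (L : ℝ) := by exact_mod_cast hW
  rw [← hEE] at hWA
  have hshape := hsh δ hδ hδa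
  have hok := hshape.ok
  have hbd := hpr2 (R.dm δ) hok N hN
  rw [← hM] at hbd
  have hWδ : (W : ℝ) * δ ≤ A1 * (w * EE) / 12 := by
    have h2 : (W : ℝ) * δ ≤ A1 * (m * EE) * δ := mul_le_mul_of_nonneg_right hWA hδ.le
    have h3 : A1 * (m * EE) * δ = (A1 * EE) * (m * δ) := by ring
    have h4 : (A1 * EE) * (m * δ) ≤ (A1 * EE) * (w / 12) :=
      mul_le_mul_of_nonneg_left (by linarith) (by positivity)
    calc (W : ℝ) * δ ≤ (A1 * EE) * (m * δ) := by linarith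
      _ ≤ (A1 * EE) * (w / 12) := h4
      _ = _ := by ring
  have hwE : w ≤ w * EE := by nlinarith
  have hwE0 : 0 < w * EE := by positivity
  have hAw : w * EE ≤ A1 * (w * EE) := by nlinarith
  have hAw2 : A1 * (w * EE) ≤ A0 * (w * EE) := mul_le_mul_of_nonneg_right hA01 hwE0.le
  refine le_trans (Pr_mono (okq (by norm_num) (by norm_num)) (B := FewN (R.dm δ) L W m N K1 M)
    (fun F hFs hF => ?_)) (hbd.trans ?_)
  · have hmδ : 0 < m * δ := by positivity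
    refine badJ_mesh hδ (by linarith) hw1 (by omega) (by linarith) (by linarith) hWm hM1 hτ hK1
      ?_ ?_ hok
      hFs hF
    · have e : δ * (4 * (L : ℝ)) = 2 * (W * δ) := by rw [hWL]; ring
      rw [e]
      linarith
    · have h2 : (W : ℝ) ^ (7/4 : ℝ) * δ ^ (7/4 : ℝ) ≤ A1 ^ (7/4 : ℝ) * (w * EE) ^ (7/4 : ℝ) := by
        rw [← Real.mul_rpow hW0.le hδ.le, ← Real.mul_rpow (by linarith) hwE0.le]
        exact Real.rpow_le_rpow (by positivity) (by linarith) (by norm_num)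
      have h3 : δ ^ (7/4 : ℝ) ≤ (w * EE) ^ (7/4 : ℝ) :=
        Real.rpow_le_rpow hδ.le (by linarith) (by norm_num)
      have h5 : 0 < (w * EE) ^ (7/4 : ℝ) := by positivity
      calc ((W : ℝ) ^ (7/4 : ℝ) * (K1 * (98 * N)) + 2) * δ ^ (7/4 : ℝ)
          = (W : ℝ) ^ (7/4 : ℝ) * δ ^ (7/4 : ℝ) * (K1 * (98 * N)) + 2 * δ ^ (7/4 : ℝ) := by ring
        _ ≤ A1 ^ (7/4 : ℝ) * (w * EE) ^ (7/4 : ℝ) * (K1 * (98 * N)) +
            2 * (w * EE) ^ (7/4 : ℝ) :=
            add_le_add (mul_le_mul_of_nonneg_right h2 (by positivity)) (by linarith)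
        _ ≤ A1 ^ (7/4 : ℝ) * (w * EE) ^ (7/4 : ℝ) * (K1 * (98 * N)) +
            2 * (w * EE) ^ (7/4 : ℝ) * N := by nlinarith
        _ = (A1 ^ (7/4 : ℝ) * K1 * 98 + 2) * ((w * EE) ^ (7/4 : ℝ) * N) := by ring
        _ ≤ A0 * ((w * EE) ^ (7/4 : ℝ) * N) := mul_le_mul_of_nonneg_right hA02 (by positivity)
  · have h2 := (SB_card hok hW1 hshape.w_le hshape.h_le).1
    have h3 : S / δ / W + 2 ≤ (S + 1) / w := by
      have h4 : S / δ / W ≤ S / (5 * w) := by
        rw [div_div]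
        refine div_le_div_of_nonneg_left hS.le (by positivity) ?_
        have h5 : 120 * (m : ℝ) ≤ W := by exact_mod_cast hWm
        have h6 : δ * (120 * (m : ℝ)) ≤ δ * W := mul_le_mul_of_nonneg_left h5 hδ.le
        linarith
      have h5 : S / (5 * w) ≤ S / w :=
        div_le_div_of_nonneg_left hS.le hw0 (by linarith)
      have h6 : 2 ≤ 1 / w := by rw [le_div_iff₀ hw0]; linarith
      have e : (S + 1) / w = S / w + 1 / w := add_div _ _ _
      linarith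
    have h7 : (0:ℝ) ≤ S / δ / W + 2 := by positivity
    have h4 : ((SB (R.dm δ) W).card : ℝ) ≤ ((S + 1) / w) ^ 2 :=
      h2.trans (pow_le_pow_left₀ h7 h3 2)
    calc ((SB (R.dm δ) W).card : ℝ) * (20 * (1/2) ^ N) ≤ ((S + 1) / w) ^ 2 * (20 * (1/2) ^ N) :=
          mul_le_mul_of_nonneg_right h4 (by positivity)
      _ = 20 * (S + 1) ^ 2 / w ^ 2 * (1/2) ^ N := by rw [div_pow]; ring

end Pool.Agent.V11321.ND
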