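import Pool.Agent.V11321.ND.LimM
import Pool.Agent.Y995.TP.Gen
import Pool.Agent.Y995.TP.LowF

/-!
Slow times: lower bound for the dimension.
-/

set_option autoImplicit false
set_option linter.unusedVariables false

namespace Pool.Agent.V11321.ND

open H974 Finset H342P H984P H984N Pool.Agent.Y995.FS Pool.Agent.Y995.HG Pool.Agent.Y995.TP
open MeasureTheory Filter Topology
open scoped ENNReal NNReal

/-- slow times at scale `w` -/
def Sk (w τ : ℝ) (p : X) : Set ℝ :=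
  Subtype.val '' {u : unitInterval | ∀ y : unitInterval, p.2 * |(y : ℝ) - u| ≤ τ / 4 →
    dist (p.1 y) (p.1 u) ≤ 8 * w}

/-- cells of slow times inside a piece -/
theorem slow_cells {R : Rect} {p : X} (hp : 0 < p.2) {ρ w τ h : ℝ} (hw : 0 < w) (hτ : 0 < τ)
    (hbad : p ∉ BadK R ρ (4 * w) τ h) {a b l : ℝ} (ha : 0 ≤ a) (hab : a ≤ b) (hb : b ≤ 1)
    (hdep : ∀ u : unitInterval, a ≤ u → (u : ℝ) ≤ b → ρ < dep R (p.1 u))
    (hlen : h < p.2 * (b - a)) (hl : 0 < l) {n : ℕ}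
    (hn : (n : ℝ) + 2 ≤ τ / (2 * p.2) / l) :
    ∃ Q : Finset ℕ, Q.card = n ∧ ∀ k ∈ Q, cell l k ⊆ Set.Icc a b ∩ Sk w τ p := by
  obtain ⟨s, hs⟩ : ∃ s : unitInterval, s = ⟨a, ha, hab.trans hb⟩ := ⟨_, rfl⟩
  obtain ⟨t, ht⟩ : ∃ t : unitInterval, t = ⟨b, ha.trans hab, hb⟩ := ⟨_, rfl⟩
  have hsv : (s : ℝ) = a := by rw [hs]
  have htv : (t : ℝ) = b := by rw [ht]
  have hz : ∃ (u v : unitInterval) (z : ℂ), (s ≤ u ∧ u ≤ v ∧ v ≤ t) ∧
      (∀ y : unitInterval, dist (p.1 (max u (min y v))) z ≤ 4 * w) ∧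
      τ ≤ p.2 * ((v : ℝ) - u) := by
    by_contra hcon
    push Not at hcon
    apply hbad
    refine ⟨s, t, fun u h1 h2 => ?_, ?_, fun u v z _ h1 h2 => hcon u v z h1 h2⟩
    · refine hdep u ?_ ?_
      · rw [← hsv]; exact h1
      · rw [← htv]; exact h2
    · rw [hsv, htv]; exact hlen
  obtain ⟨u, v, z, ⟨g1, g2, g3⟩, h1, h2⟩ := hz
  have g1' : (s : ℝ) ≤ u := g1
  have g2' : (u : ℝ) ≤ v := g2
  have g3' : (v : ℝ) ≤ t := g3
  have u0 : (0:ℝ) ≤ u := u.2.1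
  obtain ⟨d, hd⟩ : ∃ d : ℝ, d = (v : ℝ) - u := ⟨_, rfl⟩
  rw [← hd] at h2
  have hd0 : 0 ≤ d := by rw [hd]; linarith
  have hdτ : τ / (2 * p.2) ≤ d / 2 := by
    rw [div_le_iff₀ (by positivity)]; linarith
  obtain ⟨Q, hQc, hQ⟩ := cells_in hl (V := Set.Icc ((u:ℝ) + d / 4) (v - d / 4))
    (a := (u:ℝ) + d / 4) (b := v - d / 4)
    (v := τ / (2 * p.2)) subset_rfl (by positivity) (by
      rw [Real.volume_Icc, ENNReal.toReal_ofReal (by linarith)]
      linarith) n hn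
  refine ⟨Q, hQc, fun k hk x hx => ?_⟩
  have hxuv := (hQ k hk).1 hx
  have a1 := hxuv.1
  have a2 := hxuv.2
  have hxa : a ≤ x := by linarith
  have hxb : x ≤ b := by linarith
  refine ⟨⟨hxa, hxb⟩, ⟨x, ha.trans hxa, hxb.trans hb⟩, fun y hy => ?_, rfl⟩
  obtain ⟨x', hx'⟩ : ∃ x' : unitInterval, x' = ⟨x, ha.trans hxa, hxb.trans hb⟩ := ⟨_, rfl⟩
  rw [← hx'] at hy ⊢
  have hxv : (x' : ℝ) = x := by rw [hx']
  rw [hxv] at hy
  have h3 : |(y:ℝ) - x| ≤ d / 4 := by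
    have : p.2 * |(y:ℝ) - x| ≤ p.2 * (d / 4) := by linarith
    exact le_of_mul_le_mul_left this hp
  rw [abs_le] at h3
  have inb : ∀ y : unitInterval, (u:ℝ) ≤ y → (y:ℝ) ≤ v → dist (p.1 y) z ≤ 4 * w := by
    intro y h4 h5
    have h4' : u ≤ y := h4
    have h5' : y ≤ v := h5
    have h6 := h1 y
    rwa [min_eq_left h5', max_eq_right h4'] at h6
  have t1 := inb y (by linarith [h3.1]) (by linarith [h3.2])
  have t2 := inb x' (by rw [hxv]; linarith) (by rw [hxv]; linarith)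
  have t3 := dist_triangle_right (p.1 y) (p.1 x') z
  linarith

/-- every interval contains many cells of slow times -/
theorem ubi_slow {R : Rect} {p : X} (hp : 0 < p.2) {K A κ q : ℝ} (hK : 1 ≤ K)
    (hA : 0 < A) (hκ : 0 < κ) (hq : 0 < q) (hKq : K * q ^ 2 ≤ 1 / 48) {ρ : ℝ}
    (hbad : ∀ᶠ j : ℕ in atTop, p ∉ BadK R ρ (4 * (1/2) ^ j) (tj κ q j) (hj K A q j))
    {a b : unitInterval} (hdep : ∀ u : unitInterval, a ≤ u → u ≤ b → ρ < dep R (p.1 u)) :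
    Ubi (1 - 24 * (K * q ^ 2)) (fun j => Sk ((1/2) ^ j) (tj κ q j) p) a b := by
  have hKq0 : 0 < K * q ^ 2 := by positivity
  refine ubi_gen a.2.1 (H := fun j => 2 / p.2 * hj K A q j)
    (r := fun j => tj κ q j / (4 * p.2)) (l0 := fun _ => 1)
    (fun j => by have := hj_pos (K := K) (q := q) hA j; positivity)
    (fun j => by have := tj_pos (q := q) hκ j; positivity)
    (fun j => one_pos) (by linarith) (by linarith) ?_ ?_ ?_
  · have := (hj_lim hK hA hq hKq).const_mul (2 / p.2)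
    rwa [mul_zero] at this
  · intro L hL
    filter_upwards [star (κ := κ / 2) hK hA (by positivity) hq hKq (c := 2 / p.2 / L)
      (by positivity)] with j hj'
    refine le_trans (le_of_eq ?_) hj'
    have h1 := tj_pos (q := q) hκ j
    have h2 : tj (κ / 2) q j = tj κ q j / 2 := by unfold tj; ring
    rw [h2]
    congr 2
    · congr 1
      ring
    · field_simp
  · filter_upwards [hbad] with j hj' x y hax hyb hxy l hl _ n hn
    have hh := hj_pos (K := K) (q := q) hA j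
    have hH0 : 0 < 2 / p.2 * hj K A q j := by positivity
    refine slow_cells hp (by positivity) (tj_pos hκ j) hj' (a.2.1.trans hax) (by linarith)
      (hyb.trans b.2.2)
      (fun u hu1 hu2 => hdep u (show (a:ℝ) ≤ u from hax.trans hu1)
        (show (u:ℝ) ≤ b from hu2.trans hyb)) ?_ hl ?_
    · rw [hxy]
      have e : p.2 * (2 / p.2 * hj K A q j) = 2 * hj K A q j := by field_simp
      rw [e]
      linarith
    · refine hn.trans (le_of_eq ?_)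
      congr 1
      field_simp
      ring

theorem low_asC {c C C2 : ℝ} (hc : 0 < c) (hC : 0 < C) (hL : LowA c (1/4)) (hU : TwoUp C (1/4))
    (hC2 : 0 < C2) (hA : AnnUp C2) : ∃ κ K : ℝ, 0 < κ ∧ 1 ≤ K ∧ ∀ q : ℝ, 0 < q →
    K * q ^ 2 ≤ 1 / 48 → ∀ R : Rect, ∀ δ : ℕ → ℝ, (∀ i, 0 < δ i) → Tendsto δ atTop (𝓝 0) →
      ∀ μ : ProbabilityMeasure X, Tendsto (fun i => R.law (δ i)) atTop (𝓝 μ) →
      ∀ᵐ p ∂(μ : Measure X), ∀ s t : unitInterval, s < t →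
        ENNReal.ofReal (1 - 24 * (K * q ^ 2)) ≤ dimH {u : unitInterval | (s ≤ u ∧ u ≤ t) ∧
          ∃ᶠ j : ℕ in atTop, ∀ y : unitInterval, p.2 * |(y : ℝ) - u| ≤ tj κ q j / 4 →
            dist (p.1 y) (p.1 u) ≤ 8 * (1/2) ^ j} := by
  obtain ⟨κ, K, A0, hκ, hK, hA0, hml⟩ := many_latC hc hC hL hU
  have hA00 : 0 < A0 := by linarith
  refine ⟨κ, K, hκ, hK, fun q hq hKq R => ?_⟩
  have hKq0 : 0 < K * q ^ 2 := by positivity
  intro δ hδ hlim μ hμ
  obtain ⟨A, hA1, hb⟩ := hml R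
  obtain ⟨-, -, h3⟩ := final_of hc hC hL hU hC2 hA R
  have hbc := bc R (K := 1) le_rfl (B := fun ρ j => BadK R ρ (4 * (1/2) ^ j) (tj κ q j)
    (hj K A0 q j)) (fun ρ j => badK_open R _ _ _ _)
    (fun ρ hρ => by
      have h1 : ∀ᶠ j : ℕ in atTop, 3 ≤ j ∧
          A0 * (((1:ℝ)/2) ^ j * Real.exp (2 * (K * ((kt q j : ℕ) : ℝ) ^ 2))) ≤ ρ := by
        refine (eventually_ge_atTop 3).and ?_
        have h2 := (wE_lim hK hq hKq).const_mul A0
        rw [mul_zero] at h2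
        exact h2.eventually (ge_mem_nhds hρ)
      rw [eventually_atTop] at h1
      obtain ⟨j1, hj1⟩ := h1
      refine ⟨A, j1, hA1, fun j hj => ?_⟩
      obtain ⟨g1, g3⟩ := hj1 j hj
      have hw1 : 4 * ((1:ℝ)/2) ^ j ≤ 1/2 := by
        have : ((1:ℝ)/2) ^ j ≤ (1/2) ^ 3 := pow_le_pow_of_le_one (by norm_num) (by norm_num) g1
        norm_num at this ⊢
        linarith
      obtain ⟨δ1, hδ1, h4⟩ := hb (kt q j) (6 * j + 36) ((1/2) ^ j) ρ (kt_ge q j)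
        (by omega) (by positivity) hw1 g3
      refine ⟨δ1, hδ1, fun δ hδ hδ' => ?_⟩
      exact (h4 δ hδ hδ').trans (pr_small hA1 j))
    hδ hlim hμ
  filter_upwards [h3 δ hδ hlim μ hμ, hbc] with p g1 g2 s t hst
  obtain ⟨hp0, -, -, hcl, hhol, hdim⟩ := g1
  obtain ⟨a, b, i, e1, e2, e3, e4⟩ := bulk_arc hcl hdim hst
  have hU := ubi_slow hp0 hK hA00 hκ hq hKq (g2 i) e4
  have hcan := cantor (s := 1 - 24 * (K * q ^ 2)) (by linarith) (by linarith) (show (a:ℝ) < b from e2)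
    hU
  refine hcan.trans ?_
  have hsub : {x : ℝ | x ∈ Set.Icc (a:ℝ) b ∧ ∃ᶠ j in atTop, x ∈ Sk ((1/2) ^ j) (tj κ q j) p} ⊆
      Subtype.val '' {u : unitInterval | (s ≤ u ∧ u ≤ t) ∧
          ∃ᶠ j : ℕ in atTop, ∀ y : unitInterval, p.2 * |(y : ℝ) - u| ≤ tj κ q j / 4 →
            dist (p.1 y) (p.1 u) ≤ 8 * (1/2) ^ j} := by
    rintro x ⟨hx1, hx2⟩
    refine ⟨⟨x, a.2.1.trans hx1.1, hx1.2.trans b.2.2⟩, ⟨⟨?_, ?_⟩, ?_⟩, rfl⟩
    · exact e1.trans (show (a : ℝ) ≤ x from hx1.1)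
    · exact le_trans (show x ≤ (b : ℝ) from hx1.2) e3
    · refine hx2.mono fun j hj => ?_
      obtain ⟨v, hv1, hv2⟩ := hj
      have : v = ⟨x, a.2.1.trans hx1.1, hx1.2.trans b.2.2⟩ := Subtype.ext hv2
      rw [← this]
      exact hv1
  refine (dimH_mono hsub).trans (le_of_eq ?_)
  exact isometry_subtype_coe.dimH_image _

end Pool.Agent.V11321.ND
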