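import Pool.Agent.V11321.ND.Tr
import Pool.Agent.Y995.HG.ManyPr

/-!
Long pieces of the path contain a long stay.
-/

set_option autoImplicit false

namespace Pool.Agent.V11321.ND

open H974 Finset H342P H984P H984N TH992.L Y994.MC Y994.MD Pool.Agent.Y995.FS
open Pool.Agent.Y995.HG

/-- Outside the exceptional events a piece of the path is good. -/
theorem one_det {g : (ℕ → Vtx) → ℕ → Prop} (hg : PGood g) {D : Dm} (hD : D.Ok)
    {F : Finset Edg} (hF : F ⊆ D.edges)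
    {R L : ℤ} {W m : ℕ} (hW : (W : ℤ) = 2 * L) (hR : 1 ≤ R) (hRL : 3 * R + 60 * m ≤ L)
    {N0 Nm : ℕ} (hNm : D.len F + 1 ≤ Nm) {k l : ℕ} (hkl : k ≤ l) (hl : l ≤ D.len F)
    (hbd : ∀ t, k ≤ t → t ≤ l → 4 * L ≤ D.bd (D.walk F t).1)
    (hn : ¬ HolesB D W (BdG g R L D) N0 Nm (Y994.MC.bk W (D.walk F k).1) F)
    (hA : 36 ≤ (vb D W F k l).card) (hA2 : N0 ≤ (vb D W F k l).card) :
    g (fun s => (D.walk F (k + s)).1) (l - k) := by
  classical
  have hL0 : 0 < L := by omega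
  have hW1 : 1 ≤ W := by
    have : (0 : ℤ) < W := by omega
    exact_mod_cast this
  have hW' : (1 : ℤ) ≤ W := by exact_mod_cast hW1
  set A := vb D W F k l with hAdef
  set Bb := A.filter (fun q => BdG g R L D q F) with hBd
  set G := A.filter (fun q => ¬ BdG g R L D q F) with hG
  have c2 : Bb.card + G.card = A.card := card_filter_add_card_filter_not _
  have c4 : 4 * Bb.card ≤ max A.card N0 := by
    obtain ⟨c, hc⟩ := pigeon (le_refl Bb.card)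
    by_contra hcon
    push Not at hcon
    apply hn
    obtain ⟨h2, h3⟩ := vb_AS (D := D) (F := F) hW1 hkl
    have h4 := vb_card (D := D) (F := F) (W := W) (k := k) hl
    rw [← hAdef] at h2 h3 h4
    refine ⟨A.card, mem_range.mpr ?_, A, h3, rfl, Bb.filter (fun q => cls q = c), ?_, ⟨?_, ?_, ?_⟩, ?_⟩
    · omega
    · rw [mem_powerset]
      intro q hq
      exact (mem_filter.mp (mem_filter.mp hq).1).1
    · intro q hq r hr
      rw [(mem_filter.mp hq).2, (mem_filter.mp hr).2]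
    · intro q hq
      exact vb_Bks hD hF hW1 (mem_filter.mp (mem_filter.mp hq).1).1
    · omega
    · intro q hq
      exact (mem_filter.mp (mem_filter.mp hq).1).2
  set ql := Y994.MC.bk W (D.walk F l).1 with hql
  set G1 := G \ nb9 ql with hG1
  have c5 : G.card ≤ G1.card + 9 := by
    have h1 := card_le_card_sdiff_add_card (s := G) (t := nb9 ql)
    rw [card_nb9] at h1
    exact h1
  have c6 : 0 < G1.card := by omega
  rw [Finset.card_pos] at c6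
  obtain ⟨q, hq1⟩ := c6
  rw [hG1, mem_sdiff, hG, mem_filter] at hq1
  obtain ⟨⟨hqA, hqB⟩, hqn⟩ := hq1
  rw [hAdef] at hqA
  unfold vb at hqA
  rw [mem_vset] at hqA
  obtain ⟨τ, t1, t2, t3⟩ := hqA
  have hfar : (W:ℤ) ≤ sd (D.walk F τ).1 (D.walk F l).1 := by
    by_contra hcon
    push Not at hcon
    apply hqn
    rw [mem_nb9]
    have h5 := bk_step hW' hcon.le
    rw [t3, ← hql] at h5
    refine le_trans (le_of_eq (H984H.det_sd_comm _ _)) h5
  rw [hW] at t3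
  obtain ⟨t, ht, hgt, -⟩ := good_block hg hR (by omega) (F := F) t2 (hbd τ t1 t2) t3
    (far_of_sd hfar (by omega)) hqB
  refine hg.mono (fun s => (D.walk F (k + s)).1) (τ - k) t (l - k) (by omega) ?_
  have e : (fun s => (fun s => (D.walk F (k + s)).1) (s + (τ - k))) =
      fun s => (D.walk F (τ + s)).1 := by
    funext s
    simp only
    rw [show k + (s + (τ - k)) = τ + s by omega]
  first
  | exact e ▸ hgt
  | (rw [e]; exact hgt)

/-- A long piece in the bulk without a long stay. -/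
def FewC (D : Dm) (L : ℤ) (W m N : ℕ) (K1 M : ℝ) (F : Finset Edg) : Prop :=
  ∃ k l : ℕ, k ≤ l ∧ l ≤ D.len F ∧ (∀ t, k ≤ t → t ≤ l → 4 * L ≤ D.bd (D.walk F t).1) ∧
    (W : ℝ) ^ (7/4 : ℝ) * (K1 * (98 * N)) < ((l - k + 1 : ℕ) : ℝ) ∧
    ¬ gC (18 * m) M (fun s => (D.walk F (k + s)).1) (l - k)

theorem many_prC {c C : ℝ} (hc : 0 < c) (hC : 0 < C) (hL : LowA c (1/4)) (hU : TwoUp C (1/4)) :
    ∃ K3 A1 K1 : ℝ, 1 ≤ K3 ∧ 1 ≤ A1 ∧ 0 < K1 ∧ ∀ m b kk : ℕ, 1 ≤ b → b * kk ≤ m →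
      m ≤ 2 * b * kk → 20 ≤ kk → 5 ≤ m → ∃ (W : ℕ) (L : ℤ), (W : ℤ) = 2 * L ∧ 60 * (m : ℤ) ≤ L ∧
        (W : ℝ) ≤ A1 * (m * Real.exp (2 * (K3 * (kk:ℝ) ^ 2))) ∧
        ∀ D : Dm, D.Ok → ∀ N : ℕ, 36 ≤ N →
          P D.edges (FewC D L W m N K1 (2 * c / 5 * (kk:ℝ) ^ (1/4 : ℝ) * (m : ℝ) ^ (7/4 : ℝ))) ≤
            ((SB D W).card : ℝ) * (20 * (1/2) ^ N) := by
  classical
  obtain ⟨K3, hK3, htr⟩ := slow_trc hc hC hL hU
  obtain ⟨C1, hC1, hlow⟩ := lowG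
  obtain ⟨Γ, hΓ, htri⟩ := trials (η := (1/648) ^ 196) hC1 (by positivity)
  obtain ⟨K1, hK1, hheavy⟩ := heavy_pr hC hU
  refine ⟨K3, 2700 * Γ, K1, hK3, by linarith, hK1, ?_⟩
  intro m b kk hb hbm hm hkk hm5
  obtain ⟨Kt, hKt2, hKt, hbd⟩ := htri (K3 * (kk:ℝ) ^ 2) (by positivity)
  obtain ⟨R, hR⟩ : ∃ R : ℤ, R = 121 * m * Kt + m + 2 := ⟨_, rfl⟩
  obtain ⟨L, hLd⟩ : ∃ L : ℤ, L = 3 * R + 60 * m := ⟨_, rfl⟩
  have hm5z : (5 : ℤ) ≤ m := by exact_mod_cast hm5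
  have hmK : (0 : ℤ) ≤ 121 * m * Kt := by positivity
  have hL0 : 0 < L := by omega
  obtain ⟨W, hWd⟩ : ∃ W : ℕ, W = (2 * L).toNat := ⟨_, rfl⟩
  have hW : (W : ℤ) = 2 * L := by omega
  have hW1 : 1 ≤ W := by omega
  obtain ⟨n, hnd⟩ : ∃ n : ℕ, n = (4 * L).toNat := ⟨_, rfl⟩
  have hn : (n : ℤ) = 4 * L := by omega
  have hm0 : (0 : ℝ) < m := by
    have : 0 < m := by omega
    exact_mod_cast this
  have hm5r : (5 : ℝ) ≤ m := by exact_mod_cast hm5
  have hKt2r : (2 : ℝ) ≤ Kt := by exact_mod_cast hKt2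
  have hmKt : (m : ℝ) * 2 ≤ m * Kt := mul_le_mul_of_nonneg_left hKt2r hm0.le
  have hLr : (L : ℝ) = 363 * (m * Kt) + 63 * m + 6 := by
    rw [hLd, hR]; push_cast; ring
  have hWr : (W : ℝ) = 2 * (L : ℝ) := by exact_mod_cast hW
  have hnr : (n : ℝ) = 4 * (L : ℝ) := by exact_mod_cast hn
  obtain ⟨M, hM⟩ : ∃ M : ℝ, M = 2 * c / 5 * (kk:ℝ) ^ (1/4 : ℝ) * (m : ℝ) ^ (7/4 : ℝ) := ⟨_, rfl⟩
  rw [← hM]
  have hg := gC_good (18 * m) M
  have hlw := hlow (Qc m M) (gC (18 * m) M) hg n m Kt (Real.exp (-(K3 * (kk:ℝ) ^ 2))) R hm5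
    (by omega) (Real.exp_le_one_iff.mpr (by
      have : 0 ≤ K3 * (kk:ℝ) ^ 2 := by positivity
      linarith)) (Qc_loc (by omega)) (Qc_det (by omega))
    (fun b' c' A y0 => by rw [hM]; exact htr m b kk hb hbm hm hkk _ A y0) (by rw [hR])
  have hsmall : C1 * ((n:ℝ) / m + 1) ^ 2 * (1 - Real.exp (-(K3 * (kk:ℝ) ^ 2))) ^ (Kt - 1) ≤
      (1/648) ^ 196 := by
    refine le_trans ?_ hbd
    have h1 : (n:ℝ) / m + 1 ≤ 1710 * Kt := by
      have h2 : (n:ℝ) / m ≤ 1452 * Kt + 257 := by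
        rw [div_le_iff₀ hm0, hnr, hLr]
        nlinarith
      linarith
    have h0 : 0 ≤ (n:ℝ) / m + 1 := by positivity
    have h2 : ((n:ℝ) / m + 1) ^ 2 ≤ (1710 * (Kt : ℝ)) ^ 2 := pow_le_pow_left₀ h0 h1 2
    have h3 : Real.exp (-(K3 * (kk:ℝ) ^ 2)) ≤ 1 := by
      rw [Real.exp_le_one_iff]
      have : 0 ≤ K3 * (kk:ℝ) ^ 2 := by positivity
      linarith
    exact mul_le_mul_of_nonneg_right (mul_le_mul_of_nonneg_left h2 hC1.le)
      (pow_nonneg (by linarith) _)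
  refine ⟨W, L, hW, by omega, ?_, ?_⟩
  · rw [hWr, hLr]
    have h1 : (m : ℝ) * Kt ≤ m * (3 * Γ * Real.exp (2 * (K3 * (kk:ℝ) ^ 2))) :=
      mul_le_mul_of_nonneg_left hKt hm0.le
    calc 2 * (363 * ((m : ℝ) * Kt) + 63 * m + 6) ≤ 900 * (m * Kt) := by nlinarith
      _ ≤ 900 * (m * (3 * Γ * Real.exp (2 * (K3 * (kk:ℝ) ^ 2)))) :=
          mul_le_mul_of_nonneg_left h1 (by norm_num)
      _ = _ := by ring
  · intro D hD N hN
    have hbf : BF D W 0 (BdG (gC (18 * m) M) R L D) :=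
      bdG_BF hg hW hL0 hn hLd (hlw.trans hsmall)
    obtain ⟨Nm, hNm⟩ := len_bdd D
    have hWr0 : (0:ℝ) < (W:ℝ) := by exact_mod_cast hW1
    have hWp : (0:ℝ) < (W:ℝ) ^ (7/4 : ℝ) := Real.rpow_pos_of_pos hWr0 _
    have hdet : ∀ F ⊆ D.edges, FewC D L W m N K1 M F → ∃ q ∈ SB D W,
        Heavy D W K1 N Nm q F ∨ HolesB D W (BdG (gC (18 * m) M) R L D) N Nm q F := by
      intro F hF hfew
      by_contra hcon
      push Not at hcon
      obtain ⟨k, l, hkl, hl, hbulk, hlong, hno⟩ := hfew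
      obtain ⟨hn1, hn2⟩ := hcon _ (bk_SB hD hF hW1 k)
      have hNm' := hNm F hF
      have h1 := up_det hD hF hW1 (K := K1) (N0 := N) hNm' hkl hl hn1
      have h2 : 98 * N < max (vb D W F k l).card N := by
        have h3 := lt_of_lt_of_le hlong h1
        have h4 := lt_of_mul_lt_mul_left h3 hWp.le
        have h5 := lt_of_mul_lt_mul_left h4 hK1.le
        exact_mod_cast h5
      have h3 : 98 * N < (vb D W F k l).card := by omega
      exact hno (one_det hg hD hF hW (by omega : 1 ≤ R) (le_of_eq hLd.symm) hNm' hkl hl hbulk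
        hn2 (by omega) (by omega))
    refine (Pr_mono two_ok hdet).trans ?_
    refine (Pr_exists_le two_ok _ _ _).trans ?_
    refine (sum_le_card_nsmul _ _ (20 * (1/2) ^ N) fun q _ => ?_).trans ?_
    · refine (Pr_or_le two_ok _ _ _).trans ?_
      have h1 := hheavy D W hW1 N Nm q
      have h2 := holesB_pr hW1 hbf N Nm q
      unfold P at h1
      linarith
    · rw [nsmul_eq_mul]

end Pool.Agent.V11321.ND
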