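import Pool.Agent.V11321.ND.LowC
import Pool.Agent.V11321.ND.Mod
import Pool.Agent.Y995.TP.Fin

/-!
Slow times: the dimension.
-/

set_option autoImplicit false
set_option linter.unusedVariables false

namespace Pool.Agent.V11321.ND

open H974 Finset H342P H984P H984N Pool.Agent.Y995.FS Pool.Agent.Y995.HG Pool.Agent.Y995.TP
open MeasureTheory Filter Topology
open scoped ENNReal NNReal

/-- `a`-slow times -/
def Sl (a : ℝ) (p : X) : Set unitInterval :=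
  {u | ∃ᶠ h : ℝ in 𝓝[>] 0, ∀ y : unitInterval, p.2 * |(y : ℝ) - u| ≤ h →
    dist (p.1 y) (p.1 u) ≤ a * gm h}

/-- times inside an `a`-slow window -/
def Slw (a : ℝ) (p : X) : Set unitInterval :=
  {u | ∃ᶠ h : ℝ in 𝓝[>] 0, ∃ s t : unitInterval, (s ≤ u ∧ u ≤ t) ∧ h ≤ p.2 * ((t : ℝ) - s) ∧
    ∀ y : unitInterval, s ≤ y → y ≤ t → dist (p.1 y) (p.1 u) ≤ a * gm h}

theorem gm_tendsto {a : ℝ} (ha : 0 < a) : Tendsto (fun h => a * gm h) (𝓝[>] 0) (𝓝[>] 0) := by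
  rw [tendsto_nhdsWithin_iff]
  constructor
  · rw [Metric.tendsto_nhdsWithin_nhds]
    intro ε hε
    obtain ⟨h0, hh0, hg⟩ := gauge_inv ha hε
    refine ⟨h0, hh0, fun {x} hx hx2 => ?_⟩
    have hx' : (0:ℝ) < x := hx
    rw [Real.dist_eq, sub_zero, abs_of_pos hx'] at hx2
    obtain ⟨e1, e2, -, -⟩ := hg x hx' hx2
    rw [Real.dist_eq, sub_zero, abs_of_pos e1]
    exact e2
  · obtain ⟨h0, hh0, hg⟩ := gauge_inv ha one_pos
    filter_upwards [Ioo_mem_nhdsGT hh0] with h hh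
    exact (hg h hh.1 hh.2).1

theorem slow_slw {a : ℝ} {p : X} (hp : 0 < p.2) : Sl a p ⊆ Slw a p := by
  intro u hu
  have hmin : 0 < p.2 / 2 := by positivity
  refine (hu.and_eventually (Ioo_mem_nhdsGT hmin)).mono ?_
  rintro h ⟨h1, h2, h3⟩
  obtain ⟨d, hd⟩ : ∃ d, d = h / p.2 := ⟨_, rfl⟩
  have hd0 : 0 < d := by rw [hd]; positivity
  have hTd : p.2 * d = h := by rw [hd]; field_simp
  have hd2 : d ≤ 1/2 := by
    rw [hd, div_le_iff₀ hp]; linarith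
  have u0 : (0:ℝ) ≤ u := u.2.1
  have u1 : (u:ℝ) ≤ 1 := u.2.2
  have key : ∀ a' b : unitInterval, (b:ℝ) - a' = d → a' ≤ u → u ≤ b →
      (∀ v : unitInterval, a' ≤ v → v ≤ b → |(v : ℝ) - u| ≤ d) →
      ∃ s t : unitInterval, (s ≤ u ∧ u ≤ t) ∧ h ≤ p.2 * ((t : ℝ) - s) ∧
        ∀ y : unitInterval, s ≤ y → y ≤ t → dist (p.1 y) (p.1 u) ≤ a * gm h := by
    intro a' b hab hau hub hv
    refine ⟨a', b, ⟨hau, hub⟩, by rw [hab, hTd], fun y hy1 hy2 => h1 y ?_⟩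
    have := hv y hy1 hy2
    calc p.2 * |(y : ℝ) - u| ≤ p.2 * d := mul_le_mul_of_nonneg_left this hp.le
      _ = h := hTd
  by_cases hu : (u:ℝ) ≤ 1/2
  · refine key u ⟨u + d, by linarith, by linarith⟩ (by simp) le_rfl
      (show (u:ℝ) ≤ u + d by linarith) ?_
    intro v hv1 hv2
    have a1 : (u:ℝ) ≤ v := hv1
    have a2 : (v:ℝ) ≤ u + d := hv2
    rw [abs_of_nonneg (by linarith)]
    linarith
  · refine key ⟨u - d, by linarith, by linarith⟩ u (by simp)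
      (show (u:ℝ) - d ≤ u by linarith) le_rfl ?_
    intro v hv1 hv2
    have a1 : (u:ℝ) - d ≤ v := hv1
    have a2 : (v:ℝ) ≤ u := hv2
    rw [abs_of_nonpos (by linarith)]
    linarith

theorem slow_thick {a : ℝ} (ha : 0 < a) {p : X} (hp : 0 < p.2) :
    Slw a p ⊆ Th (1 / (2 * a ^ (7/4 : ℝ))) p := by
  intro u hu
  refine (gm_tendsto ha).frequently ?_
  obtain ⟨h0, hh0, hg⟩ := gauge_inv ha one_pos
  refine (hu.and_eventually (Ioo_mem_nhdsGT hh0)).mono ?_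
  rintro h ⟨⟨s, t, ⟨h1, h2⟩, h3, h4⟩, h5, h6⟩
  have hst : (0:ℝ) ≤ (t:ℝ) - s := by
    have h1' : (s:ℝ) ≤ u := h1
    have h2' : (u:ℝ) ≤ t := h2
    linarith
  have h7 : (t : ℝ) - s ≤ (volume {v : unitInterval | dist (p.1 v) (p.1 u) ≤ a * gm h}).toReal := by
    have h8 : volume (Set.Icc s t) ≤
        volume {v : unitInterval | dist (p.1 v) (p.1 u) ≤ a * gm h} :=
      measure_mono fun y hy => h4 y hy.1 hy.2
    have h9 := ENNReal.toReal_mono (measure_ne_top _ _) h8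
    rwa [unitInterval.volume_Icc, ENNReal.toReal_ofReal hst] at h9
  refine le_trans ?_ (h3.trans (mul_le_mul_of_nonneg_left h7 hp.le))
  obtain ⟨-, -, -, e4⟩ := hg h h5 h6
  have two8 : (2:ℝ) ^ (1/8 : ℝ) ≤ 2 := by
    calc (2:ℝ) ^ (1/8 : ℝ) ≤ (2:ℝ) ^ (1 : ℝ) :=
          Real.rpow_le_rpow_of_exponent_le (by norm_num) (by norm_num)
      _ = 2 := Real.rpow_one 2
  have hap : 0 < a ^ (7/4 : ℝ) := by positivity
  calc 1 / (2 * a ^ (7/4 : ℝ)) * ((a * gm h) ^ (7/4 : ℝ) * Real.log (1 / (a * gm h)) ^ (1/8 : ℝ))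
      ≤ 1 / (2 * a ^ (7/4 : ℝ)) * (2 ^ (1/8 : ℝ) * (a ^ (7/4 : ℝ) * h)) :=
        mul_le_mul_of_nonneg_left e4 (by positivity)
    _ ≤ 1 / (2 * a ^ (7/4 : ℝ)) * (2 * (a ^ (7/4 : ℝ) * h)) := by gcongr
    _ = h := by field_simp

theorem slow_of {κ q a : ℝ} (hκ : 0 < κ) (hq : 0 < q) (ha : 0 < a)
    (hqa : (4 / κ) ^ 4 * (16 / a) ^ 7 ≤ q) {p : X} {u : unitInterval}
    (h : ∃ᶠ j : ℕ in atTop, ∀ y : unitInterval, p.2 * |(y : ℝ) - u| ≤ tj κ q j / 4 →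
      dist (p.1 y) (p.1 u) ≤ 8 * (1/2) ^ j) : u ∈ Sl a p := by
  obtain ⟨B, hB⟩ : ∃ B : ℝ, B = κ * q ^ (1/4 : ℝ) / 4 := ⟨_, rfl⟩
  have hB0 : 0 < B := by rw [hB]; positivity
  have hBa : 16 / a ≤ B ^ (4/7 : ℝ) := by
    have h1 : (4 / κ) * (16 / a) ^ (7/4 : ℝ) ≤ q ^ (1/4 : ℝ) := by
      have h2 := Real.rpow_le_rpow (by positivity) hqa (show (0:ℝ) ≤ 1/4 by norm_num)
      rw [Real.mul_rpow (by positivity) (by positivity), ← Real.rpow_natCast (4 / κ) 4,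
        ← Real.rpow_natCast (16 / a) 7, ← Real.rpow_mul (by positivity),
        ← Real.rpow_mul (by positivity)] at h2
      norm_num at h2 ⊢
      exact h2
    have h3 : (16 / a) ^ (7/4 : ℝ) ≤ B := by
      rw [hB, le_div_iff₀ (by norm_num)]
      calc (16 / a) ^ (7/4 : ℝ) * 4 = κ * ((4 / κ) * (16 / a) ^ (7/4 : ℝ)) := by field_simp
        _ ≤ κ * q ^ (1/4 : ℝ) := mul_le_mul_of_nonneg_left h1 hκ.le
    have h4 := Real.rpow_le_rpow (by positivity) h3 (show (0:ℝ) ≤ 4/7 by norm_num)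
    rw [← Real.rpow_mul (by positivity)] at h4
    norm_num at h4 ⊢
    exact h4
  obtain ⟨b, hb⟩ : ∃ b : ℝ, b = |Real.log B| := ⟨_, rfl⟩
  have hb0 : 0 ≤ b := by rw [hb]; exact abs_nonneg _
  have hb1 : Real.log B ≤ b := by rw [hb]; exact le_abs_self _
  have hb2 : -b ≤ Real.log B := by rw [hb]; exact neg_abs_le _
  obtain ⟨H, hH⟩ : ∃ H : ℕ → ℝ, H = fun j : ℕ =>
    B * ((((1:ℝ)/2) ^ j) ^ (7/4 : ℝ) * (j : ℝ) ^ (1/8 : ℝ)) := ⟨_, rfl⟩
  have hHv : ∀ j, H j = B * ((((1:ℝ)/2) ^ j) ^ (7/4 : ℝ) * (j : ℝ) ^ (1/8 : ℝ)) := by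
    intro j; rw [hH]
  have hH0 : ∀ j : ℕ, 1 ≤ j → 0 < H j := by
    intro j hj
    have hj0 : (0:ℝ) < j := by exact_mod_cast hj
    rw [hHv]; positivity
  have hlog : ∀ j : ℕ, 1 ≤ j → Real.log (1 / H j) =
      -Real.log B + 7/4 * (Real.log 2 * j) - 1/8 * Real.log j := by
    intro j hj
    have hj0 : (0:ℝ) < j := by exact_mod_cast hj
    rw [one_div, Real.log_inv, hHv, Real.log_mul hB0.ne' (by positivity),
      Real.log_mul (by positivity) (by positivity), Real.log_rpow (by positivity),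
      Real.log_rpow hj0, half_pow, Real.log_exp]
    ring
  have l1 := Real.log_two_gt_d9
  have l2 := Real.log_two_lt_d9
  have hlow : ∀ j : ℕ, 1 ≤ j → (j : ℝ) - b ≤ Real.log (1 / H j) := by
    intro j hj
    have hj1 : (1:ℝ) ≤ j := by exact_mod_cast hj
    rw [hlog j hj]
    have h1 : Real.log j ≤ j := (Real.log_le_sub_one_of_pos (by linarith)).trans (by linarith)
    nlinarith
  have hup : ∀ j : ℕ, 1 ≤ j → Real.log (1 / H j) ≤ b + 3/2 * j := by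
    intro j hj
    have hj1 : (1:ℝ) ≤ j := by exact_mod_cast hj
    rw [hlog j hj]
    have h1 : 0 ≤ Real.log j := Real.log_nonneg hj1
    nlinarith
  have hlim : Tendsto H atTop (𝓝[>] 0) := by
    rw [tendsto_nhdsWithin_iff]
    constructor
    · have h1 : Tendsto (fun j : ℕ => Real.exp b * (Real.exp (-1)) ^ j) atTop (𝓝 0) := by
        have h2 : Tendsto (fun j : ℕ => (Real.exp (-1)) ^ j) atTop (𝓝 0) :=
          tendsto_pow_atTop_nhds_zero_of_lt_one (Real.exp_nonneg _) (by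
            rw [Real.exp_lt_one_iff]; norm_num)
        have := h2.const_mul (Real.exp b)
        rwa [mul_zero] at this
      refine squeeze_zero' ?_ ?_ h1
      · filter_upwards [eventually_ge_atTop 1] with j hj
        exact (hH0 j hj).le
      · filter_upwards [eventually_ge_atTop 1] with j hj
        have h2 := hlow j hj
        have h3 := hH0 j hj
        rw [one_div, Real.log_inv] at h2
        rw [← Real.exp_nat_mul, ← Real.exp_add, ← Real.exp_log h3]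
        refine Real.exp_le_exp.mpr ?_
        linarith
    · filter_upwards [eventually_ge_atTop 1] with j hj
      exact hH0 j hj
  refine hlim.frequently ?_
  obtain ⟨j1, hj1⟩ := exists_nat_gt (2 * b)
  refine (h.and_eventually (eventually_ge_atTop (j1 + 1))).mono ?_
  rintro j ⟨h1, hj⟩ y hy
  have hj0 : 1 ≤ j := by omega
  have hjR : (1:ℝ) ≤ j := by exact_mod_cast hj0
  have hj0' : (0:ℝ) < j := by linarith
  have hjb : 2 * b < j := by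
    have : (j1 : ℝ) ≤ j := by
      have : j1 ≤ j := by omega
      exact_mod_cast this
    linarith
  obtain ⟨w, hw⟩ : ∃ w : ℝ, w = (1/2) ^ j := ⟨_, rfl⟩
  have hw0 : 0 < w := by rw [hw]; positivity
  have h7 : q ^ (1/4 : ℝ) * (j : ℝ) ^ (1/8 : ℝ) ≤ ((kt q j : ℕ) : ℝ) ^ (1/4 : ℝ) := by
    have h8 := Real.rpow_le_rpow (by positivity) (kt_low q j) (show (0:ℝ) ≤ 1/4 by norm_num)
    rw [Real.mul_rpow hq.le (Real.sqrt_nonneg _), Real.sqrt_eq_rpow,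
      ← Real.rpow_mul (by positivity)] at h8
    norm_num at h8 ⊢
    exact h8
  have hHt : H j ≤ tj κ q j / 4 := by
    rw [hHv, hB]
    unfold tj
    rw [← hw]
    have h8 : κ * (q ^ (1/4 : ℝ) * (j : ℝ) ^ (1/8 : ℝ)) * w ^ (7/4 : ℝ) ≤
        κ * (((kt q j : ℕ) : ℝ) ^ (1/4 : ℝ)) * w ^ (7/4 : ℝ) := by gcongr
    linarith
  have h9 := h1 y (hy.trans hHt)
  refine h9.trans ?_
  rw [← hw]
  have hlp : 0 < Real.log (1 / H j) := by have := hlow j hj0; linarith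
  have hlu : Real.log (1 / H j) ≤ 2 * j := by have := hup j hj0; linarith
  have h10 : (2 * (j:ℝ)) ^ (-(1/14) : ℝ) ≤ Real.log (1 / H j) ^ (-(1/14) : ℝ) :=
    Real.rpow_le_rpow_of_nonpos hlp hlu (by norm_num)
  have h11 : H j ^ (4/7 : ℝ) = B ^ (4/7 : ℝ) * (w * (j:ℝ) ^ (1/14 : ℝ)) := by
    rw [hHv, ← hw, Real.mul_rpow hB0.le (by positivity),
      Real.mul_rpow (by positivity) (by positivity), ← Real.rpow_mul hw0.le,
      ← Real.rpow_mul hj0'.le]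
    norm_num
  have h12 : (1:ℝ)/2 ≤ 2 ^ (-(1/14) : ℝ) := by
    calc (1:ℝ)/2 = 2 ^ (-1 : ℝ) := by rw [Real.rpow_neg_one]; norm_num
      _ ≤ _ := Real.rpow_le_rpow_of_exponent_le (by norm_num) (by norm_num)
  have h13 : (2 * (j:ℝ)) ^ (-(1/14) : ℝ) = 2 ^ (-(1/14) : ℝ) * (j:ℝ) ^ (-(1/14) : ℝ) :=
    Real.mul_rpow (by norm_num) hj0'.le
  have h14 : (j:ℝ) ^ (1/14 : ℝ) * (j:ℝ) ^ (-(1/14) : ℝ) = 1 := by
    rw [← Real.rpow_add hj0']; norm_num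
  have h15 : 16 ≤ a * B ^ (4/7 : ℝ) := by
    rw [div_le_iff₀ ha] at hBa; linarith
  unfold gm
  rw [h11]
  calc 8 * w = 16 * w * (1/2) := by ring
    _ ≤ (a * B ^ (4/7 : ℝ)) * w * 2 ^ (-(1/14) : ℝ) := by gcongr
    _ = a * (B ^ (4/7 : ℝ) * (w * ((j:ℝ) ^ (1/14 : ℝ) * (j:ℝ) ^ (-(1/14) : ℝ))) *
        2 ^ (-(1/14) : ℝ)) := by rw [h14]; ring
    _ = a * (B ^ (4/7 : ℝ) * (w * (j:ℝ) ^ (1/14 : ℝ)) * (2 * (j:ℝ)) ^ (-(1/14) : ℝ)) := by
        rw [h13]; ring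
    _ ≤ _ := by gcongr

/-- The dimension of the slow times. -/
theorem slow_times : ∃ c C a0 : ℝ, 0 < c ∧ 0 < C ∧ 0 < a0 ∧ C / a0 ^ 14 < 1 ∧ ∀ R : Rect,
    (∀ δ : ℕ → ℝ, (∀ i, 0 < δ i) → Tendsto δ atTop (𝓝 0) →
      ∃ φ : ℕ → ℕ, StrictMono φ ∧ ∃ μ : ProbabilityMeasure X,
        Tendsto (fun i => R.law (δ (φ i))) atTop (𝓝 μ)) ∧
    ∀ δ : ℕ → ℝ, (∀ i, 0 < δ i) → Tendsto δ atTop (𝓝 0) → ∀ μ : ProbabilityMeasure X,
      Tendsto (fun i => R.law (δ i)) atTop (𝓝 μ) →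
      ∀ᵐ p ∂(μ : Measure X), 0 < p.2 ∧ (∀ E : Set unitInterval, dimH (p.1 '' E) = 7 / 4 * dimH E) ∧
        ∀ a : ℝ, a0 ≤ a → dimH (Slw a p) ≤ ENNReal.ofReal (1 - c / a ^ 14) ∧
          ∀ s t : unitInterval, s < t →
            ENNReal.ofReal (1 - C / a ^ 14) ≤ dimH (Set.Icc s t ∩ Sl a p) := by
  obtain ⟨⟨c, hc, hL⟩, ⟨C, hC, hU⟩, C2, hC2, hA⟩ := Pool.Agent.Y985.ME.inputs
  obtain ⟨κ, K, hκ, hK, hlow⟩ := low_asC hc hC hL hU hC2 hA
  obtain ⟨c', C', θ0, hc', -, hθ0, -, hth⟩ := thick_times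
  obtain ⟨q0, hq0⟩ : ∃ q0 : ℝ, q0 = 1 / (14 * K) := ⟨_, rfl⟩
  have hq0p : 0 < q0 := by rw [hq0]; positivity
  have hKq0 : K * q0 ^ 2 ≤ 1 / 196 := by
    rw [hq0, div_pow, one_pow, mul_one_div, div_le_div_iff₀ (by positivity) (by norm_num)]
    nlinarith
  obtain ⟨D, hD⟩ : ∃ D : ℝ, D = (4 / κ) ^ 4 * 16 ^ 7 := ⟨_, rfl⟩
  have hD0 : 0 < D := by rw [hD]; positivity
  have hDa : ∀ a : ℝ, 0 < a → (4 / κ) ^ 4 * (16 / a) ^ 7 = D / a ^ 7 := by
    intro a ha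
    rw [hD, div_pow 16 a, mul_div_assoc]
  obtain ⟨a0, ha0⟩ : ∃ a0 : ℝ, a0 = max ((D / q0) ^ (1/7 : ℝ)) ((1 / (2 * θ0)) ^ (4/7 : ℝ)) :=
    ⟨_, rfl⟩
  have ha01 : (D / q0) ^ (1/7 : ℝ) ≤ a0 := by rw [ha0]; exact le_max_left _ _
  have ha02 : (1 / (2 * θ0)) ^ (4/7 : ℝ) ≤ a0 := by rw [ha0]; exact le_max_right _ _
  have ha00 : 0 < a0 := lt_of_lt_of_le (by positivity) ha01
  have hQ : ∀ a : ℝ, a0 ≤ a → D / a ^ 7 ≤ q0 := by
    intro a ha
    have h1 : D / q0 ≤ a ^ 7 := by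
      have h2 := pow_le_pow_left₀ (by positivity) (ha01.trans ha) 7
      rw [← Real.rpow_natCast ((D / q0) ^ (1/7 : ℝ)) 7, ← Real.rpow_mul (by positivity)] at h2
      norm_num at h2
      exact h2
    have ha' : 0 < a := lt_of_lt_of_le ha00 ha
    rw [div_le_iff₀ hq0p] at h1
    rw [div_le_iff₀ (by positivity)]
    linarith
  have hC14 : ∀ a : ℝ, 0 < a → 96 * K * D ^ 2 / a ^ 14 = 96 * (K * (D / a ^ 7) ^ 2) := by
    intro a ha
    rw [div_pow, ← pow_mul]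
    ring
  refine ⟨c' / 256, 96 * K * D ^ 2, a0, by positivity, by positivity, ha00, ?_, fun R => ?_⟩
  · rw [hC14 a0 ha00]
    have h1 : (D / a0 ^ 7) ^ 2 ≤ q0 ^ 2 := pow_le_pow_left₀ (by positivity) (hQ a0 le_rfl) 2
    have h2 := mul_le_mul_of_nonneg_left h1 (show 0 ≤ K by linarith)
    linarith
  refine ⟨(hth R).1, fun δ hδ hlim μ hμ => ?_⟩
  have hlow' : ∀ᵐ p ∂(μ : Measure X), ∀ n : ℕ, ∀ s t : unitInterval, s < t →
      ENNReal.ofReal (1 - 24 * (K * (q0 * (1/2) ^ n) ^ 2)) ≤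
        dimH {u : unitInterval | (s ≤ u ∧ u ≤ t) ∧
          ∃ᶠ j : ℕ in atTop, ∀ y : unitInterval,
            p.2 * |(y : ℝ) - u| ≤ tj κ (q0 * (1/2) ^ n) j / 4 →
              dist (p.1 y) (p.1 u) ≤ 8 * (1/2) ^ j} := by
    rw [ae_all_iff]
    intro n
    refine hlow (q0 * (1/2) ^ n) (by positivity) ?_ R δ hδ hlim μ hμ
    have h4 : ((1:ℝ)/2) ^ n ≤ 1 := pow_le_one₀ (by norm_num) (by norm_num)
    have h5 : (q0 * (1/2) ^ n) ^ 2 ≤ q0 ^ 2 :=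
      pow_le_pow_left₀ (by positivity) (by nlinarith) 2
    have h6 := mul_le_mul_of_nonneg_left h5 (show 0 ≤ K by linarith)
    linarith
  filter_upwards [(hth R).2 δ hδ hlim μ hμ, hlow'] with p g1 g2
  obtain ⟨hp0, hdim, g3⟩ := g1
  refine ⟨hp0, hdim, fun a ha => ⟨?_, fun s t hst => ?_⟩⟩
  · have ha' : 0 < a := lt_of_lt_of_le ha00 ha
    obtain ⟨θ, hθ⟩ : ∃ θ : ℝ, θ = 1 / (2 * a ^ (7/4 : ℝ)) := ⟨_, rfl⟩
    have hap : 0 < a ^ (7/4 : ℝ) := by positivity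
    have hθp : 0 < θ := by rw [hθ]; positivity
    have hθle : θ ≤ θ0 := by
      have h1 : 1 / (2 * θ0) ≤ a ^ (7/4 : ℝ) := by
        have h2 := Real.rpow_le_rpow (by positivity) (ha02.trans ha) (show (0:ℝ) ≤ 7/4 by norm_num)
        rw [← Real.rpow_mul (by positivity)] at h2
        norm_num at h2 ⊢
        exact h2
      rw [div_le_iff₀ (by positivity)] at h1
      rw [hθ, div_le_iff₀ (by positivity)]
      linarith
    have h3 := (g3 θ hθp hθle).1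
    have h4 := slow_thick ha' hp0
    rw [← hθ] at h4
    refine (dimH_mono h4).trans (h3.trans (ENNReal.ofReal_le_ofReal (le_of_eq ?_)))
    have h5 : θ ^ 8 = 1 / 256 * (1 / a ^ 14) := by
      have e : (a ^ (7/4 : ℝ)) ^ 8 = a ^ 14 := by
        rw [← Real.rpow_natCast (a ^ (7/4 : ℝ)) 8, ← Real.rpow_mul ha'.le]
        norm_num
      rw [hθ, div_pow, one_pow, mul_pow, e]
      norm_num
      ring
    rw [h5]
    ring
  · have ha' : 0 < a := lt_of_lt_of_le ha00 ha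
    obtain ⟨n, hn1, hn2⟩ := exists_nat_pow_near_of_lt_one
      (show 0 < D / a ^ 7 / q0 by positivity)
      (by rw [div_le_one hq0p]; exact hQ a ha) (show (0:ℝ) < 1/2 by norm_num) (by norm_num)
    obtain ⟨q, hq⟩ : ∃ q : ℝ, q = q0 * (1/2) ^ n := ⟨_, rfl⟩
    have hq0' : 0 < q := by rw [hq]; positivity
    have hx1 : D / a ^ 7 ≤ q := by
      rw [div_le_iff₀ hq0p] at hn2
      rw [hq]; linarith
    have hx2 : q ≤ 2 * (D / a ^ 7) := by
      rw [lt_div_iff₀ hq0p, pow_succ] at hn1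
      rw [hq]; linarith
    have h4 := g2 n s t hst
    rw [← hq] at h4
    refine le_trans (ENNReal.ofReal_le_ofReal ?_) (h4.trans (dimH_mono ?_))
    · have h5 : q ^ 2 ≤ (2 * (D / a ^ 7)) ^ 2 := pow_le_pow_left₀ hq0'.le hx2 2
      have h6 := mul_le_mul_of_nonneg_left h5 (show 0 ≤ K by linarith)
      rw [hC14 a ha']
      nlinarith
    · rintro u ⟨⟨u1, u2⟩, u3⟩
      refine ⟨⟨u1, u2⟩, slow_of hκ hq0' ha' ?_ u3⟩
      rw [hDa a ha']
      exact hx1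

end Pool.Agent.V11321.ND
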