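import Pool.Agent.V11321.ND.Det3

/-!
The probability of a long stay.
-/

set_option autoImplicit false
set_option linter.unusedVariables false

namespace Pool.Agent.V11321.ND

open H974 Finset H342P H984P H984N TH992.T Pool.Agent.Y995.FS

/-- The probability of the slow trial. -/
theorem slow_trc {c C : ℝ} (hc : 0 < c) (hC : 0 < C) (hL : LowA c (1/4)) (hU : TwoUp C (1/4)) :
    ∃ K3 : ℝ, 1 ≤ K3 ∧ ∀ m b kk : ℕ, 1 ≤ b → b * kk ≤ m → m ≤ 2 * b * kk → 20 ≤ kk →
      ∀ (S : Finset Edg) (A y0 : ℤ),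
        TrQ S A y0 m (Qc m (2 * c / 5 * (kk:ℝ) ^ (1/4 : ℝ) * (m : ℝ) ^ (7/4 : ℝ)))
          (Real.exp (-(K3 * (kk:ℝ) ^ 2))) := by
  classical
  obtain ⟨K, hK, hsl⟩ := slow_R hc hC hL hU
  have hlq : Real.log q0 ≤ 0 := Real.log_nonpos q0_pos.le q0_le
  refine ⟨K + 1 - 12 * Real.log q0, by linarith, ?_⟩
  intro m b kk hb hbm hm hkk S A y0 k F0 X Y T hF0 hk hst hA hBl hent hEk hkE
  have hm1 : 1 ≤ m := by
    have : 1 ≤ b * kk := Nat.mul_pos (by omega) (by omega)
    omega
  have hbm12 : 12 * b ≤ m := by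
    have : 20 * b ≤ b * kk := by rw [Nat.mul_comm 20 b]; exact Nat.mul_le_mul_left _ hkk
    omega
  have hmz : (1 : ℤ) ≤ m := by exact_mod_cast hm1
  have hbz : (1 : ℤ) ≤ b := by exact_mod_cast hb
  have hbmz : 12 * (b : ℤ) ≤ m := by exact_mod_cast hbm12
  obtain ⟨w, hw⟩ : ∃ w : ℝ, w = 2 * c / 5 * (kk:ℝ) ^ (1/4 : ℝ) * (m : ℝ) ^ (7/4 : ℝ) := ⟨_, rfl⟩
  obtain ⟨I, hI⟩ : ∃ I, I = kk / 10 := ⟨_, rfl⟩
  have hI1 : 10 * I ≤ kk := by omega
  have hH : HgtC m b I := by
    unfold HgtC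
    calc 40 * b * I = 4 * (b * (10 * I)) := by ring
      _ ≤ 4 * (b * kk) := Nat.mul_le_mul_left _ (Nat.mul_le_mul_left _ hI1)
      _ ≤ 4 * m := Nat.mul_le_mul_left _ hbm
  have hs := hsl m b kk hb hbm hm hkk X Y
  rw [← hw, ← hI] at hs
  rw [← hw]
  -- fresh edges
  have fresh : ∀ e ∈ Y995.FS.RB X Y m, e ∉ k := by
    intro e he hek
    have h1 := hkE e hek (Y995.FS.RB_Bl he)
    have h2 := (exm_loc hst h1).2.1
    have h3 : X ≤ e.1 := by
      obtain ⟨x, y, _ | _⟩ := e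
      · rw [Y995.FS.RB, mem_RE_false] at he; exact he.1
      · rw [Y995.FS.RB, mem_RE_true] at he; exact he.1
    omega
  have hRB : Y995.FS.RB X Y m ⊆ S \ k := by
    intro e he
    rw [mem_sdiff]
    exact ⟨hBl (Y995.FS.RB_Bl he), fresh e he⟩
  have e1 : Pr (fun _ => (1/2:ℝ)) (S \ k) (NC X Y m b I w) =
      Pr (fun _ => (1/2:ℝ)) (Y995.FS.RB X Y m) (NC X Y m b I w) := by
    refine Pr_local hRB fun F _ => ⟨?_, ?_⟩
    · exact NC_mono (fun e he h => mem_inter.2 ⟨h, EC1_sub hb hbm12 hH he⟩)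
        (fun e _ h => (mem_inter.1 h).1)
        (fun v hv e he h => mem_inter.2 ⟨h, Wc_PR hb hbm12 hH hv he⟩)
        (fun v _ e _ h => (mem_inter.1 h).1)
    · exact NC_mono (fun e _ h => (mem_inter.1 h).1)
        (fun e he h => mem_inter.2 ⟨h, EC2_sub hb hbm12 hH he⟩)
        (fun v _ e _ h => (mem_inter.1 h).1)
        (fun v hv e he h => mem_inter.2 ⟨h, Wc_DR hb hbm12 hH hv he⟩)
  -- rows
  have g1 : ∀ e ∈ EC1 X Y m b I, dl e ∉ HL' X Y m m := by
    intro e he h'
    rw [mem_EC1] at he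
    rcases he with ⟨i, hi, he⟩ | he
    · obtain ⟨h1, h2⟩ := yt_bd (Y := Y) hH hi
      obtain ⟨x, y, _ | _⟩ := e
      · rw [mem_LRE_false] at he
        simp only [HL', dl_f, Finset.mem_union, mem_RE_true] at h'
        omega
      · rw [mem_LRE_true] at he
        simp only [HL', dl_t, Finset.mem_union, mem_RE_false] at h'
        omega
    · obtain ⟨x, y, _ | _⟩ := e
      · rw [mem_TBE_false] at he
        simp only [HL', dl_f, Finset.mem_union, mem_RE_true] at h'
        omega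
      · rw [mem_TBE_true] at he
        simp only [HL', dl_t, Finset.mem_union, mem_RE_false] at h'
        omega
  have g2 : ∀ e ∈ EC2 X Y m b I, e ∉ HL X Y m m := by
    intro e he h'
    rw [mem_EC2] at he
    rcases he with ⟨i, hi, he⟩ | he
    · obtain ⟨h1, h2⟩ := yt_bd (Y := Y) hH hi
      obtain ⟨x, y, _ | _⟩ := e
      · rw [dl_f, mem_LRE_true] at he
        simp only [HL, Finset.mem_union, mem_RE_false] at h'
        omega
      · rw [dl_t, mem_LRE_false] at he
        simp only [HL, Finset.mem_union, mem_RE_true] at h'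
        omega
    · obtain ⟨x, y, _ | _⟩ := e
      · rw [dl_f, mem_TBE_true] at he
        simp only [HL, Finset.mem_union, mem_RE_false] at h'
        omega
      · rw [dl_t, mem_TBE_false] at he
        simp only [HL, Finset.mem_union, mem_RE_true] at h'
        omega
  have g3 : ∀ v ∈ Wc X Y m b I, ∀ e ∈ PR v b, dl e ∉ HL' X Y m m := by
    intro v hv e he h'
    rw [mem_Wc] at hv
    obtain ⟨-, ⟨hv1, hv2⟩, i, hi, hr1, hr2⟩ := hv
    obtain ⟨h3, h4⟩ := yt_bd (Y := Y) hH hi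
    obtain ⟨x, y, _ | _⟩ := e
    · simp only [PR, mem_RE_false] at he
      simp only [HL', dl_f, Finset.mem_union, mem_RE_true] at h'
      omega
    · simp only [PR, mem_RE_true] at he
      simp only [HL', dl_t, Finset.mem_union, mem_RE_false] at h'
      omega
  have g4 : ∀ v ∈ Wc X Y m b I, ∀ e, dl e ∈ DR v b → e ∉ HL X Y m m := by
    intro v hv e he h'
    rw [mem_Wc] at hv
    obtain ⟨-, ⟨hv1, hv2⟩, i, hi, hr1, hr2⟩ := hv
    obtain ⟨h3, h4⟩ := yt_bd (Y := Y) hH hi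
    obtain ⟨x, y, _ | _⟩ := e
    · simp only [DR, dl_f, mem_RE_true] at he
      simp only [HL, Finset.mem_union, mem_RE_false] at h'
      omega
    · simp only [DR, dl_t, mem_RE_false] at he
      simp only [HL, Finset.mem_union, mem_RE_true] at h'
      omega
  have key := trialr (n := 1) (N := NC X Y m b I w) hm1 le_rfl (by omega) hF0 hk hst (by omega)
    hBl hent hEk hkE (by
      intro F G h1 h2
      refine NC_mono ?_ ?_ ?_ ?_
      · intro e he heF
        by_contra hcon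
        exact g1 e he (h1 e heF hcon)
      · intro e he heG
        by_contra hcon
        exact g2 e he (h2 e heG hcon)
      · intro v hv e he heF
        by_contra hcon
        exact g3 v hv e he (h1 e heF hcon)
      · intro v hv e he heG
        by_contra hcon
        exact g4 v hv e he (h2 e heG hcon))
  rw [e1] at key
  refine le_trans ?_ (key.trans (Pr_mono two_ok fun G hG => ?_))
  · have e2 : q0 ^ (2 * 1 + 4) * q0 ^ (2 * 1 + 4) = Real.exp (12 * Real.log q0) := by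
      rw [← pow_add]
      have : 12 * Real.log q0 = ((2 * 1 + 4 + (2 * 1 + 4) : ℕ) : ℝ) * Real.log q0 := by
        push_cast; ring
      rw [this, Real.exp_nat_mul, Real.exp_log q0_pos]
    rw [e2]
    refine le_trans ?_ (mul_le_mul_of_nonneg_left hs (Real.exp_pos _).le)
    rw [← Real.exp_add]
    refine Real.exp_le_exp.mpr ?_
    have hkR : (20 : ℝ) ≤ kk := by exact_mod_cast hkk
    have hZ1 : 1 ≤ (kk:ℝ) ^ 2 := by nlinarith
    nlinarith
  · rintro ⟨⟨hC, hZ⟩, hBL, hBU⟩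
    have hFG : ∀ e ∈ Y995.FS.RB X Y m, (e ∈ G ↔ e ∈ (↑((F0 ∩ k) ∪ G) : Set Edg)) := by
      intro e he
      rw [Finset.mem_coe, mem_union, mem_inter]
      exact ⟨Or.inr, fun h => h.elim (fun h => absurd h.2 (fresh e he)) id⟩
    refine ⟨⟨hBL, hBU⟩, hZ.trans ?_⟩
    have h5 : Zc X Y m b I G = (((Wc X Y m b I).filter (fun v => RA v b ↑G)).card : ℝ) := by
      unfold Zc ind
      rw [Finset.sum_boole]
    rw [h5]
    have h6 : ((Wc X Y m b I).filter (fun v => RA v b ↑G)) ⊆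
        (Wv X Y m).filter (CSeen X Y m (↑((F0 ∩ k) ∪ G))) := by
      intro v hv
      rw [mem_filter, mem_Wc] at hv
      rw [mem_filter]
      exact ⟨hv.1.1, cseen_comb hb hbm12 hH hFG hC.1 hC.2 hv.1.2 hv.2⟩
    exact_mod_cast Finset.card_le_card h6

end Pool.Agent.V11321.ND
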