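import Pool.Agent.Y995.HG.Up2
import Pool.Agent.Y995.TP.Low

/-!
Sets which are rich in all dyadic intervals have full measure limsup.
-/

set_option autoImplicit false
set_option linter.unusedVariables false

namespace Pool.Agent.V11321.ND

open MeasureTheory Filter Topology Pool.Agent.Y995.FS Pool.Agent.Y995.HG Pool.Agent.Y995.TP
open scoped ENNReal

/-- the sets `S i` are rich in the dyadic intervals contained in `I0` -/
structure Rich (S : ℕ → Set unitInterval) (lv dd : ℕ → ℕ) (q : ℕ → ℝ) (i0 : ℕ)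
    (I0 : Set unitInterval) : Prop where
  lv_succ : ∀ i, lv (i + 1) = lv i + dd i
  q_le : ∀ i, i0 ≤ i → q i ≤ 1
  rich : ∀ i, i0 ≤ i → ∀ k < 2 ^ lv i, Dy (lv i) k ⊆ I0 → ∃ Q : Finset ℕ,
    Q ⊆ Finset.Ico (k * 2 ^ dd i) ((k + 1) * 2 ^ dd i) ∧ q i * 2 ^ dd i ≤ (Q.card : ℝ) ∧
      ∀ k' ∈ Q, Dy (lv (i + 1)) k' ⊆ S i

theorem rich_rec {S : ℕ → Set unitInterval} {lv dd : ℕ → ℕ} {q : ℕ → ℝ} {i0 : ℕ}
    {I0 : Set unitInterval} (h : Rich S lv dd q i0 I0) : ∀ m i : ℕ, i0 ≤ i → ∀ k < 2 ^ lv i,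
      Dy (lv i) k ⊆ I0 → volume (Dy (lv i) k ∩ {u | ∀ j < m, u ∉ S (i + j)}) ≤
        ENNReal.ofReal ((∏ j ∈ Finset.range m, (1 - q (i + j))) * (1/2) ^ lv i) := by
  classical
  intro m
  induction m with
  | zero =>
    intro i hi k hk hI
    refine (measure_mono Set.inter_subset_left).trans (le_of_eq ?_)
    rw [Dy_vol (by omega), Finset.range_zero, Finset.prod_empty, one_mul]
  | succ m ih =>
    intro i hi k hk hI
    obtain ⟨Q, hQ1, hQ2, hQ3⟩ := h.rich i hi k hk hI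
    obtain ⟨B, hB⟩ : ∃ B : Finset ℕ, B = Finset.Ico (k * 2 ^ dd i) ((k + 1) * 2 ^ dd i) \ Q :=
      ⟨_, rfl⟩
    have hcov : Dy (lv i) k ∩ {u | ∀ j < m + 1, u ∉ S (i + j)} ⊆
        ⋃ k' ∈ B, Dy (lv (i + 1)) k' ∩ {u | ∀ j < m, u ∉ S (i + 1 + j)} := by
      rintro u ⟨hu1, hu2⟩
      obtain ⟨j, hj, hu3⟩ := Dy_cover (lv i) (dd i) k hu1
      rw [← h.lv_succ] at hu3
      rw [Set.mem_iUnion₂]
      have hnQ : k * 2 ^ dd i + j ∉ Q := by
        intro hmem
        have h1 := hQ3 _ hmem hu3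
        exact hu2 0 (by omega) (by simpa using h1)
      refine ⟨k * 2 ^ dd i + j, ?_, hu3, fun j' hj' => ?_⟩
      · rw [hB, Finset.mem_sdiff, Finset.mem_Ico]
        refine ⟨⟨by omega, ?_⟩, hnQ⟩
        rw [add_mul, one_mul]
        omega
      · have := hu2 (j' + 1) (by omega)
        rwa [show i + (j' + 1) = i + 1 + j' by omega] at this
    obtain ⟨x, hx⟩ : ∃ x : ℝ, x = (∏ j ∈ Finset.range m, (1 - q (i + 1 + j))) *
      (1/2) ^ lv (i + 1) := ⟨_, rfl⟩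
    have hx0 : 0 ≤ x := by
      rw [hx]
      refine mul_nonneg (Finset.prod_nonneg fun j _ => ?_) (by positivity)
      have := h.q_le (i + 1 + j) (by omega)
      linarith
    have hterm : ∀ k' ∈ B, volume (Dy (lv (i + 1)) k' ∩ {u | ∀ j < m, u ∉ S (i + 1 + j)}) ≤
        ENNReal.ofReal x := by
      intro k' hk'
      rw [hB, Finset.mem_sdiff, Finset.mem_Ico, add_mul, one_mul] at hk'
      obtain ⟨j, hj⟩ : ∃ j, k' = k * 2 ^ dd i + j := ⟨k' - k * 2 ^ dd i, by omega⟩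
      have hj2 : j < 2 ^ dd i := by omega
      rw [hx]
      refine ih (i + 1) (by omega) k' ?_ ?_
      · rw [hj, h.lv_succ]
        exact child_lt hk hj2
      · rw [hj, h.lv_succ]
        exact (Dy_sub hj2).trans hI
    have hcard : (B.card : ℝ) ≤ (1 - q i) * 2 ^ dd i := by
      have h1 : B.card = 2 ^ dd i - Q.card := by
        rw [hB, Finset.card_sdiff_of_subset hQ1, Nat.card_Ico, add_mul, one_mul,
          Nat.add_sub_cancel_left]
      have h2 : Q.card ≤ 2 ^ dd i := by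
        have := Finset.card_le_card hQ1
        rw [Nat.card_Ico, add_mul, one_mul, Nat.add_sub_cancel_left] at this
        exact this
      rw [h1, Nat.cast_sub h2]
      push_cast
      linarith
    refine (measure_mono hcov).trans ((measure_biUnion_finset_le _ _).trans ?_)
    refine (Finset.sum_le_sum hterm).trans ?_
    rw [Finset.sum_const, nsmul_eq_mul, ← ENNReal.ofReal_natCast,
      ← ENNReal.ofReal_mul (Nat.cast_nonneg _)]
    refine ENNReal.ofReal_le_ofReal ?_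
    refine (mul_le_mul_of_nonneg_right hcard hx0).trans (le_of_eq ?_)
    rw [hx, Finset.prod_range_succ', h.lv_succ, pow_add]
    have e : ∀ j, i + 1 + j = i + (j + 1) := fun j => by omega
    simp only [e, add_zero]
    have e2 : (2:ℝ) ^ dd i * (1/2) ^ dd i = 1 := by
      rw [← mul_pow]; norm_num
    calc (1 - q i) * 2 ^ dd i * ((∏ j ∈ Finset.range m, (1 - q (i + (j + 1)))) *
          ((1/2) ^ lv i * (1/2) ^ dd i))
        = (∏ j ∈ Finset.range m, (1 - q (i + (j + 1)))) * (1 - q i) * (1/2) ^ lv i *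
          (2 ^ dd i * (1/2) ^ dd i) := by ring
      _ = _ := by rw [e2, mul_one]

theorem rich_null {S : ℕ → Set unitInterval} {lv dd : ℕ → ℕ} {q : ℕ → ℝ} {i0 : ℕ}
    {I0 : Set unitInterval} (h : Rich S lv dd q i0 I0) {a : ℝ} (ha : 0 < a)
    (hq : ∀ i, q i = a / (((Nat.sqrt i : ℕ) : ℝ) + 1)) {i : ℕ} (hi : i0 ≤ i) {k : ℕ}
    (hk : k < 2 ^ lv i) (hI : Dy (lv i) k ⊆ I0) :
    volume (Dy (lv i) k ∩ {u | ∀ j, u ∉ S (i + j)}) = 0 := by
  have h1 := prod_lim (V := fun _ => (1:ℝ)) (B := 1) ha one_pos hq (i := i)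
    (fun j hj => h.q_le j (by omega)) (fun _ => by norm_num) (fun j => by
      have : (1:ℝ) ≤ ((j:ℝ) + 1) ^ 4 := one_le_pow₀ (by
        have : (0:ℝ) ≤ j := Nat.cast_nonneg _
        linarith)
      linarith)
  simp only [mul_one] at h1
  have h2 : Tendsto (fun m => ENNReal.ofReal ((∏ j ∈ Finset.range m, (1 - q (i + j))) *
      (1/2) ^ lv i)) atTop (𝓝 0) := by
    have h3 := h1.mul_const (((1:ℝ)/2) ^ lv i)
    rw [zero_mul] at h3
    have h4 := ENNReal.tendsto_ofReal h3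
    rwa [ENNReal.ofReal_zero] at h4
  have h3 : ∀ m, volume (Dy (lv i) k ∩ {u | ∀ j, u ∉ S (i + j)}) ≤
      ENNReal.ofReal ((∏ j ∈ Finset.range m, (1 - q (i + j))) * (1/2) ^ lv i) := by
    intro m
    refine (measure_mono ?_).trans (rich_rec h m i hi k hk hI)
    rintro u ⟨hu1, hu2⟩
    exact ⟨hu1, fun j _ => hu2 j⟩
  exact le_antisymm (ge_of_tendsto' h2 h3) bot_le

theorem rich_ae {S : ℕ → Set unitInterval} {lv dd : ℕ → ℕ} {q : ℕ → ℝ} {i0 : ℕ}
    {I0 : Set unitInterval} (h : Rich S lv dd q i0 I0) {a : ℝ} (ha : 0 < a)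
    (hq : ∀ i, q i = a / (((Nat.sqrt i : ℕ) : ℝ) + 1)) (hI : IsOpen I0)
    (hlv : Tendsto lv atTop atTop) : ∀ᵐ u : unitInterval, u ∈ I0 → ∃ᶠ i in atTop, u ∈ S i := by
  rw [ae_iff]
  have hsub : {u : unitInterval | ¬ (u ∈ I0 → ∃ᶠ i in atTop, u ∈ S i)} ⊆
      ⋃ i : ℕ, ⋃ k : ℕ, ⋃ _ : i0 ≤ i ∧ k < 2 ^ lv i ∧ Dy (lv i) k ⊆ I0,
        Dy (lv i) k ∩ {u | ∀ j, u ∉ S (i + j)} := by
    intro u hu
    simp only [Set.mem_ofPred_eq, Classical.not_imp] at hu
    obtain ⟨hu1, hu2⟩ := hu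
    rw [not_frequently, eventually_atTop] at hu2
    obtain ⟨i1, hi1⟩ := hu2
    obtain ⟨ε, hε, hball⟩ := Metric.isOpen_iff.1 hI u hu1
    have h1 : Tendsto (fun i => ((1:ℝ)/2) ^ lv i) atTop (𝓝 0) :=
      (tendsto_pow_atTop_nhds_zero_of_lt_one (by norm_num) (by norm_num)).comp hlv
    obtain ⟨i, hi2, hi3⟩ := ((h1.eventually (gt_mem_nhds hε)).and
      (eventually_ge_atTop (max i0 i1))).exists
    obtain ⟨k, hk, hku⟩ := Dy_all (lv i) u
    simp only [Set.mem_iUnion]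
    refine ⟨i, k, ⟨(le_max_left _ _).trans hi3, hk, ?_⟩, hku, fun j => ?_⟩
    · intro y hy
      refine hball ?_
      rw [Metric.mem_ball, Subtype.dist_eq, Real.dist_eq]
      exact lt_of_le_of_lt (Dy_dist hy hku) hi2
    · exact hi1 (i + j) (by have := (le_max_right i0 i1).trans hi3; omega)
  refine measure_mono_null hsub ?_
  refine measure_iUnion_null fun i => measure_iUnion_null fun k => measure_iUnion_null fun hk => ?_
  exact rich_null h ha hq hk.1 hk.2.1 hk.2.2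

/-- cells of slow times from separated stays -/
theorem rich_of {f : C(unitInterval, ℂ)} {T τ w : ℝ} (hT : 0 < T) (hτ : 0 < τ) (hw : 0 < w)
    {n d k N : ℕ} {s t : unitInterval} (hs : (s : ℝ) = k * (1/2) ^ n)
    (ht : (t : ℝ) = (k + 1) * (1/2) ^ n)
    {u v : Fin N → unitInterval} {z : Fin N → ℂ} (hz : ∀ a b, a ≠ b → 3 * w ≤ dist (z a) (z b))
    (hst : ∀ a, (s ≤ u a ∧ u a ≤ v a ∧ v a ≤ t) ∧
        (∀ y : unitInterval, dist (f (max (u a) (min y (v a)))) (z a) ≤ w) ∧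
        τ ≤ T * ((v a : ℝ) - (u a : ℝ))) {c0 : ℕ}
    (hc0 : (c0 : ℝ) + 2 ≤ τ / (2 * T) / (1/2) ^ (n + d)) :
    ∃ Q : Finset ℕ, Q ⊆ Finset.Ico (k * 2 ^ d) ((k + 1) * 2 ^ d) ∧ Q.card = N * c0 ∧
      ∀ k' ∈ Q, Dy (n + d) k' ⊆ {x | ∀ y : unitInterval, T * |(y : ℝ) - x| ≤ τ / 4 →
        dist (f y) (f x) ≤ 2 * w} := by
  classical
  obtain ⟨l, hl⟩ : ∃ l : ℝ, l = (1/2) ^ (n + d) := ⟨_, rfl⟩
  have hl0 : 0 < l := by rw [hl]; positivity
  have hl2 : l * 2 ^ (n + d) = 1 := by rw [hl, ← mul_pow]; norm_num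
  rw [← hl] at hc0
  have key : ∀ a : Fin N, ∃ Q : Finset ℕ, Q.card = c0 ∧ ∀ k' ∈ Q,
      cell l k' ⊆ Set.Icc ((u a : ℝ) + ((v a : ℝ) - u a) / 4) ((v a : ℝ) - ((v a : ℝ) - u a) / 4) := by
    intro a
    obtain ⟨⟨h1, h2, h3⟩, -, h5⟩ := hst a
    have h2' : (u a : ℝ) ≤ v a := h2
    have u0 : (0:ℝ) ≤ u a := (u a).2.1
    have hdτ : τ / (2 * T) ≤ ((v a : ℝ) - u a) / 2 := by
      rw [div_le_iff₀ (by positivity)]; linarith
    obtain ⟨Q, hQc, hQ⟩ := cells_in hl0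
      (V := Set.Icc ((u a : ℝ) + ((v a : ℝ) - u a) / 4) ((v a : ℝ) - ((v a : ℝ) - u a) / 4))
      (v := τ / (2 * T)) subset_rfl (by linarith) (by
        rw [Real.volume_Icc, ENNReal.toReal_ofReal (by linarith)]
        linarith) c0 hc0
    exact ⟨Q, hQc, fun k' hk' => (hQ k' hk').1⟩
  choose Q hQc hQ using key
  have inb : ∀ a : Fin N, ∀ y : unitInterval, u a ≤ y → y ≤ v a → dist (f y) (z a) ≤ w := by
    intro a y h4 h5
    have h6 := (hst a).2.1 y
    rwa [min_eq_left h5, max_eq_right h4] at h6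
  -- a cell lies in the stay
  have hcell : ∀ a : Fin N, ∀ k' ∈ Q a, ∀ x : unitInterval, (x : ℝ) ∈ cell l k' →
      (u a : ℝ) + ((v a : ℝ) - u a) / 4 ≤ x ∧ (x : ℝ) ≤ (v a : ℝ) - ((v a : ℝ) - u a) / 4 := by
    intro a k' hk' x hx
    exact hQ a k' hk' hx
  have hmemL : ∀ k' : ℕ, (k' : ℝ) * l ∈ cell l k' := by
    intro k'
    unfold cell
    constructor
    · exact le_rfl
    · nlinarith
  have hmemR : ∀ k' : ℕ, ((k' : ℝ) + 1) * l ∈ cell l k' := by
    intro k'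
    unfold cell
    constructor
    · nlinarith
    · exact le_rfl
  refine ⟨Finset.univ.biUnion Q, ?_, ?_, ?_⟩
  · intro k' hk'
    rw [Finset.mem_biUnion] at hk'
    obtain ⟨a, -, hk'⟩ := hk'
    obtain ⟨⟨h1, h2, h3⟩, -, h5⟩ := hst a
    have h1' : (s : ℝ) ≤ u a := h1
    have h2' : (u a : ℝ) ≤ v a := h2
    have h3' : (v a : ℝ) ≤ t := h3
    have g1 := (hQ a k' hk' (hmemL k')).1
    have g2 := (hQ a k' hk' (hmemR k')).2
    have hn2 : ((1:ℝ)/2) ^ n = l * 2 ^ d := by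
      have : ((1:ℝ)/2) ^ d * 2 ^ d = 1 := by rw [← mul_pow]; norm_num
      rw [hl, pow_add, mul_assoc, this, mul_one]
    rw [Finset.mem_Ico]
    constructor
    · have h6 : (k : ℝ) * (l * 2 ^ d) ≤ k' * l := by rw [← hn2, ← hs]; linarith
      have h7 : ((k : ℝ) * 2 ^ d) * l ≤ k' * l := by linarith
      have h8 := le_of_mul_le_mul_right h7 hl0
      exact_mod_cast h8
    · have h6 : ((k' : ℝ) + 1) * l ≤ (k + 1) * (l * 2 ^ d) := by rw [← hn2, ← ht]; linarith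
      have h7 : ((k' : ℝ) + 1) * l ≤ ((k + 1) * 2 ^ d) * l := by linarith
      have h8 := le_of_mul_le_mul_right h7 hl0
      have h9 : k' + 1 ≤ (k + 1) * 2 ^ d := by exact_mod_cast h8
      omega
  · rw [Finset.card_biUnion]
    · simp only [hQc, Finset.sum_const, Finset.card_univ, Fintype.card_fin, smul_eq_mul]
    · intro a _ b _ hab
      show Disjoint (Q a) (Q b)
      rw [Finset.disjoint_left]
      intro k' hka hkb
      obtain ⟨⟨h1, h2, h3⟩, -, h5⟩ := hst a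
      have h2' : (u a : ℝ) ≤ v a := h2
      obtain ⟨⟨h1b, h2b, h3b⟩, -, h5b⟩ := hst b
      have h2b' : (u b : ℝ) ≤ v b := h2b
      have ga := hQ a k' hka (hmemL k')
      have gb := hQ b k' hkb (hmemL k')
      have u0 : (0:ℝ) ≤ u a := (u a).2.1
      have v1 : (v a : ℝ) ≤ 1 := (v a).2.2
      obtain ⟨x, hx⟩ : ∃ x : unitInterval, (x : ℝ) = k' * l :=
        ⟨⟨k' * l, by linarith [ga.1], by linarith [ga.2]⟩, rfl⟩
      have c1 := inb a x (show (u a : ℝ) ≤ x by rw [hx]; linarith [ga.1])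
        (show (x : ℝ) ≤ v a by rw [hx]; linarith [ga.2])
      have c2 := inb b x (show (u b : ℝ) ≤ x by rw [hx]; linarith [gb.1])
        (show (x : ℝ) ≤ v b by rw [hx]; linarith [gb.2])
      have c3 := hz a b hab
      have c4 := dist_triangle_left (z a) (z b) (f x)
      linarith
  · intro k' hk' x hx y hy
    rw [Finset.mem_biUnion] at hk'
    obtain ⟨a, -, hk'⟩ := hk'
    have hxc : (x : ℝ) ∈ cell l k' := by
      obtain ⟨g1, g2⟩ := hx
      have e : (x : ℝ) = x * 2 ^ (n + d) * l := by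
        rw [mul_assoc, mul_comm (2 ^ (n + d)) l, hl2, mul_one]
      unfold cell
      rw [e]
      exact ⟨mul_le_mul_of_nonneg_right g1 hl0.le, mul_le_mul_of_nonneg_right g2 hl0.le⟩
    have gm' := hcell a k' hk' x hxc
    obtain ⟨⟨h1, h2, h3⟩, -, h5⟩ := hst a
    have h2' : (u a : ℝ) ≤ v a := h2
    have h6 : |(y:ℝ) - x| ≤ ((v a : ℝ) - u a) / 4 := by
      have : T * |(y:ℝ) - x| ≤ T * (((v a : ℝ) - u a) / 4) := by linarith
      exact le_of_mul_le_mul_left this hT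
    rw [abs_le] at h6
    have c1 := inb a y (show (u a : ℝ) ≤ y by linarith [gm'.1, h6.1])
      (show (y : ℝ) ≤ v a by linarith [gm'.2, h6.2])
    have c2 := inb a x (show (u a : ℝ) ≤ x by linarith [gm'.1])
      (show (x : ℝ) ≤ v a by linarith [gm'.2])
    have c3 := dist_triangle_right (f y) (f x) (z a)
    linarith

end Pool.Agent.V11321.ND
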