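import Pool.Agent.V11321.ND.Hook

/-!
The trial with hooks cut at the column `X + 50 m`.
-/

set_option autoImplicit false

namespace Pool.Agent.V11321.ND

open H974 Finset H342P H984P TH992.T Pool.Agent.Y995.FS

theorem LSr_sub {X Y : ℤ} {a m : ℕ} : LSr X Y a m ⊆ HRL X Y a m := by
  rintro ⟨x, y, _ | _⟩ h
  · simp only [LSr, mem_LRE_false] at h
    simp only [HRL, HL, Finset.mem_filter, Finset.mem_union, mem_RE_false]
    omega
  · simp only [LSr, mem_LRE_true] at h
    simp only [HRL, HL, Finset.mem_filter, Finset.mem_union, mem_RE_true]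
    omega

theorem LSr_loc {X Y : ℤ} {a m : ℕ} {e : Edg} (h : e ∈ LSr X Y a m) :
    X ≤ (src e).1 ∧ (src e).2 ≤ Y ∧ X ≤ (tgt e).1 ∧ (tgt e).2 ≤ Y ∧ X ≤ e.1 := by
  obtain ⟨x, y, _ | _⟩ := e
  · simp only [LSr, mem_LRE_false] at h
    simp only [src_mk, tgt_false]
    omega
  · simp only [LSr, mem_LRE_true] at h
    simp only [src_mk, tgt_true]
    omega

theorem USr_sub {X Y : ℤ} {a m : ℕ} : USr X Y a m ⊆ HRU X Y a m := by
  rintro ⟨x, y, _ | _⟩ h
  · simp only [USr, mem_LRE_false] at h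
    simp only [HRU, HL', Finset.mem_filter, Finset.mem_union, mem_RE_false, dls_f]
    omega
  · simp only [USr, mem_LRE_true] at h
    simp only [HRU, HL', Finset.mem_filter, Finset.mem_union, mem_RE_true, dls_t]
    omega

theorem USr_loc {X Y : ℤ} {a m : ℕ} {e : Edg} (h : dl e ∈ USr X Y a m) :
    X ≤ (dsrc e).1 ∧ Y ≤ (dsrc e).2 ∧ X ≤ (dtgt e).1 ∧ Y ≤ (dtgt e).2 ∧ X ≤ e.1 := by
  obtain ⟨x, y, _ | _⟩ := e
  · simp only [USr, dl_f, mem_LRE_true] at h
    simp only [dsrc_false, dtgt_mk]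
    omega
  · simp only [USr, dl_t, mem_LRE_false] at h
    simp only [dsrc_true, dtgt_mk]
    omega

theorem LEr_mono {X Y : ℤ} {a m : ℕ} {L : Set Vtx} {Tp Tp' F G : Set Edg}
    (h1 : ∀ e ∈ LSr X Y a m, e ∈ F → e ∈ G) (h2 : ∀ e ∈ Tp, e ∈ F → e ∈ G ∧ e ∈ Tp')
    (h : LEr X Y a m L Tp F) : LEr X Y a m L Tp' G := by
  obtain ⟨yb, yc, hb, hc, hr, c, hcL, hr'⟩ := h
  refine ⟨yb, yc, hb, hc, hr.mono ?_, c, hcL, hr'.mono ?_⟩
  · rintro e ⟨he, he'⟩
    exact ⟨h1 e he' he, he'⟩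
  · rintro e ⟨he, he'⟩
    exact h2 e he' he

theorem UEr_mono {X Y : ℤ} {a m : ℕ} {R : Set Vtx} {Tm Tm' F G : Set Edg}
    (h1 : ∀ e, dl e ∈ USr X Y a m → e ∈ G → e ∈ F) (h2 : ∀ e ∈ Tm, e ∈ G → e ∈ F)
    (h3 : Tm ⊆ Tm') (h : UEr X Y a m R Tm F) : UEr X Y a m R Tm' G := by
  obtain ⟨yb, yc, hb, hc, hr, c, hcL, hr'⟩ := h
  refine ⟨yb, yc, hb, hc, hr.mono ?_, c, hcL, hr'.mono ?_⟩
  · rintro e ⟨he, he'⟩
    exact ⟨he, fun h => he' (h1 e he h)⟩
  · rintro e ⟨he, he'⟩
    exact ⟨h3 he, fun h => he' (h2 e he h)⟩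

/-- The lower strip is crossed and connected to the strand. -/
def BaseLr (A y0 X Y : ℤ) (T a m : ℕ) (F : Set Edg) : Prop :=
  LEr X Y a m {v | ∃ s ≤ T, (orb F (st0 A y0) s).1 = v} ↑(HRL X Y a m) F

/-- The upper strip is crossed and connected to the strand. -/
def BaseUr (A y0 X Y : ℤ) (T a m : ℕ) (F : Set Edg) : Prop :=
  UEr X Y a m {f | ∃ s ≤ T, face (orb F (st0 A y0) s) = f} (dE (HRU X Y a m)) F

/-- The probability of success of a trial at the tip of a strand. -/
theorem trialr {S k F0 : Finset Edg} {A y0 X Y : ℤ} {T a m n : ℕ} {N : Finset Edg → Prop}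
    (ha : 1 ≤ a) (ham : a ≤ m) (hn : 2 * m ≤ a * (n + 1)) (hF0 : F0 ⊆ S) (hk : k ⊆ S)
    (hst : Strand (↑F0 : Set Edg) A y0 X Y T) (hA : A ≤ X - 9 * a) (hBl : Bl X Y m ⊆ S)
    (hent : ((A - 1, y0, true) : Edg) ∈ k) (hEk : Exm (↑F0) (st0 A y0) T ⊆ k)
    (hkE : ∀ e ∈ k, e ∈ Bl X Y m → e ∈ Exm (↑F0) (st0 A y0) T)
    (hN : ∀ F G : Finset Edg, (∀ e ∈ F, e ∉ G → dl e ∈ HL' X Y a m) →
      (∀ e ∈ G, e ∉ F → e ∈ HL X Y a m) → N F → N G) :
    q0 ^ (2 * n + 4) * q0 ^ (2 * n + 4) * Pr (fun _ => (1/2:ℝ)) (S \ k) N ≤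
      Pr (fun _ => (1/2:ℝ)) (S \ k) (fun G => N G ∧
        (BaseLr A y0 X Y T a m (↑((F0 ∩ k) ∪ G)) ∧ BaseUr A y0 X Y T a m (↑((F0 ∩ k) ∪ G)))) := by
  classical
  have ok_half : Ok (fun _ : Edg => (1/2:ℝ)) := fun _ => ⟨by norm_num, by norm_num⟩
  have hpr := pr_hookm ha ham hn hBl
  have ha' : (1 : ℤ) ≤ a := by exact_mod_cast ha
  obtain ⟨hv, hf, hS⟩ := side_exists hst
  -- edges of the block which are not examined are fresh
  have fresh : ∀ e, e ∈ Bl X Y m → e ∉ Exm (↑F0) (st0 A y0) T → e ∈ S \ k := by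
    intro e he he'
    rw [Finset.mem_sdiff]
    exact ⟨hBl he, fun h => he' (hkE e h he)⟩
  have notEx : ∀ e : Edg, X ≤ e.1 → e ∉ Exm (↑F0) (st0 A y0) T := by
    intro e he h
    have := (exm_loc hst h).2.1
    omega
  set D := S \ k with hD
  set TL := TLr (↑F0) A y0 X Y T a m hv with hTL
  set TU := TUr (↑F0) A y0 X Y T a m hf with hTU
  have TL_D : ∀ e ∈ TL, e ∈ D := fun e he => fresh e (HL_sub ha ham (HRL_mem he.1).1) he.2.1
  have TU_D : ∀ e ∈ TU, e ∈ D := fun e he => fresh e (dHL_sub ha ham (HRU_mem he.1).1) he.2.1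
  have LS_TL : ∀ e ∈ LSr X Y a m, e ∈ TL := by
    intro e he
    obtain ⟨h1, h2, h3, h4, h5⟩ := LSr_loc he
    refine ⟨LSr_sub he, notEx e h5, ?_, ?_⟩
    · exact (hS.rightv (src e).1 (src e).2 h1).2 h2
    · exact (hS.rightv (tgt e).1 (tgt e).2 h3).2 h4
  have US_TU : ∀ e, dl e ∈ USr X Y a m → e ∈ TU := by
    intro e he
    obtain ⟨h1, h2, h3, h4, h5⟩ := USr_loc he
    refine ⟨USr_sub he, notEx e h5, ?_, ?_⟩
    · exact (hS.rightf (dsrc e).1 (dsrc e).2 h1).2 h2
    · exact (hS.rightf (dtgt e).1 (dtgt e).2 h3).2 h4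
  set T1 := D.filter (fun e => e ∈ TL) with hT1
  set T2 := D.filter (fun e => e ∈ TU) with hT2
  have mT1 : ∀ e, e ∈ T1 ↔ e ∈ TL := by
    intro e
    rw [hT1, Finset.mem_filter]
    exact ⟨fun h => h.2, fun h => ⟨TL_D e h, h⟩⟩
  have mT2 : ∀ e, e ∈ T2 ↔ e ∈ TU := by
    intro e
    rw [hT2, Finset.mem_filter]
    exact ⟨fun h => h.2, fun h => ⟨TU_D e h, h⟩⟩
  have hdisj : Disjoint T1 T2 := by
    rw [Finset.disjoint_left]
    intro e h1 h2
    rw [mT1] at h1
    rw [mT2] at h2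
    obtain ⟨h1a, h1b, h1c, h1d⟩ := h1
    obtain ⟨h2a, h2b, h2c, h2d⟩ := h2
    have hAe : A ≤ e.1 := by
      have := HL_ge (HRL_mem h1a).1
      omega
    by_cases hray : X ≤ e.1 ∧ e.2.1 = Y
    · obtain ⟨x, y, _ | _⟩ := e
      · simp only at hray
        rw [tgt_false] at h1d
        have := (hS.rightv x (y + 1) hray.1).1 h1d
        omega
      · simp only at hray
        rw [dsrc_true] at h2c
        have := (hS.rightf x (y - 1) hray.1).1 h2c
        omega
    · obtain ⟨_, _, h3⟩ := hS.free e h1b hAe hray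
      rw [h1c, h2d] at h3
      exact absurd h3 (by decide)
  set Lst : Set Vtx := {v | ∃ s ≤ T, (orb (↑F0) (st0 A y0) s).1 = v} with hLst
  set Rst : Set Vtx := {f | ∃ s ≤ T, face (orb (↑F0) (st0 A y0) s) = f} with hRst
  have key := harris_signed (p := fun _ : Edg => (1/2:ℝ)) ok_half (S := D) (T₁ := T1) (T₂ := T2)
    (Finset.filter_subset _ _) (Finset.filter_subset _ _) hdisj
    (N := N)
    (f := fun G => LEr X Y a m Lst TL (↑G : Set Edg))
    (g := fun G => UEr X Y a m Rst TU (↑G : Set Edg))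
    (by
      intro F _
      constructor
      · apply LEr_mono
        · intro e he heF
          rw [Finset.mem_coe, Finset.mem_inter]
          exact ⟨heF, (mT1 e).2 (LS_TL e he)⟩
        · intro e he heF
          rw [Finset.mem_coe, Finset.mem_inter]
          exact ⟨⟨heF, (mT1 e).2 he⟩, he⟩
      · apply LEr_mono
        · intro e _ heF
          rw [Finset.mem_coe, Finset.mem_inter] at heF
          exact heF.1
        · intro e he heF
          rw [Finset.mem_coe, Finset.mem_inter] at heF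
          exact ⟨heF.1, he⟩)
    (by
      intro F G hFG
      apply LEr_mono
      · intro e _ heF
        exact hFG heF
      · intro e he heF
        exact ⟨hFG heF, he⟩)
    (by
      intro F _
      constructor
      · refine UEr_mono ?_ ?_ (subset_refl _)
        · intro e _ heF
          rw [Finset.mem_coe, Finset.mem_inter] at heF
          exact heF.1
        · intro e _ heF
          rw [Finset.mem_coe, Finset.mem_inter] at heF
          exact heF.1
      · refine UEr_mono ?_ ?_ (subset_refl _)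
        · intro e he heF
          rw [Finset.mem_coe, Finset.mem_inter]
          exact ⟨heF, (mT2 e).2 (US_TU e he)⟩
        · intro e he heF
          rw [Finset.mem_coe, Finset.mem_inter]
          exact ⟨heF, (mT2 e).2 he⟩)
    (by
      intro F G hFG
      refine UEr_mono ?_ ?_ (subset_refl _)
      · intro e _ heF
        exact hFG heF
      · intro e _ heF
        exact hFG heF)
    (by
      intro F G _ _ hout h1 h2 hNF
      refine hN F G ?_ ?_ hNF
      · intro e heF heG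
        by_contra hcon
        have hn2 : e ∉ T2 := fun h => hcon (HRU_mem ((mT2 e).1 h).1).1
        by_cases hn1 : e ∈ T1
        · exact heG (Finset.mem_inter.1 (h1 (Finset.mem_inter.2 ⟨heF, hn1⟩))).1
        · have : e ∈ F \ (T1 ∪ T2) := by
            rw [Finset.mem_sdiff, Finset.mem_union]
            exact ⟨heF, fun h => h.elim hn1 hn2⟩
          rw [hout, Finset.mem_sdiff] at this
          exact heG this.1
      · intro e heG heF
        by_contra hcon
        have hn1 : e ∉ T1 := fun h => hcon (HRL_mem ((mT1 e).1 h).1).1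
        by_cases hn2 : e ∈ T2
        · exact heF (Finset.mem_inter.1 (h2 (Finset.mem_inter.2 ⟨heG, hn2⟩))).1
        · have : e ∈ G \ (T1 ∪ T2) := by
            rw [Finset.mem_sdiff, Finset.mem_union]
            exact ⟨heG, fun h => h.elim hn1 hn2⟩
          rw [← hout, Finset.mem_sdiff] at this
          exact heF this.1)
  have hDS : D ⊆ S := Finset.sdiff_subset
  -- lower bound for the first hook
  have hPf : q0 ^ (2 * n + 4) ≤
      Pr (fun _ => (1/2:ℝ)) D (fun G => LEr X Y a m Lst TL (↑G : Set Edg)) := by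
    refine hpr.1.trans ?_
    have e1 : Pr (fun _ => (1/2:ℝ)) D (fun G => LEr X Y a m Lst TL (↑G : Set Edg)) =
        Pr (fun _ => (1/2:ℝ)) S (fun G => LEr X Y a m Lst TL (↑(G ∩ D) : Set Edg)) := by
      rw [Pr_local (S := S) (S' := D) hDS (A := fun G => LEr X Y a m Lst TL (↑(G ∩ D) : Set Edg))
        (fun F _ => by rw [Finset.inter_assoc, Finset.inter_self])]
      apply Pr_congr
      intro F hF
      rw [Finset.inter_eq_left.2 hF]
    rw [e1]
    apply Pr_mono ok_half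
    intro F hF hHk
    have h3 := lowr_side ha ham hst hS hA hHk
    refine LEr_mono ?_ ?_ h3
    · intro e he heF
      rw [Finset.mem_coe, Finset.mem_inter]
      exact ⟨heF, TL_D e (LS_TL e he)⟩
    · intro e he heF
      rw [Finset.mem_coe, Finset.mem_inter]
      exact ⟨⟨heF, TL_D e he⟩, he⟩
  have hPg : q0 ^ (2 * n + 4) ≤
      Pr (fun _ => (1/2:ℝ)) D (fun G => UEr X Y a m Rst TU (↑G : Set Edg)) := by
    refine hpr.2.trans ?_
    have e1 : Pr (fun _ => (1/2:ℝ)) D (fun G => UEr X Y a m Rst TU (↑G : Set Edg)) =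
        Pr (fun _ => (1/2:ℝ)) S (fun G => UEr X Y a m Rst TU (↑(G ∩ D) : Set Edg)) := by
      rw [Pr_local (S := S) (S' := D) hDS (A := fun G => UEr X Y a m Rst TU (↑(G ∩ D) : Set Edg))
        (fun F _ => by rw [Finset.inter_assoc, Finset.inter_self])]
      apply Pr_congr
      intro F hF
      rw [Finset.inter_eq_left.2 hF]
    rw [e1]
    apply Pr_mono ok_half
    intro F hF hHk
    have h3 := upr_side ha ham hst hS hA hHk
    refine UEr_mono ?_ ?_ (subset_refl _) h3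
    · intro e _ heF
      rw [Finset.mem_coe, Finset.mem_inter] at heF
      exact heF.1
    · intro e _ heF
      rw [Finset.mem_coe, Finset.mem_inter] at heF
      exact heF.1
  have hNn := Pr_nonneg ok_half D N
  have hq : 0 ≤ q0 ^ (2 * n + 4) := pow_nonneg q0_pos.le _
  have step1 : q0 ^ (2 * n + 4) * q0 ^ (2 * n + 4) * Pr (fun _ => (1/2:ℝ)) D N ≤
      Pr (fun _ => (1/2:ℝ)) D N *
        (Pr (fun _ => (1/2:ℝ)) D (fun G => LEr X Y a m Lst TL (↑G : Set Edg)) *
          Pr (fun _ => (1/2:ℝ)) D (fun G => UEr X Y a m Rst TU (↑G : Set Edg))) := by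
    rw [mul_comm]
    apply mul_le_mul_of_nonneg_left _ hNn
    exact mul_le_mul hPf hPg hq (hq.trans hPf)
  refine step1.trans (key.trans ?_)
  apply Pr_mono ok_half
  rintro G hG ⟨hNG, hL, hU⟩
  refine ⟨hNG, ?_⟩
  -- the configuration with the examined edges
  have hmem : ∀ e, e ∉ k → (e ∈ (F0 ∩ k) ∪ G ↔ e ∈ G) := by
    intro e he
    rw [Finset.mem_union, Finset.mem_inter]
    exact ⟨fun h => h.elim (fun h => absurd h.2 he) id, Or.inr⟩
  have hmemk : ∀ e, e ∈ k → (e ∈ F0 ↔ e ∈ (F0 ∩ k) ∪ G) := by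
    intro e he
    rw [Finset.mem_union, Finset.mem_inter]
    exact ⟨fun h => Or.inl ⟨h, he⟩, fun h => h.elim (fun h => h.1)
      (fun h => absurd he (Finset.mem_sdiff.1 (hG h)).2)⟩
  have hagr : ∀ e ∈ Exm (↑F0 : Set Edg) (st0 A y0) T,
      (e ∈ (↑F0 : Set Edg) ↔ e ∈ (↑((F0 ∩ k) ∪ G) : Set Edg)) := fun e he => hmemk e (hEk he)
  have hLs : {v | ∃ s ≤ T, (orb (↑((F0 ∩ k) ∪ G) : Set Edg) (st0 A y0) s).1 = v} = Lst := by
    ext v
    constructor
    · rintro ⟨s, hs, h⟩
      exact ⟨s, hs, by rw [← orb_congr hagr hs]; exact h⟩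
    · rintro ⟨s, hs, h⟩
      exact ⟨s, hs, by rw [orb_congr hagr hs]; exact h⟩
  have hRs : {f | ∃ s ≤ T, face (orb (↑((F0 ∩ k) ∪ G) : Set Edg) (st0 A y0) s) = f} = Rst := by
    ext v
    constructor
    · rintro ⟨s, hs, h⟩
      exact ⟨s, hs, by rw [← orb_congr hagr hs]; exact h⟩
    · rintro ⟨s, hs, h⟩
      exact ⟨s, hs, by rw [orb_congr hagr hs]; exact h⟩
  have notk : ∀ e ∈ D, e ∉ k := fun e he => (Finset.mem_sdiff.1 he).2
  constructor
  · unfold BaseLr
    rw [hLs]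
    refine LEr_mono ?_ ?_ hL
    · intro e _ he
      exact Finset.mem_union_right _ he
    · intro e he he2
      exact ⟨Finset.mem_union_right _ he2, he.1⟩
  · unfold BaseUr
    rw [hRs]
    refine UEr_mono ?_ ?_ ?_ hU
    · intro e he heF
      exact (hmem e (notk e (TU_D e (US_TU e he)))).1 heF
    · intro e he heF
      exact (hmem e (notk e (TU_D e he))).1 heF
    · intro e he
      exact he.1

end Pool.Agent.V11321.ND
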