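import Pool.Agent.V11321.ND.TreeC
import Pool.Agent.V11321.ND.LimN
import Pool.Agent.Y995.HG.UpS

/-!
Almost every time is slow at infinitely many scales.
-/

set_option autoImplicit false
set_option linter.unusedVariables false

namespace Pool.Agent.V11321.ND

open H974 Finset H342P H984P H984N Pool.Agent.Y995.FS Pool.Agent.Y995.HG Pool.Agent.Y995.TP
open MeasureTheory Filter Topology
open scoped ENNReal NNReal

/-- duration of the stays of stage `i` -/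
noncomputable def ts (κ K3 : ℝ) (i : ℕ) : ℝ :=
  κ * (((kq K3 i : ℕ) : ℝ) ^ (1/4 : ℝ) * ww i ^ (7/4 : ℝ))

/-- slow times of stage `i` -/
def Ss (κ K3 : ℝ) (p : X) (i : ℕ) : Set unitInterval :=
  {x | ∀ y : unitInterval, p.2 * |(y : ℝ) - x| ≤ ts κ K3 i / 4 →
    dist (p.1 y) (p.1 x) ≤ 2 * (4 * ww i)}

/-- the bad set of stage `i` -/
def BadS (κ K3 A0 : ℝ) (R : Rect) (ρ : ℝ) (i : ℕ) : Set X :=
  BadJ R ρ (4 * ww i) (κ * (((kq K3 i : ℕ) : ℝ) ^ (1/4 : ℝ) * ww i ^ (7/4 : ℝ)))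
    (A0 * ((ww i * Real.exp (2 * (K3 * ((kq K3 i : ℕ) : ℝ) ^ 2))) ^ (7/4 : ℝ) * Y995.HG.NN i)) (Y995.HG.NN i)

theorem ts_ge {κ K3 : ℝ} (hκ : 0 < κ) {i : ℕ} (hk : 1 ≤ kq K3 i) :
    κ * (1/2) ^ (7 * i ^ 2) ≤ ts κ K3 i := by
  unfold ts
  rw [ww_pow]
  have h1 : (1:ℝ) ≤ ((kq K3 i : ℕ) : ℝ) ^ (1/4 : ℝ) :=
    Real.one_le_rpow (by exact_mod_cast hk) (by norm_num)
  refine mul_le_mul_of_nonneg_left ?_ hκ.le
  have : (0:ℝ) < (1/2) ^ (7 * i ^ 2) := by positivity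
  nlinarith

theorem lv_next (i : ℕ) : lv (i + 1) = 7 * i ^ 2 + (13 * i + 6) := by
  have h1 := lv_eq i
  have h2 := lv_succ i
  omega

theorem rich_stage {κ K3 A0 : ℝ} (hκ : 0 < κ) (hK : 1 ≤ K3) (hA : 0 < A0) {R : Rect} {p : X}
    (hp : 0 < p.2) {ρ : ℝ} (hbad : ∀ᶠ i in atTop, p ∉ BadS κ K3 A0 R ρ i) :
    ∃ i0, Rich (Ss κ K3 p) lv (fun i => 14 * i + 6)
      (fun i => κ / (8 * p.2) / (((Nat.sqrt i : ℕ) : ℝ) + 1)) i0
      {u | ρ < dep R (p.1 u)} := by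
  obtain ⟨n0, hn0⟩ := exists_nat_gt (12 * p.2 / κ)
  have e4 : ∀ᶠ i : ℕ in atTop, κ / (8 * p.2) ≤ Real.sqrt i :=
    (Real.tendsto_sqrt_atTop.comp (tendsto_natCast_atTop_atTop (R := ℝ))).eventually
      (eventually_ge_atTop _)
  obtain ⟨i0, hi0⟩ := eventually_atTop.1 (hbad.and ((ev_h hK hA hp).and
    (((kq_tend hK).eventually (eventually_ge_atTop 1)).and (e4.and
      (eventually_ge_atTop n0)))))
  refine ⟨i0, lv_succ, ?_, ?_⟩
  · intro i hi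
    obtain ⟨-, -, -, g4, -⟩ := hi0 i hi
    have h1 := sq_ge i
    rw [div_le_one (by positivity)]
    linarith
  · intro i hi k hk hI
    obtain ⟨g1, g2, g3, g4, g5⟩ := hi0 i hi
    obtain ⟨τ, hτ⟩ : ∃ τ, τ = ts κ K3 i := ⟨_, rfl⟩
    have hτge := ts_ge (K3 := K3) hκ g3
    rw [← hτ] at hτge
    have hτ0 : 0 < τ := lt_of_lt_of_le (by positivity) hτge
    obtain ⟨s, hs⟩ : ∃ s : unitInterval, s = nodeT (2 ^ lv i) k (by omega) := ⟨_, rfl⟩
    obtain ⟨t, ht⟩ : ∃ t : unitInterval, t = nodeT (2 ^ lv i) (k + 1) hk := ⟨_, rfl⟩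
    have hDy := Dy_Icc (n := lv i) (k := k) hk
    rw [← hs, ← ht] at hDy
    have hsv : (s : ℝ) = k * (1/2) ^ lv i := by
      rw [hs]
      change (k : ℝ) / ((2 ^ lv i : ℕ) : ℝ) = _
      push_cast
      rw [div_pow, one_pow, mul_one_div]
    have htv : (t : ℝ) = (k + 1) * (1/2) ^ lv i := by
      rw [ht]
      change ((k + 1 : ℕ) : ℝ) / ((2 ^ lv i : ℕ) : ℝ) = _
      push_cast
      rw [div_pow, one_pow, mul_one_div]
    have hz : ∃ (u v : Fin (Y995.HG.NN i) → unitInterval) (z : Fin (Y995.HG.NN i) → ℂ), (∀ a, ‖z a‖ ≤ rad R) ∧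
        (∀ a b, a ≠ b → 3 * (4 * ww i) ≤ dist (z a) (z b)) ∧
        ∀ a, (s ≤ u a ∧ u a ≤ v a ∧ v a ≤ t) ∧
          (∀ y : unitInterval, dist (p.1 (max (u a) (min y (v a)))) (z a) ≤ 4 * ww i) ∧
          τ ≤ p.2 * ((v a : ℝ) - (u a : ℝ)) := by
      by_contra hcon
      apply g1
      rw [hτ] at hcon
      refine ⟨s, t, fun u h1 h2 => hI ?_, ?_, hcon⟩
      · rw [hDy]; exact ⟨h1, h2⟩
      · refine lt_of_lt_of_le g2 (le_of_eq ?_)
        rw [hsv, htv]; ring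
    obtain ⟨u, v, z, -, hz2, hz3⟩ := hz
    -- the number of cells
    obtain ⟨l, hl⟩ : ∃ l : ℝ, l = (1/2) ^ (lv i + (14 * i + 6)) := ⟨_, rfl⟩
    have hl0 : 0 < l := by rw [hl]; positivity
    have hl2 : l * 2 ^ (lv i + (14 * i + 6)) = 1 := by rw [hl, ← mul_pow]; norm_num
    obtain ⟨x, hx⟩ : ∃ x : ℝ, x = τ / (2 * p.2) / l := ⟨_, rfl⟩
    have hx6 : 6 ≤ x := by
      have h1 : ((1:ℝ)/2) ^ (7 * i ^ 2) / l = 2 ^ (13 * i + 6) := by
        rw [div_eq_iff hl0.ne', hl, ← lv_succ, lv_next, pow_add (1/2 : ℝ) (7 * i ^ 2)]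
        have : (2:ℝ) ^ (13 * i + 6) * (1/2) ^ (13 * i + 6) = 1 := by rw [← mul_pow]; norm_num
        calc ((1:ℝ)/2) ^ (7 * i ^ 2) = (1/2) ^ (7 * i ^ 2) * (2 ^ (13 * i + 6) *
              (1/2) ^ (13 * i + 6)) := by rw [this, mul_one]
          _ = _ := by ring
      have h2 : (i : ℝ) ≤ 2 ^ (13 * i + 6) := by
        have h3 : i < 2 ^ (13 * i + 6) :=
          lt_of_lt_of_le (Nat.lt_two_pow_self) (Nat.pow_le_pow_right (by norm_num) (by omega))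
        exact_mod_cast h3.le
      have h3 : 12 * p.2 / κ < i := lt_of_lt_of_le hn0 (by exact_mod_cast g5)
      rw [div_lt_iff₀ hκ] at h3
      have h4 : κ * (1/2) ^ (7 * i ^ 2) / (2 * p.2) / l ≤ x := by
        rw [hx]; gcongr
      have h5 : κ * (1/2) ^ (7 * i ^ 2) / (2 * p.2) / l = κ / (2 * p.2) * 2 ^ (13 * i + 6) := by
        rw [← h1]; field_simp
      rw [h5] at h4
      refine le_trans ?_ h4
      have h6 : κ / (2 * p.2) * (i:ℝ) ≤ κ / (2 * p.2) * 2 ^ (13 * i + 6) :=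
        mul_le_mul_of_nonneg_left h2 (by positivity)
      refine le_trans ?_ h6
      rw [div_mul_eq_mul_div, le_div_iff₀ (by positivity)]
      linarith
    obtain ⟨c0, hc0⟩ : ∃ c0, c0 = ⌊x⌋₊ - 2 := ⟨_, rfl⟩
    have hf1 : ((⌊x⌋₊ : ℕ) : ℝ) ≤ x := Nat.floor_le (by linarith)
    have hf2 : x < ((⌊x⌋₊ : ℕ) : ℝ) + 1 := Nat.lt_floor_add_one _
    have hf3 : 6 ≤ ⌊x⌋₊ := Nat.le_floor (by exact_mod_cast hx6)
    have hc1 : (c0 : ℝ) + 2 = ((⌊x⌋₊ : ℕ) : ℝ) := by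
      have : c0 + 2 = ⌊x⌋₊ := by omega
      exact_mod_cast this
    obtain ⟨Q, hQ1, hQ2, hQ3⟩ := rich_of (f := p.1) hp hτ0 (w := 4 * ww i)
      (by have := ww_pos i; positivity) (n := lv i) (d := 14 * i + 6) (k := k) hsv htv hz2 hz3
      (c0 := c0) (by rw [← hl, ← hx, hc1]; exact hf1)
    refine ⟨Q, hQ1, ?_, ?_⟩
    · rw [hQ2]
      push_cast
      have h1 : x / 2 ≤ c0 := by linarith
      have h2 := gain_ok (K3 := K3) hκ hp g3
      have h3 : (Y995.HG.NN i : ℝ) * (x / 2) ≤ Y995.HG.NN i * c0 :=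
        mul_le_mul_of_nonneg_left h1 (Nat.cast_nonneg _)
      refine le_trans ?_ h3
      have h4 : (Y995.HG.NN i : ℝ) * (x / 2) = (Y995.HG.NN i * τ / p.2) * 2 ^ (lv i + (14 * i + 6)) / 4 := by
        have e : x = τ / (2 * p.2) * 2 ^ (lv i + (14 * i + 6)) := by
          rw [hx, div_eq_iff hl0.ne', mul_assoc, mul_comm _ l, hl2, mul_one]
        rw [e]; field_simp; ring
      rw [h4, hτ]
      unfold ts
      have h5 : κ / (2 * p.2 * (((Nat.sqrt i : ℕ) : ℝ) + 1)) * (1/2) ^ lv i *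
          2 ^ (lv i + (14 * i + 6)) / 4 ≤ (Y995.HG.NN i * (κ * ((kq K3 i : ℝ) ^ (1/4 : ℝ) *
            ww i ^ (7/4 : ℝ))) / p.2) * 2 ^ (lv i + (14 * i + 6)) / 4 := by gcongr
      refine le_trans (le_of_eq ?_) h5
      have e2 : ((1:ℝ)/2) ^ lv i * 2 ^ (lv i + (14 * i + 6)) = 2 ^ (14 * i + 6) := by
        rw [pow_add, ← mul_assoc, ← mul_pow]; norm_num
      rw [mul_assoc, e2]
      have : (0:ℝ) < ((Nat.sqrt i : ℕ) : ℝ) + 1 := by positivity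
      field_simp
      norm_num
    · intro k' hk' y hy
      rw [lv_succ] at hy
      have := hQ3 k' hk' hy
      rw [hτ] at this
      exact this

theorem lv_tend : Tendsto lv atTop atTop := by
  refine tendsto_atTop_mono (fun i => ?_) tendsto_id
  show i ≤ lv i
  have h1 := lv_eq i
  nlinarith [sq_nonneg ((i:ℤ) - 1), Nat.zero_le i, h1]

theorem typ_slow {c C C2 : ℝ} (hc : 0 < c) (hC : 0 < C) (hL : LowA c (1/4)) (hU : TwoUp C (1/4))
    (hC2 : 0 < C2) (hA : AnnUp C2) : ∃ κ K3 : ℝ, 0 < κ ∧ 1 ≤ K3 ∧ ∀ R : Rect,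
    ∀ δ : ℕ → ℝ, (∀ i, 0 < δ i) → Tendsto δ atTop (𝓝 0) → ∀ μ : ProbabilityMeasure X,
      Tendsto (fun i => R.law (δ i)) atTop (𝓝 μ) →
      ∀ᵐ p ∂(μ : Measure X), ∀ᵐ u : unitInterval, 0 < dep R (p.1 u) →
        ∃ᶠ i in atTop, u ∈ Ss κ K3 p i := by
  obtain ⟨κ, K3, A0, hκ, hK3, hA0, hml⟩ := many_latN hc hC hL hU
  refine ⟨κ, K3, hκ, hK3, fun R => ?_⟩
  intro δ hδ hlim μ hμ
  obtain ⟨A, hA1, hb⟩ := hml R
  obtain ⟨-, -, h3⟩ := final_of hc hC hL hU hC2 hA R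
  have hbc := bc R (K := 1) le_rfl (B := fun ρ j => BadS κ K3 A0 R ρ j)
    (fun ρ j => badJ_open R _ _ _ _ _)
    (fun ρ hρ => by
      have h1 : ∀ᶠ i : ℕ in atTop, 20 ≤ i ∧ 20 ≤ kq K3 i ∧
          A0 * (ww i * Real.exp (2 * (K3 * ((kq K3 i : ℕ) : ℝ) ^ 2))) ≤ ρ :=
        (eventually_ge_atTop 20).and (((kq_tend hK3).eventually (eventually_ge_atTop 20)).and
          (ev_rho hK3 (by linarith) hρ))
      rw [eventually_atTop] at h1
      obtain ⟨j1, hj1⟩ := h1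
      refine ⟨A, j1, hA1, fun j hj => ?_⟩
      obtain ⟨g1, g2, g3⟩ := hj1 j hj
      obtain ⟨δ1, hδ1, h4⟩ := hb (kq K3 j) (Y995.HG.NN j) (ww j) ρ g2
        (by have := NN_big g1; omega) (ww_pos j) (by
          have h5 := ww_le (i := j) (by omega)
          have h6 : ((1:ℝ)/2) ^ (2 * j) ≤ (1/2) ^ 3 :=
            pow_le_pow_of_le_one (by norm_num) (by norm_num) (by omega)
          norm_num at h6
          linarith) g3
      refine ⟨δ1, hδ1, fun δ hδ hδ' => ?_⟩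
      exact (h4 δ hδ hδ').trans (pr_bound hA1 g1))
    hδ hlim hμ
  filter_upwards [h3 δ hδ hlim μ hμ, hbc] with p g1 g2
  have hp := g1.1
  have hall : ∀ n : ℕ, ∀ᵐ u : unitInterval, 1 / ((n : ℝ) + 1) < dep R (p.1 u) →
      ∃ᶠ i in atTop, u ∈ Ss κ K3 p i := by
    intro n
    obtain ⟨i0, hrich⟩ := rich_stage hκ hK3 (by linarith) hp (g2 n)
    have hc' : Continuous (fun u : unitInterval => dep R (p.1 u)) :=
      (dep_cont R).comp p.1.continuous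
    exact rich_ae hrich (a := κ / (8 * p.2)) (by positivity) (fun i => rfl)
      (isOpen_lt continuous_const hc') lv_tend
  rw [← ae_all_iff] at hall
  filter_upwards [hall] with u hu hdep
  obtain ⟨n, hn⟩ := exists_nat_one_div_lt hdep
  exact hu n hn

end Pool.Agent.V11321.ND
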